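import Pool.Agent.Lib.MP_d610d0_nt.CH.P.Defs
import Pool.Agent.Lib.MP_d610d0_nt.CH.V.Stm

set_option autoImplicit false

/-!
Section P (prime sums twisted by `χ(n) n^(iτ)`): statements of the pieces. `R_x` is the conclusion,
`S_x` the statement to be proved (with the results it uses as hypotheses).

Library: `Lj a j s = ∑ (log n)^j a(n) n^(-s)`, `Fk χ k s = Lj (aL χ) (k+1) s = ∑ Λ(n) χ(n) (log n)^k n^(-s)`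
(`aL χ n = χ(n) Λ(n)/log n`), `leibniz`, `summable_Lj`, `norm_aL_le`, `Lj_trivial` (namespaces
`Pool.Agent.MP89da58.S`, `Pool.Agent.BVall`).
-/

namespace Pool.Agent.CH.P

open Finset Filter
open ArithmeticFunction (vonMangoldt)
open Pool.Agent.MP89da58 (tri)
open Pool.Agent.MP89da58.S (Lj aL Fk)
open Pool.Agent.BVall (OmL psiG aZ)
open Pool.Agent.CH.V (pz I_V)

/-! ### Mertens -/

/-- Mertens' first theorem. -/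
def R_mer1 : Prop := ∃ C : ℝ, ∀ x : ℕ, 1 ≤ x →
  |∑ p ∈ (Icc 1 x).filter Nat.Prime, Real.log p / p - Real.log x| ≤ C

/-- [P mer1] Proof: `Lib/MP_d610d0_nt/Mert*.lean`: `Asum_lower` and `Asum_upper` (for `m ≥ 4000`); for
`m < 4000` the sum is at most its value at `4000` and `log m` is bounded. (Check the definition of
`Asum`; the classical proof: `log x! = ∑_{d ≤ x} Λ(d) ⌊x/d⌋`, Chebyshev's bound `ψ(x) ≤ C x`.) -/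
def S_mer1 : Prop := R_mer1

/-- Mertens' second theorem in difference form. -/
def R_mer2 : Prop := ∃ C : ℝ, ∀ a b : ℕ, 2 ≤ a → a ≤ b →
  |∑ p ∈ (Ioc a b).filter Nat.Prime, (1 : ℝ) / p - Real.log (Real.log b / Real.log a)|
    ≤ C / Real.log a

/-- [P mer2] (uses P mer1) Proof: let `A(n) = ∑_{p ≤ n} log p / p = log n + E(n)`, `|E| ≤ C`. Abel
summation with `f(n) = 1/log n`: `∑_{a<p≤b} 1/p = A(b) f(b) - A(a) f(a) + ∑_{n=a}^{b-1} A(n) (f(n) - f(n+1))`.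
The same identity for `log n` in place of `A(n)` gives `∑_{a<n≤b} (log n - log(n-1)) f(n)`, which differs
from `∫_a^b dx/(x log x) = log(log b/log a)` by at most `∑_{a<n≤b} log(n/(n-1)) (f(n-1) - f(n))
≤ f(a)`; the error is at most `C (f(b) + f(a) + f(a) - f(b)) ≤ 2 C f(a)`. -/
def S_mer2 : Prop := R_mer1 → R_mer2

/-! ### Sums over integers -/

/-- Twisted sums over all integers up to `N`. -/
def R_cls : Prop := ∀ (A B : ℕ) (κ : ℝ), 1 ≤ κ → ∀ᶠ l : ℝ in atTop, ∀ (r : ℕ)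
  (χ : DirichletCharacter ℂ r), 1 ≤ r → (r : ℝ) ≤ l ^ B → ∀ (t : ℝ) (N : ℕ), l ^ (A + 3) ≤ |t| →
  |t| ≤ Real.exp (κ * l) → l ^ (451 / 500 : ℝ) ≤ Real.log N →
  ‖∑ n ∈ Icc 1 N, χ (n : ZMod r) * pz t n‖ ≤ N / l ^ A

/-- [P cls] Proof: split `n = b + r k`, `1 ≤ b ≤ r`, `0 ≤ k ≤ (N-b)/r`: `χ(n) = χ(b)`,
`pz t (b + r k) = pz t r * pz t (k + b/r)`, `u = b/r ∈ (0,1]`. Let `N_0 = ⌈exp(l^(9/10))⌉`. The terms with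
`k ≤ N_0` contribute at most `r (N_0 + 1)` in total. The `k ∈ (N_0, K]`, `K ≤ N/r`, are covered by the
blocks `(N_0 2^i, min(K, N_0 2^(i+1))]`; `I_V` with `A + 1` (note `l^((A+1)+2) ≤ |t|`) bounds each by
`N_0 2^i / l^(A+1)`, the sum is at most `2 K / l^(A+1)`. Total at most
`r (N_0+1) + 2 N / l^(A+1) ≤ N / l^A` for large `l`, because `r (N_0 + 1) ≤ 3 l^B exp(l^(9/10))
≤ exp(l^(451/500)) / (2 l^A)`. -/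
def S_cls : Prop := I_V → R_cls

/-- Rankin's bound for the large divisors of `PP l`. -/
def R_rank : Prop := ∃ C : ℝ, ∀ᶠ l : ℝ in atTop, ∀ D : ℝ, 1 ≤ D →
  ∑ d ∈ (PP l).divisors.filter (fun d : ℕ => D < (d : ℝ)), (1 : ℝ) / d
    ≤ C * l ^ 3 * Real.exp (-(Real.log D / l ^ (9 / 10 : ℝ)))

/-- [P rank] (uses P mer2) Proof: `M = l^(9/10)`, `y = exp M`. For `d > D`, `1 ≤ (d/D)^(1/M)`, so the sum is at
most `D^(-1/M) ∑_{d ∣ PP l} d^(-1+1/M) = exp(-log D/M) ∏_{p ≤ y} (1 + p^(-1+1/M))` (`PP l` is squarefree,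
`Nat.primorial`), and `p^(1/M) ≤ e` for `p ≤ y`; the product is at most `exp(e ∑_{p≤y} 1/p) ≤
exp(e (log M + C)) ≤ C' M^3`. -/
def S_rank : Prop := R_mer2 → R_rank

/-- Sums over the integers without small prime factors. -/
def R_rgh : Prop := ∀ (A B : ℕ) (κ : ℝ), 1 ≤ κ → ∀ᶠ l : ℝ in atTop, ∀ (r : ℕ)
  (χ : DirichletCharacter ℂ r), 1 ≤ r → (r : ℝ) ≤ l ^ B → ∀ (t : ℝ) (N : ℕ), l ^ (A + 5) ≤ |t| →
  |t| ≤ Real.exp (κ * l) → l ^ (905 / 1000 : ℝ) ≤ Real.log N → Real.log N ≤ l ^ (11 / 10 : ℝ) →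
  ‖∑ n ∈ Icc 1 N, chy χ (PP l) (n : ZMod (r * PP l)) * pz t n‖ ≤ N / l ^ A

/-- [P rgh] (uses P cls, P rank) Proof: `chy χ P n = χ(n) ∑_{d ∣ gcd(n, P)} μ(d)` (it is `χ(n)` if
`gcd(n,P)=1` and `0` otherwise; `changeLevel_eq_cast_of_dvd'`), so the sum is
`∑_{d ∣ P, d ≤ N} μ(d) χ(d) pz t d ∑_{m ≤ N/d} χ(m) pz t m`. For `d ≤ √N`: `log ⌊N/d⌋ ≥ (log N)/2 - 1 ≥
l^(451/500)`, R_cls with `A + 2` gives `(N/d)/l^(A+2)`; `∑_{d ≤ N} 1/d ≤ 1 + log N ≤ 2 l^(11/10)`;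
total `≤ 2 N l^(11/10)/l^(A+2) ≤ N/(2 l^A)`. For `d > √N`: at most `N ∑ 1/d ≤
N C l^3 exp(-log N/(2 l^(9/10))) ≤ N C l^3 exp(-l^(1/200)/2) ≤ N/(2 l^A)`. -/
def S_rgh : Prop := R_cls → R_rank → R_rgh

/-! ### Sifted L-functions -/

/-- Upper bounds for the derivatives. -/
def R_Lb : Prop := ∀ (B k : ℕ) (κ : ℝ), 1 ≤ κ → ∃ C0 : ℕ, ∀ᶠ l : ℝ in atTop, ∀ (r : ℕ)
  (χ : DirichletCharacter ℂ r), 1 ≤ r → (r : ℝ) ≤ l ^ B → ∀ t : ℝ, l ^ C0 ≤ |t| →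
  |t| ≤ Real.exp (κ * l) → ∀ i ≤ k,
  ‖Lj (fun n => chy χ (PP l) n) i (sp l t)‖ ≤ l ^ (6 / 1000 : ℝ) * (l ^ (905 / 1000 : ℝ)) ^ i

/-- [P Lb] (uses P rgh, P mer2) Proof: `C0 = A + 5` with `A = 2 k + 6`. The series is
`∑ c(n) (log n)^i n^(-1-1/l) n^(-it)`, `c = chy χ (PP l)`, `|c| ≤ 1`. Let `Z = ⌈exp(l^(905/1000))⌉`,
`Z2 = ⌊exp(l^(11/10))⌋`. (i) `n ≤ Z`: at most `(log Z)^i ∑_{n ≤ Z, (n,P)=1} 1/n`, `log Z ≤ 2 l^(905/1000)`, and this sum is at most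
`∏_{y<p≤Z} (1-1/p)^(-1) ≤ exp(∑_{y<p≤Z} 1/p + 1) ≤ C l^(905/1000)/l^(9/10) = C l^(5/1000)` (P mer2,
`y = exp(l^(9/10))`; an integer `n ≤ Z` coprime to `P` is composed of primes in `(y, Z]`).
(ii) `Z < n ≤ Z2`: Abel summation with `R(N) = ∑_{n ≤ N} c(n) pz t n`, `|R(N)| ≤ N/l^A` for
`Z ≤ N ≤ Z2`, and `g(n) = (log n)^i n^(-1-1/l)`, `|g(n) - g(n+1)| ≤ (i + 2)(1 + log(n+1))^i/n^2`: at most
`l^(-A) (i+4) (2 l^(11/10)+2)^(i+1) ≤ 1/3`. (iii) `n > Z2`: at most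
`∑_{n>Z2} (log n)^i n^(-1-1/l) ≤ exp(-l^(1/10)/3) ∑_n (log n)^i n^(-1-1/(2l)) ≤ exp(-l^(1/10)/3) C_i (2l)^(i+1)
≤ 1/3`. Total `≤ C l^(5/1000) (l^(905/1000))^i + 1 ≤ l^(6/1000) (l^(905/1000))^i`. -/
def S_Lb : Prop := R_mer2 → R_rgh → R_Lb

/-- The sifted zeta function near `1`. -/
def R_zs : Prop := ∀ᶠ l : ℝ in atTop, ∀ r : ℕ, 1 ≤ r →
  ‖LSeries (fun n => (1 : DirichletCharacter ℂ (r * PP l)) n) ((1 + 1 / l : ℝ) : ℂ)‖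
    ≤ l ^ (101 / 1000 : ℝ)

/-- [P zs] (uses P mer2) Proof: with `σ = 1 + 1/l` the series has nonnegative terms `n^(-σ)` over the `n` coprime
to `r PP l`, so it is at most the sum over the `n` coprime to `P = PP l`, which is
`ζ(σ) ∏_{p ≤ y} (1 - p^(-σ))` (Euler product; or: `∑_{(n,P)=1} n^(-σ) * ∏_{p∣P} (1-p^(-σ))^(-1) = ζ(σ)`,
unique factorisation `n = a b`). `ζ(σ) ≤ 1 + l ≤ 2 l`. `∏ (1 - p^(-σ)) ≤ exp(-∑_{p≤y} p^(-σ))`, and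
`p^(-σ) ≥ p^(-1) (1 - (log p)/l)`, so `∑ p^(-σ) ≥ ∑_{p ≤ y} 1/p - (1/l) ∑_{p≤y} (log p)/p ≥
log(l^(9/10)) - C - C` (P mer2 with `a = 2`; `∑_{p ≤ y} (log p)/p ≤ ∑ log p * ... ≤ C log y`, which
follows from P mer2 by `log p ≤ log y`... simply `∑_{p≤y} (log p)/p ≤ log y * ∑_{p ≤ y} 1/p` is enough:
`l^(9/10) (log l + C)/l ≤ 1`). Total `≤ 2 l C l^(-9/10) ≤ l^(101/1000)`. -/
def S_zs : Prop := R_mer2 → R_zs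

/-- Lower bound for the sifted L-functions. -/
def R_low : Prop := ∀ (B : ℕ) (κ : ℝ), 1 ≤ κ → ∃ C0 : ℕ, ∀ᶠ l : ℝ in atTop, ∀ (r : ℕ)
  (χ : DirichletCharacter ℂ r), 1 ≤ r → (r : ℝ) ≤ l ^ B → ∀ t : ℝ, l ^ C0 ≤ |t| →
  |t| ≤ Real.exp (κ * l) → (l ^ (78 / 1000 : ℝ))⁻¹ ≤ ‖Lj (fun n => chy χ (PP l) n) 0 (sp l t)‖

/-- [P low] (uses P Lb, P zs) Proof: `DirichletCharacter.norm_LSeries_product_ge_one` (Mathlib) for the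
character `ψ = chy χ (PP l)` modulo `r PP l`, `x = 1/l`, `y = t`:
`1 ≤ ‖L(1 + 1/l, 1)^3 L(1 + 1/l + i t, ψ)^4 L(1 + 1/l + 2 i t, ψ^2)‖`. `ψ^2 = chy (χ^2) (PP l)` (`changeLevel` is a
homomorphism); the last factor is at most `l^(6/1000)` (R_Lb with `k = 0`, `2 κ`), the first at most
`l^(303/1000)`. So `‖L(.., ψ)‖ ≥ l^(-309/4000) ≥ l^(-78/1000)`. `Lj f 0 s` is the L-series of `f`.
(The order of the factors `I * y` in Mathlib: adapt.) -/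
def S_low : Prop := R_Lb → R_zs → R_low

/-- The recursion for the derivatives of `L'/L`. -/
def R_rc : Prop := ∀ (r : ℕ) (χ : DirichletCharacter ℂ r) (s : ℂ) (k : ℕ) (K U V W : ℝ), 1 < s.re →
  1 ≤ K → 1 ≤ U → 0 < V → U ≤ W → V * K * U * (1 + 2 ^ k) ≤ W →
  (∀ i ≤ k + 1, ‖Lj (fun n => χ n) i s‖ ≤ K * U ^ i) → 1 / V ≤ ‖Lj (fun n => χ n) 0 s‖ →
  ∀ j ≤ k, ‖Fk χ j s‖ ≤ W ^ (j + 1)

/-- [P rc] Proof: as `rec_bound` in `Lib/MP_0da313_nt/BV/RecAll.lean`. Strong induction on `j`; by `leibniz`,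
`F_j L^(0) = L^(j+1) - ∑_{i<j} C(j,i) F_i L^(j-i)`. `‖L^(j+1)‖ ≤ K U^(j+1) ≤ K U W^j`;
`‖F_i L^(j-i)‖ ≤ W^(i+1) K U^(j-i) ≤ K U W^j` (`j - i ≥ 1`, `U ≤ W`). So
`‖F_j‖ ≤ V K U W^j (1 + 2^j) ≤ W^(j+1)`. -/
def S_rc : Prop := R_rc

/-- Removing the small primes. -/
def R_sp : Prop := ∀ k : ℕ, ∃ C : ℝ, ∀ᶠ l : ℝ in atTop, ∀ (r : ℕ) (χ : DirichletCharacter ℂ r) (t : ℝ),
  1 ≤ r → ∀ j ≤ k,
  ‖Fk χ j (sp l t) - Fk (chy χ (PP l)) j (sp l t)‖ ≤ C * (l ^ (9 / 10 : ℝ)) ^ (j + 1)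

/-- [P sp] (uses P mer1) Proof: the difference is the sum over the prime powers `n = p^a`, `p ≤ y`, `p ∤ r`, of
`Λ(n) χ(n) (log n)^j n^(-s)`, at most `∑_{p ≤ y} ∑_{a ≥ 1} (log p) (a log p)^j p^(-a) ≤
C_j (log y)^j ∑_{p≤y} (log p)/p ≤ C (log y)^(j+1)` (`∑_a a^j p^(1-a) ≤ C_j`; P mer1), `log y = l^(9/10)`. -/
def S_sp : Prop := R_mer1 → R_sp

/-- The bound for the derivatives of `L'/L`. -/
def R_Fb : Prop := ∀ (B k : ℕ) (κ : ℝ), 1 ≤ κ → ∃ C0 : ℕ, ∀ᶠ l : ℝ in atTop, ∀ (r : ℕ)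
  (χ : DirichletCharacter ℂ r), 1 ≤ r → (r : ℝ) ≤ l ^ B → ∀ t : ℝ, l ^ C0 ≤ |t| →
  |t| ≤ Real.exp (κ * l) → ∀ j ≤ k, ‖Fk χ j (sp l t)‖ ≤ 2 * (l ^ (99 / 100 : ℝ)) ^ (j + 1)

/-- [P Fb] (uses P Lb, P low, P rc, P sp) Proof: R_rc for `chy χ (PP l)` with `K = l^(6/1000)`,
`U = l^(905/1000)`, `V = l^(78/1000)`, `W = l^(99/100)`: `V K U (1+2^k) = (1+2^k) l^(989/1000) ≤ W`. Then
R_sp: `C (l^(9/10))^(j+1) ≤ (l^(99/100))^(j+1)`. -/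
def S_Fb : Prop := R_Lb → R_low → R_rc → R_sp → R_Fb

/-! ### From the derivatives to sums over primes -/

/-- Smooth windows from bounds of derivatives, for all window widths up to a power of `L`. -/
def R_psi : Prop := ∀ A E : ℕ, ∃ D : ℕ, ∀ᶠ L : ℝ in atTop, ∀ lam : ℝ, 1 ≤ lam → lam ≤ L ^ E →
  ∀ a : ℕ → ℂ, (∀ n, ‖a n‖ ≤ 1) →
  (∀ t : ℝ, |t| ≤ L ^ D → ‖Lj a (100 * (A + 3) + 1) (sp L t)‖
    ≤ 2 * (L ^ (99 / 100 : ℝ)) ^ (100 * (A + 3) + 1)) →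
  ‖psiG lam (Real.exp L) a‖ ≤ Real.exp L / L ^ A

/-- [P psi] Proof: adapt `psiG_le` (`Lib/MP_0da313_nt/BV/SmallAll.lean`), `k = 100 (A+3)`, `D = 2 (k+3) + E`. By
`psiG_eq` and `norm_fourier_gk_le`, `‖psiG‖ ≤ (e exp(L) / L^k) ∫ 2 MB_k (1+w^2)^(-1) ‖Lj a (k+1) (1 + 1/L - 2π i lam w)‖ dw`.
If `|2π lam w| ≤ L^D` the last factor is at most `2 L^(0.99 (k+1))`; otherwise (`Lj_trivial`) it is at most
`C L^(k+2) ≤ C (1+w^2)^(1/4)`, since `|w| ≥ L^D/(2π lam) ≥ L^(D-E)/7 ≥ L^(2(k+2))` for large `L`. So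
`‖psiG‖ ≤ C' exp(L) L^(-k) (L^(0.99(k+1)) + 1) ≤ exp(L)/L^A`, as `0.01 k - 0.99 ≥ A + 2`. (Here `lam` varies:
the constants do not depend on `lam`.) -/
def S_psi : Prop := R_psi

/-- Smooth windows for the primes. -/
def R_win : Prop := ∀ (A B E : ℕ) (κ : ℝ), 1 ≤ κ → ∃ C0 : ℕ, ∀ᶠ X : ℝ in atTop, ∀ lam : ℝ, 1 ≤ lam →
  lam ≤ (Real.log X) ^ E → ∀ (r : ℕ) (χ : DirichletCharacter ℂ r), 1 ≤ r →
  (r : ℝ) ≤ (Real.log X) ^ B → χ.IsPrimitive → ∀ τ : ℝ, |τ| ≤ X ^ κ →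
  (2 ≤ r ∨ (Real.log X) ^ C0 ≤ |τ|) →
  ‖∑ n ∈ Icc 1 ⌊3 * X⌋₊, (vonMangoldt n : ℂ) * χ (n : ZMod r) * pz (-τ) n * (OmL lam X n : ℂ)‖
    ≤ X / (Real.log X) ^ A

/-- [P win] (uses P Fb, P psi) Proof: `L = log X`, `a(n) = aL χ n * pz (-τ) n` (`pz (-τ) n = n^(iτ)`), `‖a n‖ ≤ 1`; then
the sum is `psiG lam X a` and `Lj a (k+1) s = Fk χ k (s - iτ)`, `k = 100(A+3)`. Let `D` be from R_psi,
`C1` from R_Fb (for `k`, `κ + 1`), `C2 = max C1 D`, `C0 = C2 + 1`. For `|t| ≤ L^D`: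
if `|τ| ≥ 2 L^C2` then `L^C1 ≤ |t - τ| ≤ exp((κ+1) L)` and R_Fb applies. If `|τ| < 2 L^C2`, then `r ≥ 2`
(as `2 L^C2 ≤ L^C0`), and `|t - τ| ≤ L^(C2+1)`: use `Fk_bound'` of `Lib/MP_0da313_nt/BV/RecAll.lean` with
`l = log L` (`exp(-l) = 1/L`, `exp(l/5) = L^(1/5) ≤ L^(99/100)`). -/
def S_win : Prop := R_Fb → R_psi → R_win

/-- Smooth windows for `Λ - 1`. -/
def R_wz : Prop := ∀ A E : ℕ, ∀ᶠ X : ℝ in atTop, ∀ lam : ℝ, 1 ≤ lam → lam ≤ (Real.log X) ^ E →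
  ‖∑ n ∈ Icc 1 ⌊3 * X⌋₊, ((vonMangoldt n - 1 : ℝ) : ℂ) * (OmL lam X n : ℂ)‖ ≤ X / (Real.log X) ^ A

/-- [P wz] (uses P psi) Proof: as `psiXL_approx` in `Lib/MP_0da313_nt/BV/SmallCor.lean`: `a(n) = aZ n / 3`,
`aZ_bound` with `l = log L` gives the hypothesis of R_psi (with `A + 1`); the sum is `3 psiG lam X (aZ/3)`
(the term `n = 1` vanishes for large `X`), `3/(log X)^(A+1) ≤ 1/(log X)^A`. -/
def S_wz : Prop := R_psi → R_wz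

/-- From smooth windows to sharp cutoffs. -/
def R_shp : Prop := ∀ A : ℕ, ∀ᶠ M : ℝ in atTop, ∀ b : ℕ → ℂ, (∀ n, 1 ≤ n → ‖b n‖ ≤ Real.log n + 1) →
  (∀ X : ℝ, M / (Real.log M) ^ (A + 3) ≤ X → X ≤ M →
    ‖∑ n ∈ Icc 1 ⌊3 * X⌋₊, b n * (OmL ((Real.log M) ^ (A + 3)) X n : ℂ)‖
      ≤ X / (Real.log M) ^ (2 * A + 6)) →
  ∀ M1 M2 : ℕ, (M2 : ℝ) ≤ M → ‖∑ n ∈ Ioc M1 M2, b n‖ ≤ M / (Real.log M) ^ A

/-- [P shp] Proof: `L = log M`, `lam = L^(A+3)`, `X_i = exp(i/lam)`, `i ∈ ℤ`. The tents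
`tri(lam log(n/X_i)) = tri(lam log n - i)` add up to `1`. Let `I` be the set of the `i` with
`max(M1, M/L^(A+3)) exp(1/lam) ≤ X_i ≤ M2 exp(-1/lam)` and `ω(n) = ∑_{i ∈ I} tri(lam log n - i) ∈ [0,1]`: it is
`0` outside `(M1, M2]` and `1` for `max(M1, M/L^(A+3)) exp(3/lam) ≤ n ≤ M2 exp(-3/lam)`. The integers `n ≤ M2`,
`n > M1` with `ω(n) ≠ 1` are at most `C (M/L^(A+3) + M/lam + 1)`, `‖b n‖ ≤ L + 2`, contribution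
`≤ C' M/L^(A+2)`. For `i ∈ I`: `OmL lam X_i n = (X_i/n)^c tri(..)`, `c = 1 + 1/log X_i ≤ 2`, and on the support
`|(X_i/n)^c - 1| ≤ 4/lam`, so replacing `tri` by `OmL` costs at most `(L+2)(4/lam)(3 X_i/lam + 1)`; the sum over
`i ∈ I` (`∑ X_i ≤ 3 lam M`, and at most `lam L` indices) is at most `C (L + 2)(M/lam + L)`. The main terms:
`∑_{i∈I} X_i/L^(2A+6) ≤ 3 lam M/L^(2A+6) = 3 M/L^(A+3)`. Everything together `≤ M/L^A`. -/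
def S_shp : Prop := R_shp

/-- Sharp sums over primes twisted by `χ(n) n^(iτ)`. -/
def R_PW : Prop := ∀ (A B : ℕ) (κ : ℝ), 1 ≤ κ → ∃ C0 : ℕ, ∀ᶠ M : ℝ in atTop, ∀ (r : ℕ)
  (χ : DirichletCharacter ℂ r), 1 ≤ r → (r : ℝ) ≤ (Real.log M) ^ B → χ.IsPrimitive → ∀ τ : ℝ,
  |τ| ≤ M ^ κ → (2 ≤ r ∨ (Real.log M) ^ C0 ≤ |τ|) → ∀ M1 M2 : ℕ, (M2 : ℝ) ≤ M →
  ‖∑ n ∈ Ioc M1 M2, (vonMangoldt n : ℂ) * χ (n : ZMod r) * pz (-τ) n‖ ≤ M / (Real.log M) ^ A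

/-- [P PW] (uses P win, P shp) Proof: R_shp with `b(n) = Λ(n) χ(n) pz (-τ) n`. For
`M/(log M)^(A+3) ≤ X ≤ M` (so `√M ≤ X`, `log X ≥ (log M)/2`) use R_win with `A' = 2A + 7`, `B + 1`, `E = A + 4`,
`κ' = 2 κ`: `(log M)^(A+3) ≤ (log X)^(A+4)`, `|τ| ≤ M^κ ≤ X^(2κ)`, `(log M)^B ≤ (log X)^(B+1)`,
`1/(log X)^(2A+7) ≤ 1/(log M)^(2A+6)`. -/
def S_PW : Prop := R_win → R_shp → R_PW

/-- The prime number theorem with a power of `log`. -/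
def R_PNT : Prop := ∀ A : ℕ, ∃ C : ℝ, ∀ M : ℕ, 2 ≤ M →
  |∑ n ∈ Icc 1 M, vonMangoldt n - M| ≤ C * M / (Real.log M) ^ A

/-- [P PNT] (uses P wz, P shp) Proof: R_shp with `b(n) = Λ(n) - 1` (`|b n| ≤ log n + 1`), `M1 = 0`, as in P PW;
for small `M` enlarge the constant. -/
def S_PNT : Prop := R_wz → R_shp → R_PNT

end Pool.Agent.CH.P
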