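import Pool.Agent.Lib.MP_d610d0_nt.CH.V.Defs
import Pool.Agent.Lib.MP_0da313_nt.BV.SmallCor

set_option autoImplicit false

/-!
Section P (prime sums twisted by `χ(n) n^(iτ)`): definitions.
-/

namespace Pool.Agent.CH.P

open Finset

/-- The product of the primes up to `y = exp(l^(9/10))`. -/
noncomputable def PP (l : ℝ) : ℕ := primorial ⌊Real.exp (l ^ (9 / 10 : ℝ))⌋₊

/-- The character `χ` induced modulo `r * P`: it is `χ(n)` if `n` is coprime to `P`, and `0` otherwise. -/
noncomputable def chy {r : ℕ} (χ : DirichletCharacter ℂ r) (P : ℕ) : DirichletCharacter ℂ (r * P) :=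
  DirichletCharacter.changeLevel (dvd_mul_right r P) χ

/-- The point `1 + 1/l + i t`. -/
noncomputable def sp (l t : ℝ) : ℂ := ((1 + 1 / l : ℝ) : ℂ) + Complex.I * (t : ℂ)

end Pool.Agent.CH.P
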