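import Pool.Agent.Lib.MP_d610d0_nt.CH.P.Stm

set_option autoImplicit false

/-!
Piece Fb.
-/

namespace Pool.Agent.CH.P

open Finset Filter
open ArithmeticFunction (vonMangoldt)
open Pool.Agent.MP89da58 (tri)
open Pool.Agent.MP89da58.S (Lj aL Fk)
open Pool.Agent.BVall (OmL psiG aZ)
open Pool.Agent.CH.V (pz I_V)

theorem Fb_ev (c e : ℝ) (he : 0 < e) : ∀ᶠ l : ℝ in atTop, c ≤ l ^ e :=
  (tendsto_rpow_atTop he).eventually_ge_atTop c

theorem p_Fb : S_Fb := by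
  intro hLb hlow hrc hsp B k κ hκ
  obtain ⟨C1, h1⟩ := hLb B (k + 1) κ hκ
  obtain ⟨C2, h2⟩ := hlow B κ hκ
  obtain ⟨C, h3⟩ := hsp k
  refine ⟨max C1 C2, ?_⟩
  filter_upwards [h1, h2, h3, Fb_ev (1 + 2 ^ k) (1 / 1000) (by norm_num),
    Fb_ev (max C 1) (9 / 100) (by norm_num), eventually_ge_atTop (1 : ℝ)]
    with l e1 e2 e3 e4 e5 hl1
  intro r χ hr hrl t ht1 ht2 j hj
  have hl0 : 0 < l := by linarith
  have t1 : l ^ C1 ≤ |t| := (pow_le_pow_right₀ hl1 (le_max_left _ _)).trans ht1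
  have t2 : l ^ C2 ≤ |t| := (pow_le_pow_right₀ hl1 (le_max_right _ _)).trans ht1
  have hre : 1 < (sp l t).re := by
    have h : (sp l t).re = 1 + 1 / l := by
      unfold sp
      simp
    rw [h]
    have : 0 < 1 / l := by positivity
    linarith
  have hW : ∀ e : ℝ, 0 ≤ e → 1 ≤ l ^ e := fun e he => Real.one_le_rpow hl1 he
  have hmain : ‖Fk (chy χ (PP l)) j (sp l t)‖ ≤ (l ^ (99 / 100 : ℝ)) ^ (j + 1) := by
    refine hrc (r * PP l) (chy χ (PP l)) (sp l t) k (l ^ (6 / 1000 : ℝ)) (l ^ (905 / 1000 : ℝ))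
      (l ^ (78 / 1000 : ℝ)) (l ^ (99 / 100 : ℝ)) hre (hW _ (by norm_num)) (hW _ (by norm_num))
      (by positivity) ?_ ?_ ?_ ?_ j hj
    · exact Real.rpow_le_rpow_of_exponent_le hl1 (by norm_num)
    · rw [← Real.rpow_add hl0, ← Real.rpow_add hl0]
      calc l ^ (78 / 1000 + 6 / 1000 + 905 / 1000 : ℝ) * (1 + 2 ^ k)
          ≤ l ^ (78 / 1000 + 6 / 1000 + 905 / 1000 : ℝ) * l ^ (1 / 1000 : ℝ) :=
            mul_le_mul_of_nonneg_left e4 (by positivity)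
        _ = l ^ (99 / 100 : ℝ) := by
            rw [← Real.rpow_add hl0]
            norm_num
    · intro i hi
      exact e1 r χ hr hrl t t1 ht2 i hi
    · rw [one_div]
      exact e2 r χ hr hrl t t2 ht2
  have hdiff : ‖Fk χ j (sp l t) - Fk (chy χ (PP l)) j (sp l t)‖ ≤ (l ^ (99 / 100 : ℝ)) ^ (j + 1) := by
    refine (e3 r χ t hr j hj).trans ?_
    have hC1 : (1 : ℝ) ≤ max C 1 := le_max_right _ _
    calc C * (l ^ (9 / 10 : ℝ)) ^ (j + 1) ≤ (max C 1) ^ (j + 1) * (l ^ (9 / 10 : ℝ)) ^ (j + 1) := by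
          refine mul_le_mul_of_nonneg_right ?_ (by positivity)
          calc C ≤ max C 1 := le_max_left _ _
            _ = (max C 1) ^ 1 := (pow_one _).symm
            _ ≤ (max C 1) ^ (j + 1) := pow_le_pow_right₀ hC1 (by omega)
      _ = (max C 1 * l ^ (9 / 10 : ℝ)) ^ (j + 1) := (mul_pow _ _ _).symm
      _ ≤ (l ^ (9 / 100 : ℝ) * l ^ (9 / 10 : ℝ)) ^ (j + 1) := by
          refine pow_le_pow_left₀ (by positivity) ?_ _
          exact mul_le_mul_of_nonneg_right e5 (by positivity)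
      _ = (l ^ (99 / 100 : ℝ)) ^ (j + 1) := by
          rw [← Real.rpow_add hl0]
          norm_num
  calc ‖Fk χ j (sp l t)‖ = ‖(Fk χ j (sp l t) - Fk (chy χ (PP l)) j (sp l t)) +
        Fk (chy χ (PP l)) j (sp l t)‖ := by rw [sub_add_cancel]
    _ ≤ ‖Fk χ j (sp l t) - Fk (chy χ (PP l)) j (sp l t)‖ +
        ‖Fk (chy χ (PP l)) j (sp l t)‖ := norm_add_le _ _
    _ ≤ 2 * (l ^ (99 / 100 : ℝ)) ^ (j + 1) := by linarith

end Pool.Agent.CH.P
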