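import Pool.Agent.Lib.MP_d610d0_nt.CH.P.Stm

set_option autoImplicit false

/-!
Piece Lb.
-/

namespace Pool.Agent.CH.P

open Finset Filter
open ArithmeticFunction (vonMangoldt)
open Pool.Agent.MP89da58 (tri)
open Pool.Agent.MP89da58.S (Lj aL Fk)
open Pool.Agent.BVall (OmL psiG aZ)
open Pool.Agent.CH.V (pz I_V)

lemma Lb_L {N : ℕ} [NeZero N] {s : ℂ} (hs : 1 < s.re) :
    LSeries (fun n => (1 : DirichletCharacter ℂ N) n) s =
      (∏ p ∈ N.primeFactors, (1 - (p : ℂ) ^ (-s))) * riemannZeta s := by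
  rw [← DirichletCharacter.LFunction_eq_LSeries 1 hs]
  exact DirichletCharacter.LFunctionTrivChar_eq_mul_riemannZeta (by rintro rfl; simp at hs)

lemma Lb_fac {p : ℕ} (hp : p.Prime) {σ : ℝ} (hσ : 0 < σ) :
    ‖1 - (p : ℂ) ^ (-(σ : ℂ))‖ ≤ Real.exp (-((p : ℝ) ^ (-σ))) := by
  have hp1 : (1 : ℝ) < p := by exact_mod_cast hp.one_lt
  have e1 : (p : ℂ) ^ (-(σ : ℂ)) = (((p : ℝ) ^ (-σ) : ℝ) : ℂ) := by
    rw [Complex.ofReal_cpow (by linarith)]
    push_cast
    rfl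
  have h2 : (p : ℝ) ^ (-σ) ≤ 1 := Real.rpow_le_one_of_one_le_of_nonpos hp1.le (by linarith)
  rw [e1, ← Complex.ofReal_one, ← Complex.ofReal_sub, Complex.norm_real,
    Real.norm_of_nonneg (by linarith)]
  have := Real.add_one_le_exp (-((p : ℝ) ^ (-σ)))
  linarith

lemma Lb_prod {N : ℕ} {S : Finset ℕ} (hS : S ⊆ N.primeFactors) {σ : ℝ} (hσ : 0 < σ) :
    ‖∏ p ∈ N.primeFactors, (1 - (p : ℂ) ^ (-(σ : ℂ)))‖ ≤
      Real.exp (-∑ p ∈ S, (p : ℝ) ^ (-σ)) := by
  rw [norm_prod]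
  calc ∏ p ∈ N.primeFactors, ‖1 - (p : ℂ) ^ (-(σ : ℂ))‖
      ≤ ∏ p ∈ N.primeFactors, Real.exp (-((p : ℝ) ^ (-σ))) := by
        apply Finset.prod_le_prod
        · intro p _
          exact norm_nonneg _
        · intro p hp
          exact Lb_fac (Nat.prime_of_mem_primeFactors hp) hσ
    _ = Real.exp (-∑ p ∈ N.primeFactors, (p : ℝ) ^ (-σ)) := by
        rw [← Real.exp_sum, Finset.sum_neg_distrib]
    _ ≤ _ := by
        apply Real.exp_le_exp.2
        rw [neg_le_neg_iff]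
        apply Finset.sum_le_sum_of_subset_of_nonneg hS
        intro p _ _
        exact Real.rpow_nonneg (Nat.cast_nonneg p) _

lemma Lb_floor {x : ℝ} (hx : 2 ≤ x) : x / 2 ≤ Real.log ⌊Real.exp x⌋₊ ∧
    Real.log ⌊Real.exp x⌋₊ ≤ x ∧ 2 ≤ ⌊Real.exp x⌋₊ := by
  have h1 : 2 ≤ Real.exp x := by
    have := Real.add_one_le_exp x
    linarith
  have h2 : 2 ≤ ⌊Real.exp x⌋₊ := Nat.le_floor (by exact_mod_cast h1)
  have h3 : (⌊Real.exp x⌋₊ : ℝ) ≤ Real.exp x := Nat.floor_le (Real.exp_pos x).le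
  have h4 : Real.exp x < ⌊Real.exp x⌋₊ + 1 := Nat.lt_floor_add_one _
  have h5 : (2 : ℝ) ≤ (⌊Real.exp x⌋₊ : ℝ) := by exact_mod_cast h2
  refine ⟨?_, ?_, h2⟩
  · have h6 : Real.exp (x / 2) ≤ (⌊Real.exp x⌋₊ : ℝ) := by
      have h7 : Real.exp x = Real.exp (x / 2) * Real.exp (x / 2) := by
        rw [← Real.exp_add]; congr 1; ring
      have h8 : 2 ≤ Real.exp (x / 2) := by
        have := Real.add_one_le_exp (x / 2)
        linarith
      nlinarith
    calc x / 2 = Real.log (Real.exp (x / 2)) := (Real.log_exp _).symm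
      _ ≤ _ := Real.log_le_log (Real.exp_pos _) h6
  · calc Real.log ⌊Real.exp x⌋₊ ≤ Real.log (Real.exp x) := Real.log_le_log (by linarith) h3
      _ = x := Real.log_exp x

/-- The sifted zeta function at `1 + 1/m`. -/
lemma Lb_zeta (hmer : R_mer2) : ∃ C : ℝ, 1 ≤ C ∧ ∀ᶠ l : ℝ in atTop, ∀ r : ℕ, 1 ≤ r → ∀ m : ℝ,
    l ^ (905 / 1000 : ℝ) ≤ m →
    ‖LSeries (fun n => (1 : DirichletCharacter ℂ (r * PP l)) n) ((1 + 1 / m : ℝ) : ℂ)‖
      ≤ C * (m * l ^ (-(8995 / 10000) : ℝ)) := by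
  obtain ⟨C, hC⟩ := hmer
  obtain ⟨C1, hC11, hC1⟩ := Pool.Agent.MP89da58.S.Lj_trivial 0
  refine ⟨C1, hC11, ?_⟩
  have hlog2 : 0 < Real.log 2 := Real.log_pos (by norm_num)
  have hlog2' : Real.log 2 ≤ 1 := by
    have := Real.log_two_lt_d9
    linarith
  filter_upwards [eventually_ge_atTop 1,
    (tendsto_rpow_atTop (show (0 : ℝ) < 9 / 10 by norm_num)).eventually_ge_atTop 2,
    (tendsto_rpow_atTop (show (0 : ℝ) < 5 / 1000 by norm_num)).eventually_ge_atTop 10000,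
    Real.tendsto_log_atTop.eventually_ge_atTop (10000 * (Real.log 2 + C / Real.log 2))]
    with l hl1 hl2 hl3 hl5
  intro r hr m hm
  have hl0 : 0 < l := by linarith
  set x : ℝ := l ^ (9 / 10 : ℝ) with hx
  have hx0 : 0 < x := by linarith
  have hm1 : 1 ≤ m := (Real.one_le_rpow hl1 (by norm_num)).trans hm
  have hm0 : 0 < m := by linarith
  obtain ⟨hY1, hY2, hY3⟩ := Lb_floor hl2
  set Y : ℕ := ⌊Real.exp x⌋₊ with hY
  have hPP : PP l = primorial Y := rfl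
  have hN0 : r * PP l ≠ 0 := by
    rw [hPP]
    exact Nat.mul_ne_zero (by omega) (primorial_ne_zero Y)
  have : NeZero (r * PP l) := ⟨hN0⟩
  set σ : ℝ := 1 + 1 / m with hσ
  have hinv : 0 < 1 / m := by positivity
  have hinv1 : 1 / m ≤ 1 := by rw [div_le_one hm0]; exact hm1
  have hσ0 : 0 < σ := by rw [hσ]; linarith
  have hσre : ((σ : ℝ) : ℂ).re = σ := Complex.ofReal_re σ
  have hσ1 : 1 < ((σ : ℝ) : ℂ).re := by rw [hσre, hσ]; linarith
  rw [Lb_L hσ1, norm_mul]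
  -- zeta
  have hz : ‖riemannZeta ((σ : ℝ) : ℂ)‖ ≤ C1 * m := by
    have h1 := hC1 (fun _ => 1) (fun _ => by simp) ((σ : ℝ) : ℂ) hσ1
      (by rw [hσre, hσ]; linarith)
    rw [Pool.Agent.MP89da58.S.Lj_zero_eq] at h1
    have h2 : LSeries (fun _ => (1 : ℂ)) ((σ : ℝ) : ℂ) = riemannZeta ((σ : ℝ) : ℂ) :=
      LSeries_one_eq_riemannZeta hσ1
    rw [h2, hσre] at h1
    have h3 : C1 / (σ - 1) ^ (0 + 1) = C1 * m := by
      rw [hσ, zero_add, pow_one, add_sub_cancel_left, div_div_eq_mul_div, div_one]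
    rw [h3] at h1
    exact h1
  -- the product
  set S : Finset ℕ := (Ioc 2 Y).filter Nat.Prime with hS
  have hSsub : S ⊆ (r * PP l).primeFactors := by
    intro p hp
    rw [hS, Finset.mem_filter, Finset.mem_Ioc] at hp
    rw [Nat.mem_primeFactors]
    refine ⟨hp.2, ?_, hN0⟩
    rw [hPP]
    exact (hp.2.dvd_primorial_iff.2 hp.1.2).mul_left r
  have hprod := Lb_prod hSsub hσ0
  -- the sum
  have hsum1 : (1 - x / m) * ∑ p ∈ S, (1 : ℝ) / p ≤ ∑ p ∈ S, (p : ℝ) ^ (-σ) := by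
    rw [Finset.mul_sum]
    apply Finset.sum_le_sum
    intro p hp
    rw [hS, Finset.mem_filter, Finset.mem_Ioc] at hp
    have hp0 : (0 : ℝ) < p := by exact_mod_cast hp.2.pos
    have e1 : (p : ℝ) ^ (-σ) = (p : ℝ) ^ (-(1 / m)) * (1 / p) := by
      rw [hσ, neg_add, add_comm, Real.rpow_add hp0, Real.rpow_neg_one, one_div (p : ℝ)]
    rw [e1]
    apply mul_le_mul_of_nonneg_right _ (by positivity)
    rw [Real.rpow_def_of_pos hp0]
    have h1 := Real.add_one_le_exp (Real.log p * -(1 / m))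
    have h2 : Real.log p ≤ x := by
      refine le_trans ?_ hY2
      apply Real.log_le_log hp0
      exact_mod_cast hp.1.2
    have h3 : Real.log p * (1 / m) ≤ x / m := by
      rw [mul_one_div]
      exact div_le_div_of_nonneg_right h2 hm0.le
    linarith
  have hmer := (abs_le.1 (hC 2 Y le_rfl hY3)).1
  have hlogY : Real.log x - Real.log 2 ≤ Real.log (Real.log Y / Real.log ((2 : ℕ) : ℝ)) := by
    have h1 : x / 2 ≤ Real.log Y / Real.log ((2 : ℕ) : ℝ) := by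
      rw [Nat.cast_ofNat, le_div_iff₀ hlog2]
      nlinarith
    rw [← Real.log_div (by positivity) (by norm_num)]
    exact Real.log_le_log (by positivity) h1
  have hlogx : Real.log x = 9 / 10 * Real.log l := by
    rw [hx, Real.log_rpow hl0]
  have hδ : x / m ≤ 1 / 10000 := by
    have e1 : l ^ (905 / 1000 : ℝ) = x * l ^ (5 / 1000 : ℝ) := by
      rw [hx, ← Real.rpow_add hl0]
      norm_num
    rw [div_le_iff₀ hm0]
    nlinarith
  have hδ0 : 0 ≤ x / m := by positivity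
  have hSig : (8999 / 10000) * Real.log l ≤ ∑ p ∈ S, (1 : ℝ) / p := by
    rw [Nat.cast_ofNat] at hmer hlogY
    rw [hlogx] at hlogY
    have h1 : Real.log 2 + C / Real.log 2 ≤ 1 / 10000 * Real.log l := by linarith
    linarith
  have hlogl : 0 ≤ Real.log l := Real.log_nonneg hl1
  have hfin : (8995 / 10000) * Real.log l ≤ ∑ p ∈ S, (p : ℝ) ^ (-σ) := by
    refine le_trans ?_ hsum1
    have h1 : (1 - 1 / 10000) * ((8999 / 10000) * Real.log l) ≤
        (1 - x / m) * ∑ p ∈ S, (1 : ℝ) / p := by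
      apply mul_le_mul (by linarith) hSig (by positivity) (by linarith)
    nlinarith
  calc ‖∏ p ∈ (r * PP l).primeFactors, (1 - (p : ℂ) ^ (-((σ : ℝ) : ℂ)))‖ *
        ‖riemannZeta ((σ : ℝ) : ℂ)‖
      ≤ Real.exp (-((8995 / 10000) * Real.log l)) * (C1 * m) := by
        apply mul_le_mul _ hz (norm_nonneg _) (Real.exp_pos _).le
        refine hprod.trans (Real.exp_le_exp.2 (by linarith))
    _ = C1 * (m * l ^ (-(8995 / 10000) : ℝ)) := by
        have e1 : Real.exp (-((8995 / 10000) * Real.log l)) = l ^ (-(8995 / 10000) : ℝ) := by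
          rw [Real.rpow_def_of_pos hl0]
          congr 1
          ring
        rw [e1]
        ring

lemma Lb_pz (t x : ℝ) : ‖pz t x‖ = 1 := by
  unfold pz
  rw [Complex.norm_exp]
  simp

lemma Lb_term (c : ℕ → ℂ) (i : ℕ) (l t : ℝ) {n : ℕ} (hn : n ≠ 0) :
    LSeries.term (fun n => ((Real.log n : ℝ) : ℂ) ^ i * c n) (sp l t) n =
      (c n * pz t n) * (((Real.log n) ^ i * (n : ℝ) ^ (-(1 + 1 / l)) : ℝ) : ℂ) := by
  have hn0 : (0 : ℝ) < n := by positivity
  have hnc : (n : ℂ) ≠ 0 := by exact_mod_cast hn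
  rw [LSeries.term_of_ne_zero hn, div_eq_mul_inv, ← Complex.cpow_neg]
  have e1 : (n : ℂ) ^ (-(sp l t)) = pz t n * (((n : ℝ) ^ (-(1 + 1 / l)) : ℝ) : ℂ) := by
    rw [Complex.cpow_def_of_ne_zero hnc, ← Complex.natCast_log, Real.rpow_def_of_pos hn0]
    unfold pz sp
    rw [Complex.ofReal_exp, ← Complex.exp_add]
    congr 1
    push_cast
    ring
  rw [e1]
  push_cast
  ring

lemma Lb_nterm (c : ℕ → ℂ) (i : ℕ) (l t : ℝ) {n : ℕ} (hn : n ≠ 0) :
    ‖LSeries.term (fun n => ((Real.log n : ℝ) : ℂ) ^ i * c n) (sp l t) n‖ =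
      ‖c n‖ * ((Real.log n) ^ i * (n : ℝ) ^ (-(1 + 1 / l))) := by
  rw [Lb_term c i l t hn, norm_mul, norm_mul, Lb_pz, mul_one, Complex.norm_real,
    Real.norm_of_nonneg]
  have : 0 ≤ Real.log n := Real.log_nonneg (by exact_mod_cast Nat.one_le_iff_ne_zero.2 hn)
  positivity

lemma Lb_real (F : ℕ → ℂ) (hF : ∀ n, F n = ((‖F n‖ : ℝ) : ℂ)) (σ : ℝ) :
    ∑' n, ‖LSeries.term F (σ : ℂ) n‖ = ‖LSeries F (σ : ℂ)‖ := by
  have e : ∀ n, LSeries.term F (σ : ℂ) n = ((‖LSeries.term F (σ : ℂ) n‖ : ℝ) : ℂ) := by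
    intro n
    rcases eq_or_ne n 0 with rfl | hn
    · simp
    · rw [LSeries.term_of_ne_zero hn]
      have e1 : (n : ℂ) ^ (σ : ℂ) = (((n : ℝ) ^ σ : ℝ) : ℂ) := by
        rw [Complex.ofReal_cpow (Nat.cast_nonneg n)]
        push_cast
        rfl
      rw [e1, norm_div, Complex.norm_real, Real.norm_of_nonneg (by positivity)]
      rw [Complex.ofReal_div, ← hF n]
  unfold LSeries
  rw [tsum_congr e, ← Complex.ofReal_tsum, Complex.norm_real, Real.norm_of_nonneg]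
  exact tsum_nonneg fun n => norm_nonneg _

lemma Lb_abel (a : ℕ → ℂ) (g : ℕ → ℝ) (M N : ℕ) (h : M ≤ N) :
    ∑ n ∈ Ioc M N, a n * (g n : ℂ) =
      (∑ n ∈ Icc 1 N, a n) * (g N : ℂ) - (∑ n ∈ Icc 1 M, a n) * (g M : ℂ) +
      ∑ n ∈ Ico M N, (∑ m ∈ Icc 1 n, a m) * ((g n : ℂ) - (g (n + 1) : ℂ)) := by
  induction N, h using Nat.le_induction with
  | base => simp
  | succ N hMN ih =>
    rw [Finset.sum_Ioc_succ_top (by omega), ih, Finset.sum_Ico_succ_top hMN,
      Finset.sum_Icc_succ_top (by omega)]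
    ring

lemma Lb_tel (F : ℕ → ℝ) (M N : ℕ) (h : M ≤ N) :
    ∑ n ∈ Ico M N, (F (n + 1) - F n) = F N - F M := by
  induction N, h using Nat.le_induction with
  | base => simp
  | succ N hMN ih =>
    rw [Finset.sum_Ico_succ_top hMN, ih]
    ring

lemma Lb_abel_le (a : ℕ → ℂ) (i : ℕ) (σ ε : ℝ) (hσ : 1 < σ) (hε : 0 ≤ ε) (M N : ℕ) (hM : 1 ≤ M)
    (hMN : M ≤ N) (hR : ∀ n, M ≤ n → n ≤ N → ‖∑ m ∈ Icc 1 n, a m‖ ≤ ε * n) :
    ‖∑ n ∈ Ioc M N, a n * (((Real.log n) ^ i * (n : ℝ) ^ (-σ) : ℝ) : ℂ)‖ ≤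
      ε * ((Real.log N) ^ i * (4 + Real.log N)) := by
  set g : ℕ → ℝ := fun n => (Real.log n) ^ i * (n : ℝ) ^ (-σ) with hg
  set L : ℝ := Real.log N with hL
  have hN1 : (1 : ℝ) ≤ N := by exact_mod_cast hM.trans hMN
  have hL0 : 0 ≤ L := Real.log_nonneg hN1
  have hlog : ∀ n : ℕ, M ≤ n → n ≤ N → 0 ≤ Real.log n ∧ Real.log n ≤ L := by
    intro n h1 h2
    have h3 : (1 : ℝ) ≤ n := by exact_mod_cast hM.trans h1
    exact ⟨Real.log_nonneg h3, Real.log_le_log (by linarith) (by exact_mod_cast h2)⟩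
  have hnu : ∀ n : ℕ, M ≤ n → (n : ℝ) * (n : ℝ) ^ (-σ) ≤ 1 := by
    intro n h1
    have h3 : (1 : ℝ) ≤ n := by exact_mod_cast hM.trans h1
    have e : (n : ℝ) * (n : ℝ) ^ (-σ) = (n : ℝ) ^ (1 - σ) := by
      rw [sub_eq_add_neg, Real.rpow_add (by linarith), Real.rpow_one]
    rw [e]
    exact Real.rpow_le_one_of_one_le_of_nonpos h3 (by linarith)
  have hg0 : ∀ n : ℕ, M ≤ n → n ≤ N → 0 ≤ g n := by
    intro n h1 h2
    have := (hlog n h1 h2).1
    simp only [hg]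
    positivity
  have hng : ∀ n : ℕ, M ≤ n → n ≤ N → (n : ℝ) * g n ≤ L ^ i := by
    intro n h1 h2
    have h3 := hlog n h1 h2
    have h4 : (Real.log n) ^ i ≤ L ^ i := pow_le_pow_left₀ h3.1 h3.2 i
    have h5 : 0 ≤ (Real.log n) ^ i := pow_nonneg h3.1 i
    have h6 := hnu n h1
    calc (n : ℝ) * g n = (Real.log n) ^ i * ((n : ℝ) * (n : ℝ) ^ (-σ)) := by
          simp only [hg]; ring
      _ ≤ (Real.log n) ^ i * 1 := mul_le_mul_of_nonneg_left h6 h5
      _ ≤ L ^ i := by linarith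
  set F : ℕ → ℝ := fun n => L ^ i * Real.log n + (Real.log n) ^ i - L ^ i * ((n : ℝ) * (n : ℝ) ^ (-σ))
    with hF
  have key : ∀ n ∈ Ico M N, (n : ℝ) * |g n - g (n + 1)| ≤ F (n + 1) - F n := by
    intro n hn
    rw [Finset.mem_Ico] at hn
    have h3 : (1 : ℝ) ≤ n := by exact_mod_cast hM.trans hn.1
    have hn0 : (0 : ℝ) < n := by linarith
    have hc : ((n + 1 : ℕ) : ℝ) = (n : ℝ) + 1 := by push_cast; ring
    have l1 := hlog n hn.1 (by omega)
    have l2 := hlog (n + 1) (by omega) (by omega)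
    have l3 : Real.log n ≤ Real.log ((n + 1 : ℕ) : ℝ) := Real.log_le_log hn0 (by rw [hc]; linarith)
    set u : ℝ := (n : ℝ) ^ (-σ) with hu
    set u' : ℝ := ((n + 1 : ℕ) : ℝ) ^ (-σ) with hu'
    set v : ℝ := (Real.log n) ^ i with hv
    set v' : ℝ := (Real.log ((n + 1 : ℕ) : ℝ)) ^ i with hv'
    have huu : u' ≤ u := by
      rw [hu, hu']
      apply Real.rpow_le_rpow_of_nonpos hn0 (by rw [hc]; linarith) (by linarith)
    have hvv : v ≤ v' := pow_le_pow_left₀ l1.1 l3 i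
    have hvL : v' ≤ L ^ i := pow_le_pow_left₀ l2.1 l2.2 i
    have hv0 : 0 ≤ v := pow_nonneg l1.1 i
    have hu0 : 0 ≤ u := Real.rpow_nonneg hn0.le _
    have hu'0 : 0 ≤ u' := Real.rpow_nonneg (by rw [hc]; linarith) _
    have hnu' := hnu n hn.1
    rw [← hu] at hnu'
    have hinv : u' ≤ Real.log ((n + 1 : ℕ) : ℝ) - Real.log n := by
      have h4 : u' ≤ ((n : ℝ) + 1)⁻¹ := by
        rw [hu', hc, ← Real.rpow_neg_one]
        exact Real.rpow_le_rpow_of_exponent_le (by linarith) (by linarith)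
      have h5 := Real.one_sub_inv_le_log_of_pos (show 0 < ((n : ℝ) + 1) / n by positivity)
      rw [Real.log_div (by linarith) hn0.ne', inv_div] at h5
      have h6 : 1 - (n : ℝ) / (n + 1) = ((n : ℝ) + 1)⁻¹ := by
        field_simp
        ring
      rw [h6] at h5
      rw [hc]
      linarith
    have habs : |g n - g (n + 1)| ≤ (v' - v) * u + v' * (u - u') := by
      have e1 : g n - g (n + 1) = v * u - v' * u' := rfl
      rw [e1, abs_le]
      have h7 : 0 ≤ (v' - v) * u := mul_nonneg (by linarith) hu0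
      have h8 : 0 ≤ v' * (u - u') := mul_nonneg (by linarith) (by linarith)
      constructor <;> nlinarith
    have e2 : F (n + 1) - F n = L ^ i * (Real.log ((n + 1 : ℕ) : ℝ) - Real.log n) + (v' - v) +
        L ^ i * ((n : ℝ) * u - ((n : ℝ) + 1) * u') := by
      simp only [hF]
      rw [← hu, ← hu', ← hv, ← hv', hc]
      ring
    rw [e2]
    have h9 : (n : ℝ) * |g n - g (n + 1)| ≤ (v' - v) * ((n : ℝ) * u) +
        v' * ((n : ℝ) * (u - u')) := by
      calc (n : ℝ) * |g n - g (n + 1)| ≤ n * ((v' - v) * u + v' * (u - u')) :=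
            mul_le_mul_of_nonneg_left habs hn0.le
        _ = _ := by ring
    have h10 : (v' - v) * ((n : ℝ) * u) ≤ (v' - v) * 1 :=
      mul_le_mul_of_nonneg_left hnu' (by linarith)
    have h11 : v' * ((n : ℝ) * (u - u')) ≤ L ^ i * ((n : ℝ) * (u - u')) :=
      mul_le_mul_of_nonneg_right hvL (mul_nonneg hn0.le (by linarith))
    have hLi : 0 ≤ L ^ i := pow_nonneg hL0 i
    have h12 : L ^ i * u' ≤ L ^ i * (Real.log ((n + 1 : ℕ) : ℝ) - Real.log n) :=
      mul_le_mul_of_nonneg_left hinv hLi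
    nlinarith
  have hsum : ∑ n ∈ Ico M N, (n : ℝ) * |g n - g (n + 1)| ≤ L ^ i * (2 + L) := by
    refine (Finset.sum_le_sum key).trans ?_
    rw [Lb_tel F M N hMN]
    simp only [hF]
    have h1 := hlog M le_rfl hMN
    have h2 := hnu M le_rfl
    have hLi : 0 ≤ L ^ i := pow_nonneg hL0 i
    have h3 : 0 ≤ (Real.log M) ^ i := pow_nonneg h1.1 i
    have h4 : 0 ≤ (N : ℝ) * (N : ℝ) ^ (-σ) := by positivity
    have h5 : L ^ i * ((M : ℝ) * (M : ℝ) ^ (-σ)) ≤ L ^ i * 1 := mul_le_mul_of_nonneg_left h2 hLi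
    have h6 : 0 ≤ L ^ i * ((N : ℝ) * (N : ℝ) ^ (-σ)) := mul_nonneg hLi h4
    have h7 : 0 ≤ L ^ i * Real.log M := mul_nonneg hLi h1.1
    rw [← hL]
    linarith
  rw [Lb_abel a g M N hMN]
  have b1 : ‖(∑ n ∈ Icc 1 N, a n) * (g N : ℂ)‖ ≤ ε * L ^ i := by
    rw [norm_mul, Complex.norm_real, Real.norm_of_nonneg (hg0 N hMN le_rfl)]
    calc _ ≤ (ε * N) * g N := mul_le_mul_of_nonneg_right (hR N hMN le_rfl) (hg0 N hMN le_rfl)
      _ = ε * (N * g N) := by ring
      _ ≤ _ := mul_le_mul_of_nonneg_left (hng N hMN le_rfl) hε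
  have b2 : ‖(∑ n ∈ Icc 1 M, a n) * (g M : ℂ)‖ ≤ ε * L ^ i := by
    rw [norm_mul, Complex.norm_real, Real.norm_of_nonneg (hg0 M le_rfl hMN)]
    calc _ ≤ (ε * M) * g M := mul_le_mul_of_nonneg_right (hR M le_rfl hMN) (hg0 M le_rfl hMN)
      _ = ε * (M * g M) := by ring
      _ ≤ _ := mul_le_mul_of_nonneg_left (hng M le_rfl hMN) hε
  have b3 : ‖∑ n ∈ Ico M N, (∑ m ∈ Icc 1 n, a m) * ((g n : ℂ) - (g (n + 1) : ℂ))‖ ≤
      ε * (L ^ i * (2 + L)) := by
    refine (norm_sum_le _ _).trans ?_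
    calc _ ≤ ∑ n ∈ Ico M N, ε * ((n : ℝ) * |g n - g (n + 1)|) := by
          apply Finset.sum_le_sum
          intro n hn
          rw [Finset.mem_Ico] at hn
          rw [norm_mul, ← Complex.ofReal_sub, Complex.norm_real, Real.norm_eq_abs, ← mul_assoc]
          exact mul_le_mul_of_nonneg_right (hR n hn.1 hn.2.le) (abs_nonneg _)
      _ = ε * ∑ n ∈ Ico M N, (n : ℝ) * |g n - g (n + 1)| := by rw [Finset.mul_sum]
      _ ≤ _ := mul_le_mul_of_nonneg_left hsum hε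
  calc _ ≤ ‖(∑ n ∈ Icc 1 N, a n) * (g N : ℂ) - (∑ n ∈ Icc 1 M, a n) * (g M : ℂ)‖ +
        ‖∑ n ∈ Ico M N, (∑ m ∈ Icc 1 n, a m) * ((g n : ℂ) - (g (n + 1) : ℂ))‖ := norm_add_le _ _
    _ ≤ (ε * L ^ i + ε * L ^ i) + ε * (L ^ i * (2 + L)) :=
        add_le_add ((norm_sub_le _ _).trans (add_le_add b1 b2)) b3
    _ = _ := by ring

lemma Lb_tail (i : ℕ) : ∃ C : ℝ, 1 ≤ C ∧ ∀ (c : ℕ → ℂ), (∀ n, ‖c n‖ ≤ 1) → ∀ (l t x : ℝ) (N : ℕ),
    1 ≤ l → Real.exp x ≤ N + 1 →
    ‖∑' n : ℕ, LSeries.term (fun n => ((Real.log n : ℝ) : ℂ) ^ i * c n) (sp l t) (n + (N + 1))‖ ≤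
      Real.exp (-(x / (2 * l))) * (C * (2 * l) ^ (i + 1)) := by
  obtain ⟨C, hC1, hC⟩ := Pool.Agent.MP89da58.S.Lj_trivial i
  refine ⟨C, hC1, ?_⟩
  intro c hc l t x N hl hx
  have hl0 : 0 < l := by linarith
  set σ : ℝ := 1 + 1 / (2 * l) with hσ
  have hinv : 0 < 1 / (2 * l) := by positivity
  have hinv1 : 1 / (2 * l) ≤ 1 := by rw [div_le_one (by positivity)]; linarith
  have hre : ((σ : ℝ) : ℂ).re = σ := Complex.ofReal_re σ
  have hσ1 : 1 < ((σ : ℝ) : ℂ).re := by rw [hre, hσ]; linarith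
  set F : ℕ → ℂ := fun n => ((Real.log n : ℝ) : ℂ) ^ i * 1 with hF
  have hFn : ∀ n, F n = ((‖F n‖ : ℝ) : ℂ) := by
    intro n
    have h0 : 0 ≤ Real.log n := Real.log_natCast_nonneg n
    simp only [hF]
    rw [mul_one, norm_pow, Complex.norm_real, Real.norm_of_nonneg h0]
    push_cast
    rfl
  have hsm : Summable (fun n => ‖LSeries.term F ((σ : ℝ) : ℂ) n‖) :=
    (Pool.Agent.MP89da58.S.summable_Lj (a := fun _ => (1 : ℂ)) (fun _ => by simp) i hσ1).norm
  have htot : ∑' n, ‖LSeries.term F ((σ : ℝ) : ℂ) n‖ ≤ C * (2 * l) ^ (i + 1) := by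
    rw [Lb_real F hFn σ]
    have h1 := hC (fun _ => 1) (fun _ => by simp) ((σ : ℝ) : ℂ) hσ1 (by rw [hre, hσ]; linarith)
    rw [hre] at h1
    have h2 : C / (σ - 1) ^ (i + 1) = C * (2 * l) ^ (i + 1) := by
      rw [hσ, add_sub_cancel_left, one_div, inv_pow, div_inv_eq_mul]
    rw [h2] at h1
    exact h1
  have hsm' : Summable (fun n : ℕ => ‖LSeries.term F ((σ : ℝ) : ℂ) (n + (N + 1))‖) :=
    hsm.comp_injective (add_left_injective (N + 1))
  have htot' : ∑' n : ℕ, ‖LSeries.term F ((σ : ℝ) : ℂ) (n + (N + 1))‖ ≤ C * (2 * l) ^ (i + 1) := by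
    refine le_trans ?_ htot
    rw [← hsm.sum_add_tsum_nat_add (N + 1)]
    have : 0 ≤ ∑ n ∈ range (N + 1), ‖LSeries.term F ((σ : ℝ) : ℂ) n‖ :=
      Finset.sum_nonneg fun n _ => norm_nonneg _
    linarith
  have hbd : ∀ n : ℕ,
      ‖LSeries.term (fun n => ((Real.log n : ℝ) : ℂ) ^ i * c n) (sp l t) (n + (N + 1))‖ ≤
      Real.exp (-(x / (2 * l))) * ‖LSeries.term F ((σ : ℝ) : ℂ) (n + (N + 1))‖ := by
    intro n
    set m : ℕ := n + (N + 1) with hm
    have hm0 : m ≠ 0 := by omega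
    have hmr : (1 : ℝ) ≤ m := by exact_mod_cast Nat.one_le_iff_ne_zero.2 hm0
    have hmx : Real.exp x ≤ m := by
      refine hx.trans ?_
      exact_mod_cast (show N + 1 ≤ m by omega)
    have hxm : x ≤ Real.log m := by
      calc x = Real.log (Real.exp x) := (Real.log_exp x).symm
        _ ≤ Real.log m := Real.log_le_log (Real.exp_pos x) hmx
    have hlog0 : 0 ≤ Real.log m := Real.log_nonneg hmr
    rw [Lb_nterm c i l t hm0, LSeries.term_of_ne_zero hm0, norm_div]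
    have e1 : ‖(m : ℂ) ^ ((σ : ℝ) : ℂ)‖ = (m : ℝ) ^ σ := by
      rw [Complex.norm_natCast_cpow_of_pos (by omega), hre]
    have e2 : ‖F m‖ = (Real.log m) ^ i := by
      simp only [hF]
      rw [mul_one, norm_pow, Complex.norm_real, Real.norm_of_nonneg hlog0]
    rw [e1, e2]
    have e3 : (m : ℝ) ^ (-(1 + 1 / l)) = (m : ℝ) ^ (-(1 / (2 * l))) * ((m : ℝ) ^ σ)⁻¹ := by
      rw [← Real.rpow_neg (by linarith), ← Real.rpow_add (by linarith)]
      congr 1
      rw [hσ]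
      field_simp
      ring
    have e4 : (m : ℝ) ^ (-(1 / (2 * l))) ≤ Real.exp (-(x / (2 * l))) := by
      rw [Real.rpow_def_of_pos (by linarith)]
      apply Real.exp_le_exp.2
      rw [mul_neg, neg_le_neg_iff, mul_one_div]
      exact div_le_div_of_nonneg_right hxm (by positivity)
    rw [e3]
    have h5 : 0 ≤ ((m : ℝ) ^ σ)⁻¹ := by positivity
    have h6 : 0 ≤ (Real.log m) ^ i := pow_nonneg hlog0 i
    calc ‖c m‖ * ((Real.log m) ^ i * ((m : ℝ) ^ (-(1 / (2 * l))) * ((m : ℝ) ^ σ)⁻¹)) ≤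
          1 * ((Real.log m) ^ i * (Real.exp (-(x / (2 * l))) * ((m : ℝ) ^ σ)⁻¹)) := by
          apply mul_le_mul (hc m) _ (by positivity) (by norm_num)
          apply mul_le_mul_of_nonneg_left _ h6
          exact mul_le_mul_of_nonneg_right e4 h5
      _ = _ := by rw [div_eq_mul_inv]; ring
  refine (tsum_of_norm_bounded (hsm'.hasSum.mul_left _) hbd).trans ?_
  exact mul_le_mul_of_nonneg_left htot' (Real.exp_pos _).le

lemma Lb_part1 {M : ℕ} (ψ : DirichletCharacter ℂ M) (i : ℕ) {l : ℝ} (t : ℝ)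
    (hl : 0 < l) {Z : ℕ} (hZ : 2 ≤ Z) :
    ‖∑ n ∈ Icc 1 Z, LSeries.term (fun n => ((Real.log n : ℝ) : ℂ) ^ i * ψ n) (sp l t) n‖ ≤
      (Real.log Z) ^ i * (Real.exp 1 *
        ‖LSeries (fun n => (1 : DirichletCharacter ℂ M) n) ((1 + 1 / Real.log Z : ℝ) : ℂ)‖) := by
  set m : ℝ := Real.log Z with hm
  have hm0 : 0 < m := Real.log_pos (by exact_mod_cast hZ)
  set σ : ℝ := 1 + 1 / m with hσ
  have hre : ((σ : ℝ) : ℂ).re = σ := Complex.ofReal_re σ
  have hσ1 : 1 < ((σ : ℝ) : ℂ).re := by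
    rw [hre, hσ]
    have : 0 < 1 / m := by positivity
    linarith
  set F : ℕ → ℂ := fun n => (1 : DirichletCharacter ℂ M) n with hF
  have hF01 : ∀ n : ℕ, F n = ((‖F n‖ : ℝ) : ℂ) ∧ ‖ψ n‖ ≤ ‖F n‖ := by
    intro n
    simp only [hF]
    by_cases h : IsUnit (n : ZMod M)
    · rw [MulChar.one_apply h]
      refine ⟨by simp, ?_⟩
      rw [norm_one]
      exact DirichletCharacter.norm_le_one _ _
    · rw [MulChar.map_nonunit _ h, MulChar.map_nonunit _ h]
      simp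
  have hsm : Summable (fun n => ‖LSeries.term F ((σ : ℝ) : ℂ) n‖) := by
    have h1 := Pool.Agent.MP89da58.S.summable_Lj (a := F)
      (fun n => DirichletCharacter.norm_le_one _ _) 0 hσ1
    simp only [pow_zero, one_mul] at h1
    exact h1.norm
  calc ‖∑ n ∈ Icc 1 Z, LSeries.term (fun n => ((Real.log n : ℝ) : ℂ) ^ i * ψ n) (sp l t) n‖
      ≤ ∑ n ∈ Icc 1 Z, m ^ i * (Real.exp 1 * ‖LSeries.term F ((σ : ℝ) : ℂ) n‖) := by
        refine (norm_sum_le _ _).trans (Finset.sum_le_sum ?_)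
        intro n hn
        rw [Finset.mem_Icc] at hn
        have hn0 : n ≠ 0 := by omega
        have hn1 : (1 : ℝ) ≤ n := by exact_mod_cast hn.1
        have hnp : (0 : ℝ) < n := by linarith
        have hlog0 : 0 ≤ Real.log n := Real.log_nonneg hn1
        have hlogm : Real.log n ≤ m := Real.log_le_log hnp (by exact_mod_cast hn.2)
        rw [Lb_nterm _ i l t hn0, LSeries.term_of_ne_zero hn0, norm_div]
        have e1 : ‖(n : ℂ) ^ ((σ : ℝ) : ℂ)‖ = (n : ℝ) ^ σ := by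
          rw [Complex.norm_natCast_cpow_of_pos (by omega), hre]
        rw [e1]
        have e2 : (n : ℝ) ^ (-(1 + 1 / l)) ≤ Real.exp 1 * ((n : ℝ) ^ σ)⁻¹ := by
          have e3 : (n : ℝ) ^ (-(1 + 1 / l)) ≤ (n : ℝ) ^ (-1 : ℝ) := by
            apply Real.rpow_le_rpow_of_exponent_le hn1
            have : 0 < 1 / l := by positivity
            linarith
          have e4 : (n : ℝ) ^ (-1 : ℝ) = (n : ℝ) ^ (1 / m) * ((n : ℝ) ^ σ)⁻¹ := by
            rw [← Real.rpow_neg hnp.le, ← Real.rpow_add hnp]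
            congr 1
            rw [hσ]
            ring
          have e5 : (n : ℝ) ^ (1 / m) ≤ Real.exp 1 := by
            rw [Real.rpow_def_of_pos hnp]
            apply Real.exp_le_exp.2
            rw [mul_one_div, div_le_one hm0]
            exact hlogm
          refine e3.trans ?_
          rw [e4]
          exact mul_le_mul_of_nonneg_right e5 (by positivity)
        have e6 : (Real.log n) ^ i ≤ m ^ i := pow_le_pow_left₀ hlog0 hlogm i
        calc ‖ψ n‖ * ((Real.log n) ^ i * (n : ℝ) ^ (-(1 + 1 / l)))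
            ≤ ‖F n‖ * (m ^ i * (Real.exp 1 * ((n : ℝ) ^ σ)⁻¹)) := by
              apply mul_le_mul (hF01 n).2 _ (by positivity) (norm_nonneg _)
              exact mul_le_mul e6 e2 (by positivity) (by positivity)
          _ = _ := by rw [div_eq_mul_inv]; ring
    _ = m ^ i * (Real.exp 1 * ∑ n ∈ Icc 1 Z, ‖LSeries.term F ((σ : ℝ) : ℂ) n‖) := by
        rw [Finset.mul_sum, Finset.mul_sum]
    _ ≤ _ := by
        apply mul_le_mul_of_nonneg_left _ (by positivity)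
        apply mul_le_mul_of_nonneg_left _ (Real.exp_pos _).le
        rw [← Lb_real F (fun n => (hF01 n).1) σ]
        exact hsm.sum_le_tsum _ (fun n _ => norm_nonneg _)

theorem p_Lb : S_Lb := by
  intro hmer hrgh B k κ hκ
  obtain ⟨C2, hC21, hC2⟩ := Lb_zeta hmer
  choose Ct hCt1 hCt using Lb_tail
  set CT : ℝ := ∑ i ∈ range (k + 1), Ct i with hCT
  have hCTi : ∀ i ≤ k, Ct i ≤ CT := by
    intro i hi
    rw [hCT]
    apply Finset.single_le_sum (f := Ct) _ (Finset.mem_range.2 (by omega))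
    intro j _
    linarith [hCt1 j]
  have hCT0 : 0 ≤ CT := by linarith [hCTi 0 (Nat.zero_le k), hCt1 0]
  set C3 : ℝ := 2 ^ k * (Real.exp 1 * (C2 * 2)) with hC3
  refine ⟨2 * k + 6 + 5, ?_⟩
  filter_upwards [hC2, hrgh (2 * k + 6) B κ hκ, eventually_ge_atTop 2,
    (tendsto_rpow_atTop (show (0 : ℝ) < 1 / 10 by norm_num)).eventually_ge_atTop 2,
    (tendsto_rpow_atTop (show (0 : ℝ) < 5 / 10000 by norm_num)).eventually_ge_atTop (C3 + 2),
    (tendsto_rpow_atTop (show (0 : ℝ) < 1 / 10 by norm_num)).eventually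
      (Pool.Agent.BVall.ev_poly (CT * 2 ^ (k + 1)) (10 * (k + 1)) (show (0 : ℝ) < 1 / 2 by norm_num))]
    with l hz hr1 hl2 hl3 hl4 hl5
  intro r χ hr hrB t ht1 ht2 i hi
  have hl1 : 1 ≤ l := by linarith
  have hl0 : 0 < l := by linarith
  set x : ℝ := l ^ (905 / 1000 : ℝ) with hx
  have hx1 : 1 ≤ x := Real.one_le_rpow hl1 (by norm_num)
  have hxl : x ≤ l := by
    calc x ≤ l ^ (1 : ℝ) := Real.rpow_le_rpow_of_exponent_le hl1 (by norm_num)
      _ = l := Real.rpow_one l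
  set w : ℝ := l ^ (11 / 10 : ℝ) with hw
  have hwl : w = l * l ^ (1 / 10 : ℝ) := by
    rw [hw]
    nth_rewrite 2 [← Real.rpow_one l]
    rw [← Real.rpow_add hl0]
    norm_num
  have hw2 : 2 * l ≤ w := by
    rw [hwl]
    nlinarith
  have hwl2 : w ≤ l ^ 2 := by
    rw [← Real.rpow_natCast, hw]
    exact Real.rpow_le_rpow_of_exponent_le hl1 (by norm_num)
  set Z : ℕ := ⌊Real.exp x⌋₊ + 1 with hZ
  set Z2 : ℕ := ⌊Real.exp w⌋₊ with hZ2
  have hZlo : Real.exp x ≤ (Z : ℝ) := by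
    have := (Nat.lt_floor_add_one (Real.exp x)).le
    rw [hZ]
    push_cast
    exact this
  have hZup : (Z : ℝ) ≤ Real.exp (x + 1) := by
    have h1 : (⌊Real.exp x⌋₊ : ℝ) ≤ Real.exp x := Nat.floor_le (Real.exp_pos x).le
    have h2 : Real.exp (x + 1) = Real.exp x * Real.exp 1 := Real.exp_add x 1
    have h3 : 2 ≤ Real.exp 1 := by
      have := Real.add_one_le_exp (1 : ℝ)
      linarith
    have h4 : 1 ≤ Real.exp x := Real.one_le_exp (by linarith)
    rw [h2, hZ]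
    push_cast
    nlinarith
  have hZ0 : (0 : ℝ) < Z := lt_of_lt_of_le (Real.exp_pos x) hZlo
  have hlogZ1 : x ≤ Real.log Z := by
    calc x = Real.log (Real.exp x) := (Real.log_exp x).symm
      _ ≤ _ := Real.log_le_log (Real.exp_pos x) hZlo
  have hlogZ2 : Real.log Z ≤ 2 * x := by
    calc Real.log Z ≤ Real.log (Real.exp (x + 1)) := Real.log_le_log hZ0 hZup
      _ = x + 1 := Real.log_exp _
      _ ≤ 2 * x := by linarith
  have hZge : 2 ≤ Z := by
    have h1 : (1 : ℝ) ≤ Real.exp x := Real.one_le_exp (by linarith)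
    have h2 : 1 ≤ ⌊Real.exp x⌋₊ := Nat.le_floor (by exact_mod_cast h1)
    omega
  have hZZ : Z ≤ Z2 := by
    rw [hZ2]
    apply Nat.le_floor
    refine hZup.trans (Real.exp_le_exp.2 (by linarith))
  have hZ2up : (Z2 : ℝ) ≤ Real.exp w := Nat.floor_le (Real.exp_pos w).le
  have hZ2lo : Real.exp w ≤ (Z2 : ℝ) + 1 := (Nat.lt_floor_add_one (Real.exp w)).le
  have hZ20 : (0 : ℝ) < Z2 := lt_of_lt_of_le hZ0 (by exact_mod_cast hZZ)
  have hlogZ2w : Real.log Z2 ≤ w := by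
    calc Real.log Z2 ≤ Real.log (Real.exp w) := Real.log_le_log hZ20 hZ2up
      _ = w := Real.log_exp w
  set c : ℕ → ℂ := fun n => chy χ (PP l) n with hc
  have hc1 : ∀ n, ‖c n‖ ≤ 1 := fun n => DirichletCharacter.norm_le_one _ _
  set f : ℕ → ℂ := fun n => LSeries.term (fun n => ((Real.log n : ℝ) : ℂ) ^ i * c n) (sp l t) n
    with hf
  have hsre : 1 < (sp l t).re := by
    unfold sp
    rw [Complex.add_re, Complex.ofReal_re]
    have : 0 < 1 / l := by positivity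
    simp
    linarith
  have hsum : Summable f := Pool.Agent.MP89da58.S.summable_Lj hc1 i hsre
  have hsplit : Lj c i (sp l t) =
      ∑ n ∈ Icc 1 Z, f n + ∑ n ∈ Ioc Z Z2, f n + ∑' n : ℕ, f (n + (Z2 + 1)) := by
    have e0 : Lj c i (sp l t) = ∑' n, f n := rfl
    rw [e0, ← hsum.sum_add_tsum_nat_add (Z2 + 1)]
    congr 1
    have e1 : Icc 1 Z ∪ Ioc Z Z2 ⊆ range (Z2 + 1) := by
      intro n hn
      rw [Finset.mem_union, Finset.mem_Icc, Finset.mem_Ioc] at hn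
      rw [Finset.mem_range]
      omega
    rw [← Finset.sum_union, ← Finset.sum_subset e1]
    · intro n hn hn'
      rw [Finset.mem_range] at hn
      rw [Finset.mem_union, Finset.mem_Icc, Finset.mem_Ioc] at hn'
      have : n = 0 := by omega
      subst this
      simp [hf]
    · rw [Finset.disjoint_left]
      intro n hn hn'
      rw [Finset.mem_Icc] at hn
      rw [Finset.mem_Ioc] at hn'
      omega
  -- first part
  have b1 : ‖∑ n ∈ Icc 1 Z, f n‖ ≤ x ^ i * (C3 * l ^ (55 / 10000 : ℝ)) := by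
    have h1 := Lb_part1 (chy χ (PP l)) i t hl0 hZge
    have h2 := hz r hr (Real.log Z) hlogZ1
    have h3 : (Real.log Z) ^ i ≤ 2 ^ k * x ^ i := by
      calc (Real.log Z) ^ i ≤ (2 * x) ^ i := pow_le_pow_left₀ (by linarith) hlogZ2 i
        _ = 2 ^ i * x ^ i := mul_pow _ _ _
        _ ≤ 2 ^ k * x ^ i := by
            apply mul_le_mul_of_nonneg_right _ (by positivity)
            exact pow_le_pow_right₀ (by norm_num) hi
    have h4 : Real.log Z * l ^ (-(8995 / 10000) : ℝ) ≤ 2 * l ^ (55 / 10000 : ℝ) := by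
      have e1 : l ^ (55 / 10000 : ℝ) = x * l ^ (-(8995 / 10000) : ℝ) := by
        rw [hx, ← Real.rpow_add hl0]
        norm_num
      rw [e1, ← mul_assoc]
      exact mul_le_mul_of_nonneg_right hlogZ2 (by positivity)
    refine h1.trans ?_
    calc _ ≤ (2 ^ k * x ^ i) * (Real.exp 1 * (C2 * (2 * l ^ (55 / 10000 : ℝ)))) := by
          apply mul_le_mul h3 _ (by positivity) (by positivity)
          apply mul_le_mul_of_nonneg_left _ (Real.exp_pos _).le
          refine h2.trans ?_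
          exact mul_le_mul_of_nonneg_left h4 (by linarith)
      _ = _ := by rw [hC3]; ring
  -- second part
  have b2 : ‖∑ n ∈ Ioc Z Z2, f n‖ ≤ 1 := by
    have e1 : ∑ n ∈ Ioc Z Z2, f n = ∑ n ∈ Ioc Z Z2, (c n * pz t n) *
        (((Real.log n) ^ i * (n : ℝ) ^ (-(1 + 1 / l)) : ℝ) : ℂ) := by
      apply Finset.sum_congr rfl
      intro n hn
      rw [Finset.mem_Ioc] at hn
      exact Lb_term c i l t (by omega)
    rw [e1]
    have hinv : 0 < 1 / l := by positivity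
    refine (Lb_abel_le (fun n => c n * pz t n) i (1 + 1 / l) (1 / l ^ (2 * k + 6))
      (by linarith) (by positivity) Z Z2 (by omega) hZZ ?_).trans ?_
    · intro n h1 h2
      have hn0 : (0 : ℝ) < n := lt_of_lt_of_le hZ0 (by exact_mod_cast h1)
      have h3 : x ≤ Real.log n := hlogZ1.trans (Real.log_le_log hZ0 (by exact_mod_cast h1))
      have h4 : Real.log n ≤ w := (Real.log_le_log hn0 (by exact_mod_cast h2)).trans hlogZ2w
      have h5 := hr1 r χ hr hrB t n ht1 ht2 h3 h4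
      calc _ ≤ (n : ℝ) / l ^ (2 * k + 6) := h5
        _ = _ := by ring
    · have hL0 : 0 ≤ Real.log Z2 := Real.log_nonneg (by
        have : (2 : ℝ) ≤ Z2 := by exact_mod_cast hZge.trans hZZ
        linarith)
      have h1 : (Real.log Z2) ^ i ≤ l ^ (2 * k) := by
        calc (Real.log Z2) ^ i ≤ (l ^ 2) ^ i := pow_le_pow_left₀ hL0 (hlogZ2w.trans hwl2) i
          _ = l ^ (2 * i) := by rw [← pow_mul]
          _ ≤ l ^ (2 * k) := pow_le_pow_right₀ hl1 (by omega)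
      have h2 : 4 + Real.log Z2 ≤ l ^ 6 := by
        have h3 : Real.log Z2 ≤ l ^ 2 := hlogZ2w.trans hwl2
        have h4 : (4 : ℝ) ≤ l ^ 2 := by nlinarith
        have h5 : l ^ 6 = l ^ 2 * l ^ 2 * l ^ 2 := by ring
        nlinarith
      calc 1 / l ^ (2 * k + 6) * ((Real.log Z2) ^ i * (4 + Real.log Z2))
          ≤ 1 / l ^ (2 * k + 6) * (l ^ (2 * k) * l ^ 6) := by
            apply mul_le_mul_of_nonneg_left _ (by positivity)
            exact mul_le_mul h1 h2 (by linarith) (by positivity)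
        _ = 1 := by
            rw [← pow_add]
            field_simp
  -- third part
  have b3 : ‖∑' n : ℕ, f (n + (Z2 + 1))‖ ≤ 1 := by
    refine (hCt i c hc1 l t w Z2 hl1 hZ2lo).trans ?_
    have e1 : w / (2 * l) = 1 / 2 * l ^ (1 / 10 : ℝ) := by
      rw [hwl]
      field_simp
    rw [e1, Real.exp_neg]
    have h1 : Ct i * (2 * l) ^ (i + 1) ≤ CT * 2 ^ (k + 1) * (l ^ (1 / 10 : ℝ)) ^ (10 * (k + 1)) := by
      have e2 : (l ^ (1 / 10 : ℝ)) ^ (10 * (k + 1)) = l ^ (k + 1) := by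
        rw [pow_mul, ← Real.rpow_natCast (l ^ (1 / 10 : ℝ)) 10, ← Real.rpow_mul hl0.le]
        norm_num
      rw [e2, mul_assoc, ← mul_pow]
      apply mul_le_mul (hCTi i hi) _ (by positivity) hCT0
      exact pow_le_pow_right₀ (by linarith) (by omega)
    rw [inv_mul_le_iff₀ (Real.exp_pos _), mul_one]
    exact h1.trans hl5
  have hxi : 1 ≤ x ^ i := one_le_pow₀ hx1
  have hp1 : 1 ≤ l ^ (55 / 10000 : ℝ) := Real.one_le_rpow hl1 (by norm_num)
  calc ‖Lj c i (sp l t)‖ ≤ ‖∑ n ∈ Icc 1 Z, f n‖ + ‖∑ n ∈ Ioc Z Z2, f n‖ +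
        ‖∑' n : ℕ, f (n + (Z2 + 1))‖ := by
        rw [hsplit]
        exact (norm_add_le _ _).trans (add_le_add (norm_add_le _ _) le_rfl)
    _ ≤ x ^ i * (C3 * l ^ (55 / 10000 : ℝ)) + 1 + 1 := add_le_add (add_le_add b1 b2) b3
    _ ≤ x ^ i * (C3 * l ^ (55 / 10000 : ℝ)) + x ^ i * (2 * l ^ (55 / 10000 : ℝ)) := by
        nlinarith
    _ = (C3 + 2) * (l ^ (55 / 10000 : ℝ) * x ^ i) := by ring
    _ ≤ l ^ (5 / 10000 : ℝ) * (l ^ (55 / 10000 : ℝ) * x ^ i) :=
        mul_le_mul_of_nonneg_right hl4 (by positivity)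
    _ = l ^ (6 / 1000 : ℝ) * x ^ i := by
        rw [← mul_assoc, ← Real.rpow_add hl0]
        norm_num

end Pool.Agent.CH.P
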