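import Pool.Agent.Lib.MP_d610d0_nt.CH.P.Stm

set_option autoImplicit false

/-!
Piece PNT.
-/

namespace Pool.Agent.CH.P

open Finset Filter
open ArithmeticFunction (vonMangoldt)
open Pool.Agent.MP89da58 (tri)
open Pool.Agent.MP89da58.S (Lj aL Fk)
open Pool.Agent.BVall (OmL psiG aZ)
open Pool.Agent.CH.V (pz I_V)

private lemma PNT_bd (n : ℕ) (hn : 1 ≤ n) :
    ‖((vonMangoldt n - 1 : ℝ) : ℂ)‖ ≤ Real.log n + 1 := by
  rw [Complex.norm_real, Real.norm_eq_abs]
  have h1 : 0 ≤ vonMangoldt n := ArithmeticFunction.vonMangoldt_nonneg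
  have h2 : vonMangoldt n ≤ Real.log n := ArithmeticFunction.vonMangoldt_le_log
  have h3 : 0 ≤ Real.log (n : ℝ) := Real.log_natCast_nonneg n
  rw [abs_le]
  constructor <;> linarith

private lemma PNT_sum (M : ℕ) : ∑ n ∈ Ioc 0 M, ((vonMangoldt n - 1 : ℝ) : ℂ) =
    ((∑ n ∈ Icc 1 M, vonMangoldt n - M : ℝ) : ℂ) := by
  have e : Ioc 0 M = Icc 1 M := by ext n; simp [Nat.succ_le_iff]
  rw [e, ← Complex.ofReal_sum, Finset.sum_sub_distrib]
  simp

private lemma PNT_triv (M : ℕ) (hM : 2 ≤ M) :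
    |∑ n ∈ Icc 1 M, vonMangoldt n - (M : ℝ)| ≤ M * (Real.log M + 1) := by
  have h1 : 0 ≤ ∑ n ∈ Icc 1 M, vonMangoldt n :=
    Finset.sum_nonneg fun n _ => ArithmeticFunction.vonMangoldt_nonneg
  have h2 : ∑ n ∈ Icc 1 M, vonMangoldt n ≤ ∑ _n ∈ Icc 1 M, Real.log M := by
    apply Finset.sum_le_sum
    intro n hn
    rw [Finset.mem_Icc] at hn
    refine ArithmeticFunction.vonMangoldt_le_log.trans ?_
    apply Real.log_le_log
    · exact_mod_cast hn.1
    · exact_mod_cast hn.2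
  rw [Finset.sum_const, Nat.card_Icc, nsmul_eq_mul, Nat.add_sub_cancel] at h2
  have h3 : 0 ≤ Real.log (M : ℝ) := Real.log_natCast_nonneg M
  have h4 : (0 : ℝ) ≤ M := Nat.cast_nonneg M
  have h5 : 0 ≤ (M : ℝ) * Real.log M := mul_nonneg h4 h3
  rw [abs_le]
  constructor <;> nlinarith

theorem p_PNT : S_PNT := by
  intro hwz hshp A
  have h1 := hwz (2 * A + 7) (A + 4)
  obtain ⟨X0, hX0⟩ := Filter.eventually_atTop.1 h1
  have h2 := hshp A
  have h3 : ∀ᶠ M : ℝ in atTop, Real.log M ^ (2 * (A + 3)) ≤ M := by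
    have := (Real.isLittleO_pow_log_id_atTop (n := 2 * (A + 3))).bound (c := 1) one_pos
    filter_upwards [this, eventually_ge_atTop (1 : ℝ)] with M hM hM1
    have e1 : 0 ≤ Real.log M := Real.log_nonneg hM1
    rw [Real.norm_eq_abs, abs_of_nonneg (by positivity), id, Real.norm_eq_abs,
      abs_of_nonneg (by linarith), one_mul] at hM
    exact hM
  have h4 : ∀ᶠ M : ℝ in atTop, (2 : ℝ) ^ (2 * A + 7) ≤ Real.log M :=
    Real.tendsto_log_atTop.eventually_ge_atTop _
  have h5 : ∀ᶠ M : ℝ in atTop, X0 ≤ Real.sqrt M :=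
    Real.tendsto_sqrt_atTop.eventually_ge_atTop _
  have hmain : ∀ᶠ M : ℝ in atTop, ∀ M2 : ℕ, (M2 : ℝ) = M →
      |∑ n ∈ Icc 1 M2, vonMangoldt n - (M2 : ℝ)| ≤ M / (Real.log M) ^ A := by
    filter_upwards [h2, h3, h4, h5, eventually_ge_atTop (2 : ℝ)] with M g2 g3 g4 g5 g6
    intro M2 hM2
    have hlog1 : (1 : ℝ) ≤ Real.log M := le_trans (one_le_pow₀ (by norm_num)) g4
    have hlog0 : 0 < Real.log M := by linarith
    have hM0 : 0 < M := by linarith
    have hX : ∀ X : ℝ, M / (Real.log M) ^ (A + 3) ≤ X → X ≤ M →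
        ‖∑ n ∈ Icc 1 ⌊3 * X⌋₊, ((vonMangoldt n - 1 : ℝ) : ℂ) *
          (OmL ((Real.log M) ^ (A + 3)) X n : ℂ)‖ ≤ X / (Real.log M) ^ (2 * A + 6) := by
      intro X hX1 hX2
      have e1 : (Real.log M) ^ (A + 3) ≤ Real.sqrt M := by
        apply Real.le_sqrt_of_sq_le
        rw [← pow_mul, mul_comm (A + 3) 2]
        exact g3
      have e2 : Real.sqrt M ≤ X := by
        refine le_trans ?_ hX1
        rw [le_div_iff₀ (by positivity)]
        calc Real.sqrt M * Real.log M ^ (A + 3) ≤ Real.sqrt M * Real.sqrt M :=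
              mul_le_mul_of_nonneg_left e1 (Real.sqrt_nonneg _)
          _ = M := Real.mul_self_sqrt hM0.le
      have hs0 : 0 < Real.sqrt M := Real.sqrt_pos.2 hM0
      have e3 : Real.log M / 2 ≤ Real.log X := by
        rw [← Real.log_sqrt hM0.le]
        exact Real.log_le_log hs0 e2
      have hX3 : 0 < X := by linarith
      have h2pos : (0 : ℝ) < 2 ^ (A + 4) := by positivity
      have e4 : (Real.log M) ^ (A + 3) ≤ (Real.log X) ^ (A + 4) := by
        calc (Real.log M) ^ (A + 3) ≤ (Real.log M / 2) ^ (A + 4) := by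
              rw [div_pow, le_div_iff₀ h2pos, pow_succ (Real.log M) (A + 3)]
              apply mul_le_mul_of_nonneg_left _ (by positivity)
              exact (pow_le_pow_right₀ (by norm_num) (by omega)).trans g4
          _ ≤ _ := pow_le_pow_left₀ (by linarith) e3 _
      have e5 : (Real.log M) ^ (2 * A + 6) ≤ (Real.log X) ^ (2 * A + 7) := by
        calc (Real.log M) ^ (2 * A + 6) ≤ (Real.log M / 2) ^ (2 * A + 7) := by
              rw [div_pow, le_div_iff₀ (by positivity), pow_succ (Real.log M) (2 * A + 6)]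
              exact mul_le_mul_of_nonneg_left g4 (by positivity)
          _ ≤ _ := pow_le_pow_left₀ (by linarith) e3 _
      have e6 := hX0 X (g5.trans e2) ((Real.log M) ^ (A + 3)) (one_le_pow₀ hlog1) e4
      refine e6.trans ?_
      exact div_le_div_of_nonneg_left hX3.le (by positivity) e5
    have e7 := g2 (fun n => ((vonMangoldt n - 1 : ℝ) : ℂ)) (fun n hn => PNT_bd n hn) hX 0 M2
      hM2.le
    rw [PNT_sum, Complex.norm_real, Real.norm_eq_abs] at e7
    exact e7
  obtain ⟨M0, hM0⟩ := Filter.eventually_atTop.1 hmain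
  set N0 : ℝ := max M0 3 with hN0
  have hN3 : (3 : ℝ) ≤ N0 := le_max_right _ _
  have hlogN : 1 ≤ Real.log N0 := by
    rw [Real.le_log_iff_exp_le (by linarith)]
    exact (Real.exp_one_lt_d9.le.trans (by norm_num)).trans hN3
  refine ⟨1 + (Real.log N0 + 1) * Real.log N0 ^ A, ?_⟩
  intro M hM
  have hM2 : (2 : ℝ) ≤ (M : ℝ) := by exact_mod_cast hM
  have hlog : 0 < Real.log (M : ℝ) := Real.log_pos (by linarith)
  have hpos : 0 ≤ (Real.log N0 + 1) * Real.log N0 ^ A := by positivity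
  by_cases hle : N0 ≤ (M : ℝ)
  · have := hM0 (M : ℝ) ((le_max_left _ _).trans hle) M rfl
    refine this.trans ?_
    apply div_le_div_of_nonneg_right _ (by positivity)
    nlinarith
  · push Not at hle
    have hl : Real.log (M : ℝ) ≤ Real.log N0 := Real.log_le_log (by linarith) hle.le
    refine (PNT_triv M hM).trans ?_
    rw [le_div_iff₀ (by positivity)]
    have e1 : Real.log (M : ℝ) ^ A ≤ Real.log N0 ^ A := pow_le_pow_left₀ hlog.le hl A
    have e2 : (Real.log (M : ℝ) + 1) * Real.log (M : ℝ) ^ A ≤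
        (Real.log N0 + 1) * Real.log N0 ^ A :=
      mul_le_mul (by linarith) e1 (by positivity) (by positivity)
    have e3 := mul_le_mul_of_nonneg_left e2 (by linarith : (0 : ℝ) ≤ (M : ℝ))
    nlinarith

end Pool.Agent.CH.P
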