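import Pool.Agent.Lib.MP_d610d0_nt.CH.P.Stm

set_option autoImplicit false

/-!
Piece PW.
-/

namespace Pool.Agent.CH.P

open Finset Filter
open ArithmeticFunction (vonMangoldt)
open Pool.Agent.MP89da58 (tri)
open Pool.Agent.MP89da58.S (Lj aL Fk)
open Pool.Agent.BVall (OmL psiG aZ)
open Pool.Agent.CH.V (pz I_V)

private theorem PW_norm_pz (t x : ℝ) : ‖pz t x‖ = 1 := by
  unfold pz
  rw [Complex.norm_exp]
  simp

private theorem PW_pow {a b : ℝ} (n : ℕ) (h2 : (2 : ℝ) ^ (n + 1) ≤ a) (hb : a / 2 ≤ b) :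
    a ^ n ≤ b ^ (n + 1) := by
  have h0 : (0 : ℝ) < 2 ^ (n + 1) := by positivity
  have ha : 0 < a := lt_of_lt_of_le h0 h2
  have h1 : a ^ n ≤ (a / 2) ^ (n + 1) := by
    rw [div_pow, le_div_iff₀ h0, pow_succ a n]
    exact mul_le_mul_of_nonneg_left h2 (by positivity)
  exact h1.trans (pow_le_pow_left₀ (by positivity) hb _)

private theorem PW_norm_b {r : ℕ} (χ : DirichletCharacter ℂ r) (τ : ℝ) (n : ℕ) :
    ‖(vonMangoldt n : ℂ) * χ (n : ZMod r) * pz (-τ) n‖ ≤ Real.log n + 1 := by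
  rw [norm_mul, norm_mul, PW_norm_pz, mul_one]
  have h1 : ‖((vonMangoldt n : ℝ) : ℂ)‖ = vonMangoldt n := by
    rw [Complex.norm_real, Real.norm_eq_abs, abs_of_nonneg ArithmeticFunction.vonMangoldt_nonneg]
  have h2 : ‖χ (n : ZMod r)‖ ≤ 1 := DirichletCharacter.norm_le_one χ _
  have h3 : vonMangoldt n ≤ Real.log n := ArithmeticFunction.vonMangoldt_le_log
  have h4 : 0 ≤ vonMangoldt n := ArithmeticFunction.vonMangoldt_nonneg
  have h5 : 0 ≤ Real.log n := h4.trans h3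
  rw [h1]
  calc vonMangoldt n * ‖χ (n : ZMod r)‖ ≤ vonMangoldt n * 1 :=
        mul_le_mul_of_nonneg_left h2 h4
    _ ≤ Real.log n + 1 := by linarith

theorem p_PW : S_PW := by
  intro hwin hshp A B κ hκ
  obtain ⟨C0, hC0⟩ := hwin (2 * A + 7) (B + 1) (A + 4) (2 * κ) (by linarith)
  obtain ⟨X0, hX0⟩ := eventually_atTop.1 hC0
  refine ⟨C0, ?_⟩
  have hlog : ∀ᶠ M : ℝ in atTop, (2 : ℝ) ^ (2 * A + B + 10) ≤ Real.log M :=
    Real.tendsto_log_atTop.eventually_ge_atTop _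
  have hsq : ∀ᶠ M : ℝ in atTop, (Real.log M) ^ (A + 3) ≤ M ^ (1 / 2 : ℝ) := by
    have h := (isLittleO_log_rpow_rpow_atTop ((A + 3 : ℕ) : ℝ)
      (show (0 : ℝ) < 1 / 2 by norm_num)).bound (show (0 : ℝ) < 1 by norm_num)
    filter_upwards [h, eventually_ge_atTop (1 : ℝ)] with M hM h1
    rw [Real.rpow_natCast, one_mul, Real.norm_of_nonneg (pow_nonneg (Real.log_nonneg h1) _),
      Real.norm_of_nonneg (Real.rpow_nonneg (by linarith) _)] at hM
    exact hM
  filter_upwards [hshp A, hlog, hsq, eventually_ge_atTop (1 : ℝ),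
    eventually_ge_atTop ((max X0 0) ^ 2)] with M hM hLM hsM hM1 hMX
  intro r χ hr hrB hprim τ hτ hor M1 M2 hM2
  refine hM (fun n => (vonMangoldt n : ℂ) * χ (n : ZMod r) * pz (-τ) n)
    (fun n _ => PW_norm_b χ τ n) ?_ M1 M2 hM2
  intro X hX1 hX2
  have hM0 : 0 < M := by linarith
  set s : ℝ := M ^ (1 / 2 : ℝ) with hs
  have hs0 : 0 < s := Real.rpow_pos_of_pos hM0 _
  have hss : s * s = M := by
    rw [hs, ← Real.rpow_add hM0]
    norm_num
  have hLM1 : 1 ≤ Real.log M := le_trans (one_le_pow₀ (by norm_num)) hLM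
  have hLM0 : 0 < Real.log M := by linarith
  have hsX : s ≤ X := by
    refine le_trans ?_ hX1
    rw [le_div_iff₀ (pow_pos hLM0 _)]
    calc s * Real.log M ^ (A + 3) ≤ s * s := mul_le_mul_of_nonneg_left hsM hs0.le
      _ = M := hss
  have hX0' : 0 < X := lt_of_lt_of_le hs0 hsX
  have hXX0 : X0 ≤ X := by
    have h1 : max X0 0 ≤ s := by
      by_contra hcon
      have hcon' : s < max X0 0 := lt_of_not_ge hcon
      nlinarith
    exact (le_max_left _ _).trans (h1.trans hsX)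
  have hlX : Real.log M / 2 ≤ Real.log X := by
    have h1 : Real.log s = Real.log M / 2 := by
      rw [hs, Real.log_rpow hM0]
      ring
    rw [← h1]
    exact Real.log_le_log hs0 hsX
  have hlXM : Real.log X ≤ Real.log M := Real.log_le_log hX0' hX2
  have hlX0 : 0 < Real.log X := by linarith
  have hp : ∀ n : ℕ, n + 1 ≤ 2 * A + B + 10 → Real.log M ^ n ≤ Real.log X ^ (n + 1) := by
    intro n hn
    exact PW_pow n ((pow_le_pow_right₀ (by norm_num) hn).trans hLM) hlX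
  have key := hX0 X hXX0 ((Real.log M) ^ (A + 3)) (one_le_pow₀ hLM1) (hp (A + 3) (by omega)) r χ hr
    (hrB.trans (hp B (by omega))) hprim τ ?_ ?_
  · refine key.trans ?_
    exact div_le_div_of_nonneg_left hX0'.le (pow_pos hLM0 _) (hp (2 * A + 6) (by omega))
  · refine hτ.trans ?_
    have h1 : M ≤ X ^ (2 : ℝ) := by
      rw [Real.rpow_two, ← hss]
      nlinarith
    rw [Real.rpow_mul hX0'.le]
    exact Real.rpow_le_rpow hM0.le h1 (by linarith)
  · rcases hor with h | h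
    · exact Or.inl h
    · exact Or.inr ((pow_le_pow_left₀ hlX0.le hlXM _).trans h)

end Pool.Agent.CH.P
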