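import Pool.Agent.Lib.MP_d610d0_nt.CH.P.Stm

set_option autoImplicit false

/-!
Piece cls.
-/

namespace Pool.Agent.CH.P

open Finset Filter
open ArithmeticFunction (vonMangoldt)
open Pool.Agent.MP89da58 (tri)
open Pool.Agent.MP89da58.S (Lj aL Fk)
open Pool.Agent.BVall (OmL psiG aZ)
open Pool.Agent.CH.V (pz I_V)

private theorem cls_pz_mul (t x y : ℝ) (hx : 0 < x) (hy : 0 < y) : pz t (x * y) = pz t x * pz t y := by
  unfold pz
  rw [← Complex.exp_add, Real.log_mul hx.ne' hy.ne']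
  congr 1
  push_cast
  ring

private theorem cls_pz_norm (t x : ℝ) : ‖pz t x‖ = 1 := by
  unfold pz
  rw [Complex.norm_exp]
  simp

private theorem cls_reindex (r : ℕ) (hr : 1 ≤ r) (N : ℕ) (hrN : r ≤ N) (f : ℕ → ℂ) :
    ∑ n ∈ Icc 1 N, f n = ∑ b ∈ Icc 1 r, ∑ k ∈ range ((N - b) / r + 1), f (b + r * k) := by
  have hmap : ∀ n ∈ Icc 1 N, (n - 1) % r + 1 ∈ Icc 1 r := by
    intro n _
    rw [Finset.mem_Icc]
    have := Nat.mod_lt (n - 1) (show 0 < r by omega)
    omega
  rw [← Finset.sum_fiberwise_of_maps_to hmap]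
  refine Finset.sum_congr rfl fun b hb => ?_
  rw [Finset.mem_Icc] at hb
  symm
  refine Finset.sum_nbij' (fun k => b + r * k) (fun n => (n - 1) / r) ?_ ?_ ?_ ?_ ?_
  · intro k hk
    rw [Finset.mem_range] at hk
    have h1 : k ≤ (N - b) / r := by omega
    have h2 : r * k ≤ N - b := by
      have := (Nat.le_div_iff_mul_le (show 0 < r by omega)).1 h1
      rw [mul_comm]; exact this
    rw [Finset.mem_filter, Finset.mem_Icc]
    refine ⟨⟨by omega, by omega⟩, ?_⟩
    have h3 : b + r * k - 1 = (b - 1) + r * k := by omega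
    rw [h3, Nat.add_mul_mod_self_left, Nat.mod_eq_of_lt (by omega)]
    omega
  · intro n hn
    rw [Finset.mem_filter, Finset.mem_Icc] at hn
    rw [Finset.mem_range]
    have h0 := Nat.div_add_mod (n - 1) r
    have : (n - 1) / r ≤ (N - b) / r := by
      rw [Nat.le_div_iff_mul_le (show 0 < r by omega)]
      have h1 : (n - 1) / r * r = r * ((n - 1) / r) := mul_comm _ _
      omega
    omega
  · intro k hk
    have h3 : b + r * k - 1 = (b - 1) + r * k := by omega
    show (b + r * k - 1) / r = k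
    rw [h3, Nat.add_mul_div_left _ _ (show 0 < r by omega), Nat.div_eq_of_lt (by omega)]
    omega
  · intro n hn
    rw [Finset.mem_filter, Finset.mem_Icc] at hn
    have h0 := Nat.div_add_mod (n - 1) r
    show b + r * ((n - 1) / r) = n
    omega
  · intro k _
    rfl

/-- Dyadic covering. -/
private theorem cls_dyadic (t u l L : ℝ) (hL : 0 < L) (N0 : ℕ) (hN0 : 2 ≤ N0)
    (hl : l ≤ Real.log N0)
    (hV : ∀ N N' : ℕ, l ≤ Real.log N → N ≤ N' → N' ≤ 2 * N →
      ‖∑ n ∈ Ioc N N', pz t ((n : ℝ) + u)‖ ≤ N / L) :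
    ∀ K : ℕ, N0 ≤ K → ‖∑ n ∈ Ioc N0 K, pz t ((n : ℝ) + u)‖ ≤ 3 * K / L := by
  intro K
  induction K using Nat.strong_induction_on with
  | _ K ih =>
    intro hK
    by_cases h : K ≤ 2 * N0
    · have h1 := hV N0 K hl hK h
      refine h1.trans ?_
      gcongr
      have : (N0 : ℝ) ≤ K := by exact_mod_cast hK
      have : (0 : ℝ) ≤ K := by positivity
      linarith
    · push Not at h
      set K' : ℕ := (K + 1) / 2 with hK'
      have h1 : N0 ≤ K' := by omega
      have h2 : K' < K := by omega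
      have h3 : K ≤ 2 * K' := by omega
      have h4 : 4 * K' ≤ 3 * K := by omega
      have hlog : l ≤ Real.log K' := by
        refine hl.trans (Real.log_le_log ?_ ?_)
        · have : 0 < N0 := by omega
          exact_mod_cast this
        · exact_mod_cast h1
      have e1 := ih K' h2 h1
      have e2 := hV K' K hlog h2.le h3
      have hsplit : ∑ n ∈ Ioc N0 K, pz t ((n : ℝ) + u)
          = ∑ n ∈ Ioc N0 K', pz t ((n : ℝ) + u) + ∑ n ∈ Ioc K' K, pz t ((n : ℝ) + u) := by
        rw [Finset.sum_Ioc_consecutive _ h1 h2.le]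
      rw [hsplit]
      calc ‖∑ n ∈ Ioc N0 K', pz t ((n : ℝ) + u) + ∑ n ∈ Ioc K' K, pz t ((n : ℝ) + u)‖
          ≤ 3 * K' / L + K' / L := (norm_add_le _ _).trans (add_le_add e1 e2)
        _ = (4 * K' : ℝ) / L := by ring
        _ ≤ 3 * K / L := by
            have h5 : (4 * K' : ℝ) ≤ 3 * K := by exact_mod_cast h4
            exact div_le_div_of_nonneg_right h5 hL.le

private theorem cls_ev1 (m : ℕ) : ∀ᶠ l : ℝ in atTop,
    6 * l ^ m * Real.exp (l ^ (9 / 10 : ℝ)) ≤ Real.exp (l ^ (451 / 500 : ℝ)) := by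
  have h1 : ∀ᶠ l : ℝ in atTop, (2 : ℝ) ≤ l ^ (1 / 500 : ℝ) :=
    (tendsto_rpow_atTop (by norm_num)).eventually_ge_atTop 2
  have h2 : ∀ᶠ l : ℝ in atTop, m * Real.log l ≤ 1 / 2 * l ^ (9 / 10 : ℝ) := by
    have h := (isLittleO_log_rpow_atTop (show (0 : ℝ) < 9 / 10 by norm_num)).bound
      (show (0 : ℝ) < 1 / (2 * (m + 1)) by positivity)
    filter_upwards [h, eventually_ge_atTop (1 : ℝ)] with l hl h1l
    rw [Real.norm_of_nonneg (Real.log_nonneg h1l),
      Real.norm_of_nonneg (Real.rpow_nonneg (by linarith) _)] at hl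
    have hm : (0 : ℝ) ≤ m := Nat.cast_nonneg m
    calc (m : ℝ) * Real.log l ≤ (m + 1) * Real.log l := by
          have := Real.log_nonneg h1l
          nlinarith
      _ ≤ (m + 1) * (1 / (2 * (m + 1)) * l ^ (9 / 10 : ℝ)) := by gcongr
      _ = 1 / 2 * l ^ (9 / 10 : ℝ) := by field_simp
  have h3 : ∀ᶠ l : ℝ in atTop, (2 * Real.log 6 : ℝ) ≤ l ^ (9 / 10 : ℝ) :=
    (tendsto_rpow_atTop (by norm_num)).eventually_ge_atTop _
  filter_upwards [h1, h2, h3, eventually_gt_atTop (0 : ℝ)] with l h1 h2 h3 hl0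
  have e1 : l ^ (451 / 500 : ℝ) = l ^ (9 / 10 : ℝ) * l ^ (1 / 500 : ℝ) := by
    rw [← Real.rpow_add hl0]; norm_num
  have e2 : 6 * l ^ m * Real.exp (l ^ (9 / 10 : ℝ))
      = Real.exp (Real.log 6 + m * Real.log l + l ^ (9 / 10 : ℝ)) := by
    rw [Real.exp_add, Real.exp_add, Real.exp_log (by norm_num), Real.exp_nat_mul, Real.exp_log hl0]
  rw [e2]
  apply Real.exp_le_exp.2
  rw [e1]
  have hpos : 0 ≤ l ^ (9 / 10 : ℝ) := Real.rpow_nonneg hl0.le _
  nlinarith

theorem p_cls : S_cls := by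
  intro hV A B κ hκ
  have hVA := hV (A + 1) κ hκ
  filter_upwards [hVA, cls_ev1 (A + B), eventually_ge_atTop (6 : ℝ)] with l hVl hev hl6
    r χ hr hrl t N ht1 ht2 hN
  have hl0 : (0 : ℝ) < l := by linarith
  have hM0 : (1 : ℝ) ≤ l ^ (9 / 10 : ℝ) := Real.one_le_rpow (by linarith) (by norm_num)
  set M : ℝ := l ^ (9 / 10 : ℝ) with hM
  set N0 : ℕ := ⌈Real.exp M⌉₊ with hN0
  have hexp2 : (2 : ℝ) ≤ Real.exp M := by
    have h1 : (2 : ℝ) ≤ Real.exp 1 := by
      have := Real.exp_one_gt_d9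
      linarith
    exact h1.trans (Real.exp_le_exp.2 hM0)
  have hN0le : Real.exp M ≤ N0 := Nat.le_ceil _
  have hN0lt : (N0 : ℝ) < Real.exp M + 1 := Nat.ceil_lt_add_one (Real.exp_pos _).le
  have hN02 : 2 ≤ N0 := by
    have : (2 : ℝ) ≤ N0 := hexp2.trans hN0le
    exact_mod_cast this
  have hN0log : M ≤ Real.log N0 := by
    rw [Real.le_log_iff_exp_le (by linarith)]
    exact hN0le
  have hNpos : (0 : ℝ) < N := by
    rcases Nat.eq_zero_or_pos N with h | h
    · exfalso
      rw [h] at hN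
      simp only [Nat.cast_zero, Real.log_zero] at hN
      have : 0 < l ^ (451 / 500 : ℝ) := Real.rpow_pos_of_pos hl0 _
      linarith
    · exact_mod_cast h
  have hNexp : Real.exp (l ^ (451 / 500 : ℝ)) ≤ N := by
    rw [← Real.le_log_iff_exp_le hNpos]; exact hN
  have hNbig : 6 * l ^ (A + B) * Real.exp M ≤ N := hev.trans hNexp
  have hlA : (1 : ℝ) ≤ l ^ A := one_le_pow₀ (by linarith)
  have hlB : (0 : ℝ) < l ^ B := by positivity
  have hrR : (1 : ℝ) ≤ r := by exact_mod_cast hr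
  have hrN : r ≤ N := by
    have : (r : ℝ) ≤ N := by
      refine hrl.trans (le_trans ?_ hNbig)
      rw [pow_add]
      have h1 : l ^ B ≤ l ^ A * l ^ B := by nlinarith
      have h2 : 0 < l ^ A * l ^ B := by positivity
      nlinarith
    exact_mod_cast this
  -- the inner sums
  have hin : ∀ b ∈ Icc 1 r, ‖∑ k ∈ range ((N - b) / r + 1),
      χ ((b + r * k : ℕ) : ZMod r) * pz t ((b + r * k : ℕ) : ℝ)‖
        ≤ (N0 + 1) + 3 * ((N : ℝ) / r) / l ^ (A + 1) := by
    intro b hb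
    rw [Finset.mem_Icc] at hb
    set K : ℕ := (N - b) / r with hK
    have hKle : (K : ℝ) ≤ (N : ℝ) / r := by
      have h1 : ((K : ℕ) : ℝ) ≤ ((N - b : ℕ) : ℝ) / (r : ℝ) := Nat.cast_div_le
      refine h1.trans ?_
      have h2 : ((N - b : ℕ) : ℝ) ≤ (N : ℝ) := by exact_mod_cast Nat.sub_le N b
      gcongr
    have hr0 : (0 : ℝ) < r := by linarith
    have hb0 : (0 : ℝ) < b := by exact_mod_cast hb.1
    have e1 : ∀ k ∈ range (K + 1), χ ((b + r * k : ℕ) : ZMod r) * pz t ((b + r * k : ℕ) : ℝ)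
        = (χ (b : ZMod r) * pz t r) * pz t ((k : ℝ) + b / r) := by
      intro k _
      have h1 : ((b + r * k : ℕ) : ZMod r) = (b : ZMod r) := by
        push_cast
        simp
      have h2 : ((b + r * k : ℕ) : ℝ) = (r : ℝ) * ((k : ℝ) + b / r) := by
        push_cast
        field_simp
        ring
      rw [h1, h2, cls_pz_mul _ _ _ hr0 (by positivity)]
      ring
    rw [Finset.sum_congr rfl e1, ← Finset.mul_sum, norm_mul, norm_mul, cls_pz_norm, mul_one]
    have hχ : ‖χ (b : ZMod r)‖ ≤ 1 := DirichletCharacter.norm_le_one χ _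
    have hmain : ‖∑ k ∈ range (K + 1), pz t ((k : ℝ) + b / r)‖
        ≤ (N0 + 1) + 3 * ((N : ℝ) / r) / l ^ (A + 1) := by
      have hnn : 0 ≤ 3 * ((N : ℝ) / r) / l ^ (A + 1) := by positivity
      by_cases hKN : K < N0
      · have h1 : ‖∑ k ∈ range (K + 1), pz t ((k : ℝ) + b / r)‖ ≤ ((K + 1 : ℕ) : ℝ) := by
          refine (norm_sum_le _ _).trans ?_
          simp [cls_pz_norm]
        have h2 : ((K + 1 : ℕ) : ℝ) ≤ N0 := by exact_mod_cast hKN
        linarith
      · push Not at hKN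
        have hsplit : range (K + 1) = range (N0 + 1) ∪ Ioc N0 K := by
          ext k
          simp only [Finset.mem_range, Finset.mem_union, Finset.mem_Ioc]
          omega
        have hdisj : Disjoint (range (N0 + 1)) (Ioc N0 K) := by
          rw [Finset.disjoint_left]
          intro k hk1 hk2
          rw [Finset.mem_range] at hk1
          rw [Finset.mem_Ioc] at hk2
          omega
        rw [hsplit, Finset.sum_union hdisj]
        have h1 : ‖∑ k ∈ range (N0 + 1), pz t ((k : ℝ) + b / r)‖ ≤ (N0 : ℝ) + 1 := by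
          refine (norm_sum_le _ _).trans ?_
          simp [cls_pz_norm]
        have hu0 : (0 : ℝ) ≤ (b : ℝ) / r := by positivity
        have hu1 : (b : ℝ) / r ≤ 1 := by
          rw [div_le_one hr0]
          exact_mod_cast hb.2
        have h2 := cls_dyadic t ((b : ℝ) / r) M (l ^ (A + 1)) (by positivity) N0 hN02 hN0log
          (fun N1 N2 a1 a2 a3 => hVl t ((b : ℝ) / r) N1 N2 (by
            have : A + 1 + 2 = A + 3 := by omega
            rw [this]; exact ht1) ht2 hu0 hu1 a1 a2 a3) K hKN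
        have h3 : 3 * (K : ℝ) / l ^ (A + 1) ≤ 3 * ((N : ℝ) / r) / l ^ (A + 1) := by
          gcongr
        calc ‖∑ k ∈ range (N0 + 1), pz t ((k : ℝ) + b / r) + ∑ k ∈ Ioc N0 K, pz t ((k : ℝ) + b / r)‖
            ≤ ((N0 : ℝ) + 1) + 3 * (K : ℝ) / l ^ (A + 1) := (norm_add_le _ _).trans (add_le_add h1 h2)
          _ ≤ _ := by linarith
    calc ‖χ (b : ZMod r)‖ * ‖∑ k ∈ range (K + 1), pz t ((k : ℝ) + b / r)‖
        ≤ 1 * ‖∑ k ∈ range (K + 1), pz t ((k : ℝ) + b / r)‖ := by gcongr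
      _ ≤ _ := by rw [one_mul]; exact hmain
  rw [cls_reindex r hr N hrN]
  calc ‖∑ b ∈ Icc 1 r, ∑ k ∈ range ((N - b) / r + 1),
        χ ((b + r * k : ℕ) : ZMod r) * pz t ((b + r * k : ℕ) : ℝ)‖
      ≤ ∑ b ∈ Icc 1 r, ((N0 + 1) + 3 * ((N : ℝ) / r) / l ^ (A + 1)) :=
        (norm_sum_le _ _).trans (Finset.sum_le_sum hin)
    _ = r * (N0 + 1) + 3 * N / l ^ (A + 1) := by
        rw [Finset.sum_const, Nat.card_Icc, nsmul_eq_mul]
        have hr0 : (r : ℝ) ≠ 0 := by positivity
        simp only [Nat.add_sub_cancel]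
        field_simp
    _ ≤ N / l ^ A := by
        have h1 : (r : ℝ) * (N0 + 1) ≤ N / (2 * l ^ A) := by
          rw [le_div_iff₀ (by positivity)]
          have h2 : (N0 : ℝ) + 1 ≤ 2 * Real.exp M := by linarith
          calc (r : ℝ) * (N0 + 1) * (2 * l ^ A) ≤ l ^ B * (2 * Real.exp M) * (2 * l ^ A) := by
                gcongr
            _ = 4 * l ^ (A + B) * Real.exp M := by rw [pow_add]; ring
            _ ≤ 6 * l ^ (A + B) * Real.exp M := by
                have : 0 < l ^ (A + B) * Real.exp M := by positivity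
                nlinarith
            _ ≤ N := hNbig
        have h2 : 3 * (N : ℝ) / l ^ (A + 1) ≤ N / (2 * l ^ A) := by
          rw [div_le_div_iff₀ (by positivity) (by positivity), pow_succ]
          have : 0 < (N : ℝ) * l ^ A := by positivity
          nlinarith
        have h3 : (N : ℝ) / l ^ A = N / (2 * l ^ A) + N / (2 * l ^ A) := by
          field_simp
          ring
        rw [h3]
        exact add_le_add h1 h2

end Pool.Agent.CH.P
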