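import Pool.Agent.Lib.MP_d610d0_nt.CH.P.Stm

set_option autoImplicit false

/-!
Piece low.
-/

namespace Pool.Agent.CH.P

open Finset Filter
open ArithmeticFunction (vonMangoldt)
open Pool.Agent.MP89da58 (tri)
open Pool.Agent.MP89da58.S (Lj aL Fk)
open Pool.Agent.BVall (OmL psiG aZ)
open Pool.Agent.CH.V (pz I_V)

lemma low_Lj0 (a : ℕ → ℂ) (s : ℂ) : Lj a 0 s = LSeries a s := by
  unfold Lj
  congr 1
  funext n
  rw [pow_zero, one_mul]

lemma low_sq {r : ℕ} (χ : DirichletCharacter ℂ r) (P : ℕ) : chy χ P ^ 2 = chy (χ ^ 2) P := by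
  unfold chy
  rw [map_pow]

theorem p_low : S_low := by
  intro hLb hzs B κ hκ
  obtain ⟨C0, hC0⟩ := hLb B 0 (2 * κ) (by linarith)
  refine ⟨C0, ?_⟩
  filter_upwards [hC0, hzs, eventually_ge_atTop 1] with l h1 h2 hl
  intro r χ hr hrB t ht1 ht2
  have hl0 : 0 < l := by linarith
  have hκl : 1 ≤ κ * l := by nlinarith
  have he : 2 ≤ Real.exp (κ * l) := by
    have := Real.add_one_le_exp (κ * l)
    linarith
  have he2 : Real.exp (2 * κ * l) = Real.exp (κ * l) * Real.exp (κ * l) := by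
    rw [← Real.exp_add]; congr 1; ring
  have hab : |2 * t| = 2 * |t| := by rw [abs_mul, abs_of_pos (by norm_num : (0 : ℝ) < 2)]
  -- the three factors
  have f2 := h1 r (χ ^ 2) hr hrB (2 * t) (by rw [hab]; linarith [abs_nonneg t])
    (by rw [hab, he2]; nlinarith [Real.exp_pos (κ * l)]) 0 le_rfl
  rw [pow_zero, mul_one, low_Lj0] at f2
  have f0 := h2 r hr
  rw [low_Lj0]
  set X : ℝ := ‖LSeries (fun n => chy χ (PP l) n) (sp l t)‖ with hX
  have key := DirichletCharacter.norm_LSeries_product_ge_one (chy χ (PP l)) (x := 1 / l)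
    (by positivity) t
  have e0 : (1 : ℂ) + ((1 / l : ℝ) : ℂ) = ((1 + 1 / l : ℝ) : ℂ) := by push_cast; ring
  have e1 : (1 : ℂ) + ((1 / l : ℝ) : ℂ) + Complex.I * (t : ℂ) = sp l t := by
    unfold sp; push_cast; ring
  have e2 : (1 : ℂ) + ((1 / l : ℝ) : ℂ) + 2 * Complex.I * (t : ℂ) = sp l (2 * t) := by
    unfold sp; push_cast; ring
  rw [e1, e2, e0, low_sq, norm_mul, norm_mul, norm_pow, norm_pow, ← hX] at key
  by_contra hcon
  rw [not_le] at hcon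
  set a : ℝ := l ^ (1 / 1000 : ℝ) with ha
  have ha1 : 1 ≤ a := Real.one_le_rpow hl (by norm_num)
  have hpow : ∀ k : ℕ, l ^ ((k : ℝ) / 1000) = a ^ k := by
    intro k
    rw [ha, ← Real.rpow_natCast, ← Real.rpow_mul hl0.le]
    congr 1
    ring
  have p6 : l ^ (6 / 1000 : ℝ) = a ^ 6 := by exact_mod_cast hpow 6
  have p101 : l ^ (101 / 1000 : ℝ) = a ^ 101 := by exact_mod_cast hpow 101
  have p78 : l ^ (78 / 1000 : ℝ) = a ^ 78 := by exact_mod_cast hpow 78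
  rw [p6] at f2
  rw [p101] at f0
  rw [p78] at hcon
  have hX0 : 0 ≤ X := norm_nonneg _
  have ha0 : 0 < a := by linarith
  have hX4' : X ^ 4 < ((a ^ 78)⁻¹) ^ 4 := pow_lt_pow_left₀ hcon hX0 (by norm_num)
  have f0' : ‖LSeries (fun n => (1 : DirichletCharacter ℂ (r * PP l)) n)
      ((1 + 1 / l : ℝ) : ℂ)‖ ^ 3 ≤ (a ^ 101) ^ 3 := pow_le_pow_left₀ (norm_nonneg _) f0 3
  have hlt : (a ^ 101) ^ 3 * ((a ^ 78)⁻¹) ^ 4 * a ^ 6 ≤ 1 := by
    have : (a ^ 101) ^ 3 * ((a ^ 78)⁻¹) ^ 4 * a ^ 6 = (a ^ 3)⁻¹ := by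
      field_simp
    rw [this]
    exact inv_le_one_of_one_le₀ (one_le_pow₀ ha1)
  have hstr : ‖LSeries (fun n => (1 : DirichletCharacter ℂ (r * PP l)) n)
      ((1 + 1 / l : ℝ) : ℂ)‖ ^ 3 * X ^ 4 *
      ‖LSeries (fun n => chy (χ ^ 2) (PP l) n) (sp l (2 * t))‖ <
      (a ^ 101) ^ 3 * ((a ^ 78)⁻¹) ^ 4 * a ^ 6 := by
    calc _ ≤ (a ^ 101) ^ 3 * X ^ 4 * a ^ 6 := by
          apply mul_le_mul _ f2 (norm_nonneg _) (by positivity)
          exact mul_le_mul_of_nonneg_right f0' (by positivity)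
      _ < (a ^ 101) ^ 3 * ((a ^ 78)⁻¹) ^ 4 * a ^ 6 := by
          apply mul_lt_mul_of_pos_right _ (by positivity)
          exact mul_lt_mul_of_pos_left hX4' (by positivity)
  linarith

end Pool.Agent.CH.P
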