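import Pool.Agent.Lib.MP_d610d0_nt.CH.P.Stm
import Pool.Agent.Lib.MP_d610d0_nt.Mert2

set_option autoImplicit false

/-!
Piece mer1.
-/

namespace Pool.Agent.CH.P

open Finset Filter
open ArithmeticFunction (vonMangoldt)
open Pool.Agent.MP89da58 (tri)
open Pool.Agent.MP89da58.S (Lj aL Fk)
open Pool.Agent.BVall (OmL psiG aZ)
open Pool.Agent.CH.V (pz I_V)

private theorem mer1_tel (m : ℕ) : ∑ n ∈ Icc 2 (m + 1), Real.log n / ((n : ℝ) * ((n : ℝ) - 1)) ≤
    Real.log 2 + 1 - (Real.log (m + 2) + 1) / (m + 1) := by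
  induction m with
  | zero => simp
  | succ m ih =>
    rw [Finset.sum_Icc_succ_top (by omega)]
    have hm : (0 : ℝ) ≤ (m : ℝ) := Nat.cast_nonneg m
    have e1 : ((m + 1 + 1 : ℕ) : ℝ) = (m : ℝ) + 2 := by push_cast; ring
    have e2 : ((m + 1 : ℕ) : ℝ) = (m : ℝ) + 1 := by push_cast; ring
    rw [e1, e2]
    have h1 : Real.log ((m : ℝ) + 1 + 2) - Real.log ((m : ℝ) + 2) ≤ 1 / ((m : ℝ) + 2) := by
      rw [← Real.log_div (by positivity) (by positivity)]
      have h2 := Real.log_le_sub_one_of_pos (x := ((m : ℝ) + 1 + 2) / ((m : ℝ) + 2)) (by positivity)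
      have h3 : ((m : ℝ) + 1 + 2) / ((m : ℝ) + 2) - 1 = 1 / ((m : ℝ) + 2) := by
        field_simp
        ring
      linarith
    have h4 : Real.log ((m : ℝ) + 2) / (((m : ℝ) + 2) * ((m : ℝ) + 2 - 1)) =
        Real.log ((m : ℝ) + 2) / ((m : ℝ) + 1) - Real.log ((m : ℝ) + 2) / ((m : ℝ) + 2) := by
      have : (m : ℝ) + 2 - 1 = (m : ℝ) + 1 := by ring
      rw [this]
      field_simp
      ring
    rw [h4]
    have h5 : (Real.log ((m : ℝ) + 2) + 1) / ((m : ℝ) + 1) =
        Real.log ((m : ℝ) + 2) / ((m : ℝ) + 1) + 1 / ((m : ℝ) + 1) := by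
      rw [add_div]
    rw [h5] at ih
    have h6 : (Real.log ((m : ℝ) + 1 + 2) + 1) / ((m : ℝ) + 1 + 1) ≤
        Real.log ((m : ℝ) + 2) / ((m : ℝ) + 2) + 1 / ((m : ℝ) + 2) +
          1 / ((m : ℝ) + 2) / ((m : ℝ) + 2) := by
      have : (m : ℝ) + 1 + 1 = (m : ℝ) + 2 := by ring
      rw [this, ← add_div, ← add_div]
      apply div_le_div_of_nonneg_right _ (by positivity)
      linarith
    have h7 : 1 / ((m : ℝ) + 2) + 1 / ((m : ℝ) + 2) / ((m : ℝ) + 2) ≤ 1 / ((m : ℝ) + 1) := by
      rw [div_add_div _ _ (by positivity) (by positivity), div_le_div_iff₀ (by positivity)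
        (by positivity)]
      rw [one_div, ← sub_nonneg]
      have : (0 : ℝ) < (m : ℝ) + 2 := by positivity
      have h8 : 1 * (((m : ℝ) + 2) * ((m : ℝ) + 2)) - (1 * ((m : ℝ) + 2) + ((m : ℝ) + 2) *
          ((m : ℝ) + 2)⁻¹) * ((m : ℝ) + 1) = 1 := by
        rw [mul_inv_cancel₀ this.ne']
        ring
      rw [h8]
      exact zero_le_one
    linarith

theorem p_mer1 : S_mer1 := by
  have hlow : ∀ x : ℕ, 1 ≤ x →
      Real.log x - 3 ≤ ∑ p ∈ (Icc 1 x).filter Nat.Prime, Real.log p / p := by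
    intro x hx
    have h1 := Pool.Agent.Lib.MP_d610d0_nt.Asum_lower x
    have h2 : Pool.Agent.Lib.MP_d610d0_nt.Asum x =
        ∑ p ∈ (Icc 1 x).filter Nat.Prime, Real.log p / p +
        ∑ p ∈ (Icc 1 x).filter Nat.Prime, Real.log p / ((p : ℝ) * ((p : ℝ) - 1)) := by
      unfold Pool.Agent.Lib.MP_d610d0_nt.Asum
      rw [← Finset.sum_add_distrib]
      have h3 : Pool.Agent.Lib.MP_d610d0_nt.Pm x = (Icc 1 x).filter Nat.Prime := by
        ext p
        rw [Pool.Agent.Lib.MP_d610d0_nt.mem_Pm, Finset.mem_filter, Finset.mem_Icc]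
        constructor
        · rintro ⟨h4, h5⟩
          exact ⟨⟨h5.one_lt.le, h4⟩, h5⟩
        · rintro ⟨⟨_, h4⟩, h5⟩
          exact ⟨h4, h5⟩
      rw [h3]
      apply Finset.sum_congr rfl
      intro p hp
      have hp2 : (2 : ℝ) ≤ p := by exact_mod_cast (Finset.mem_filter.1 hp).2.two_le
      have hp1 : (p : ℝ) - 1 ≠ 0 := by linarith
      have hp0 : (p : ℝ) ≠ 0 := by linarith
      field_simp
      ring
    have h4 : ∑ p ∈ (Icc 1 x).filter Nat.Prime, Real.log p / ((p : ℝ) * ((p : ℝ) - 1)) ≤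
        Real.log 2 + 1 := by
      have h5 := mer1_tel x
      have h6 : ∑ p ∈ (Icc 1 x).filter Nat.Prime, Real.log p / ((p : ℝ) * ((p : ℝ) - 1)) ≤
          ∑ n ∈ Icc 2 (x + 1), Real.log n / ((n : ℝ) * ((n : ℝ) - 1)) := by
        apply Finset.sum_le_sum_of_subset_of_nonneg
        · intro p hp
          have h7 := Finset.mem_filter.1 hp
          rw [Finset.mem_Icc] at h7 ⊢
          exact ⟨h7.2.two_le, by omega⟩
        · intro n hn _
          rw [Finset.mem_Icc] at hn
          have h8 : (2 : ℝ) ≤ n := by exact_mod_cast hn.1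
          have h9 : 0 ≤ (n : ℝ) - 1 := by linarith
          have h10 : 0 ≤ Real.log n := Real.log_nonneg (by linarith)
          positivity
      have h7 : 0 ≤ (Real.log ((x : ℝ) + 2) + 1) / ((x : ℝ) + 1) := by
        have : 0 ≤ Real.log ((x : ℝ) + 2) := Real.log_nonneg (by
          have : (0 : ℝ) ≤ x := Nat.cast_nonneg x
          linarith)
        positivity
      linarith
    have h8 : Real.log x ≤ Real.log (x + 1) := by
      apply Real.log_le_log
      · exact_mod_cast hx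
      · linarith
    have h9 := Real.log_two_lt_d9
    linarith
  have hup : ∀ x : ℕ, 4000 ≤ x →
      ∑ p ∈ (Icc 1 x).filter Nat.Prime, Real.log p / p ≤ Real.log x + 1 := by
    intro x hx
    have h1 := Pool.Agent.Lib.MP_d610d0_nt.Asum_upper hx
    have h2 : ∑ p ∈ (Icc 1 x).filter Nat.Prime, Real.log p / p ≤
        Pool.Agent.Lib.MP_d610d0_nt.Asum x := by
      unfold Pool.Agent.Lib.MP_d610d0_nt.Asum
      have h3 : Pool.Agent.Lib.MP_d610d0_nt.Pm x = (Icc 1 x).filter Nat.Prime := by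
        ext p
        rw [Pool.Agent.Lib.MP_d610d0_nt.mem_Pm, Finset.mem_filter, Finset.mem_Icc]
        constructor
        · rintro ⟨h4, h5⟩
          exact ⟨⟨h5.one_lt.le, h4⟩, h5⟩
        · rintro ⟨⟨_, h4⟩, h5⟩
          exact ⟨h4, h5⟩
      rw [h3]
      apply Finset.sum_le_sum
      intro p hp
      have hp2 : (2 : ℝ) ≤ p := by exact_mod_cast (Finset.mem_filter.1 hp).2.two_le
      apply div_le_div_of_nonneg_left (Real.log_nonneg (by linarith)) (by linarith)
      linarith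
    linarith
  refine ⟨Real.log 4000 + 3, ?_⟩
  intro x hx
  have hl := hlow x hx
  have hx0 : 0 ≤ Real.log x := Real.log_nonneg (by exact_mod_cast hx)
  have h40 : 0 ≤ Real.log 4000 := Real.log_nonneg (by norm_num)
  rw [abs_le]
  constructor
  · linarith
  · rcases le_or_gt 4000 x with h | h
    · have := hup x h
      linarith
    · have h1 := hup 4000 le_rfl
      have h2 : ∑ p ∈ (Icc 1 x).filter Nat.Prime, Real.log p / p ≤
          ∑ p ∈ (Icc 1 4000).filter Nat.Prime, Real.log p / (p : ℝ) := by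
        apply Finset.sum_le_sum_of_subset_of_nonneg
        · intro p hp
          rw [Finset.mem_filter, Finset.mem_Icc] at hp ⊢
          exact ⟨⟨hp.1.1, by omega⟩, hp.2⟩
        · intro p hp _
          have hp2 : (2 : ℝ) ≤ p := by exact_mod_cast (Finset.mem_filter.1 hp).2.two_le
          have h10 : 0 ≤ Real.log p := Real.log_nonneg (by linarith)
          positivity
      have h3 : ((4000 : ℕ) : ℝ) = 4000 := by norm_num
      rw [h3] at h1
      linarith

end Pool.Agent.CH.P
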