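import Pool.Agent.Lib.MP_d610d0_nt.CH.P.Stm

set_option autoImplicit false

/-!
Piece mer2.
-/

namespace Pool.Agent.CH.P

open Finset Filter
open ArithmeticFunction (vonMangoldt)
open Pool.Agent.MP89da58 (tri)
open Pool.Agent.MP89da58.S (Lj aL Fk)
open Pool.Agent.BVall (OmL psiG aZ)
open Pool.Agent.CH.V (pz I_V)

/-- the sum of Mertens' first theorem -/
private noncomputable def mer2_A (n : ℕ) : ℝ := ∑ p ∈ (Icc 1 n).filter Nat.Prime, Real.log p / p

private noncomputable def mer2_S (a b : ℕ) : ℝ := ∑ p ∈ (Ioc a b).filter Nat.Prime, (1 : ℝ) / p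

private lemma mer2_A_succ (b : ℕ) : mer2_A (b + 1) =
    mer2_A b + if (b + 1).Prime then Real.log ((b + 1 : ℕ) : ℝ) / ((b + 1 : ℕ) : ℝ) else 0 := by
  unfold mer2_A
  rw [sum_filter, sum_filter, Finset.sum_Icc_succ_top (by omega)]

private lemma mer2_S_succ {a b : ℕ} (hab : a ≤ b) : mer2_S a (b + 1) =
    mer2_S a b + if (b + 1).Prime then (1 : ℝ) / ((b + 1 : ℕ) : ℝ) else 0 := by
  unfold mer2_S
  rw [sum_filter, sum_filter, Finset.sum_Ioc_succ_top hab]

private lemma mer2_step {a b : ℕ} (hab : a ≤ b) (hb : 2 ≤ b) :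
    mer2_S a (b + 1) - mer2_S a b =
      (mer2_A (b + 1) - mer2_A b) * (1 / Real.log ((b + 1 : ℕ) : ℝ)) := by
  rw [mer2_A_succ, mer2_S_succ hab]
  have hlog : Real.log ((b + 1 : ℕ) : ℝ) ≠ 0 := by
    have h1 : (1 : ℝ) < ((b + 1 : ℕ) : ℝ) := by
      have : 1 < b + 1 := by omega
      exact_mod_cast this
    exact (Real.log_pos h1).ne'
  split_ifs
  · field_simp
    ring
  · simp

/-- the elementary inequalities for the double logarithm -/
private lemma mer2_log {b : ℕ} (hb : 2 ≤ b) :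
    (Real.log ((b + 1 : ℕ) : ℝ) - Real.log b) * (1 / Real.log ((b + 1 : ℕ) : ℝ)) ≤
      Real.log (Real.log ((b + 1 : ℕ) : ℝ)) - Real.log (Real.log b) ∧
    Real.log (Real.log ((b + 1 : ℕ) : ℝ)) - Real.log (Real.log b) ≤
      (Real.log ((b + 1 : ℕ) : ℝ) - Real.log b) * (1 / Real.log ((b + 1 : ℕ) : ℝ)) +
        (1 / Real.log b - 1 / Real.log ((b + 1 : ℕ) : ℝ)) ∧
    0 < Real.log b ∧ 1 / Real.log ((b + 1 : ℕ) : ℝ) ≤ 1 / Real.log b := by
  have hb1 : (1 : ℝ) < (b : ℝ) := by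
    have : 1 < b := by omega
    exact_mod_cast this
  have hb2 : (2 : ℝ) ≤ (b : ℝ) := by exact_mod_cast hb
  have hx : 0 < Real.log b := Real.log_pos hb1
  have hcast : ((b + 1 : ℕ) : ℝ) = (b : ℝ) + 1 := by push_cast; ring
  rw [hcast]
  have hxy : Real.log b < Real.log ((b : ℝ) + 1) :=
    Real.log_lt_log (by linarith) (by linarith)
  set x := Real.log b with hxdef
  set y := Real.log ((b : ℝ) + 1) with hydef
  have hy : 0 < y := hx.trans hxy
  have hlog : Real.log y - Real.log x = Real.log (y / x) := (Real.log_div hy.ne' hx.ne').symm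
  have h1 : 1 - (y / x)⁻¹ ≤ Real.log (y / x) := Real.one_sub_inv_le_log_of_pos (by positivity)
  have h2 : Real.log (y / x) ≤ y / x - 1 := Real.log_le_sub_one_of_pos (by positivity)
  have h3 : y - x ≤ 1 := by
    have h4 : y - x = Real.log (((b : ℝ) + 1) / b) := by
      rw [hxdef, hydef, Real.log_div (by linarith) (by linarith)]
    have h5 : Real.log (((b : ℝ) + 1) / b) ≤ ((b : ℝ) + 1) / b - 1 :=
      Real.log_le_sub_one_of_pos (by positivity)
    have h6 : ((b : ℝ) + 1) / b - 1 = 1 / b := by field_simp; ring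
    have h7 : 1 / (b : ℝ) ≤ 1 := by
      rw [div_le_one (by linarith)]
      linarith
    linarith
  have hinv : 1 / y ≤ 1 / x := one_div_le_one_div_of_le hx hxy.le
  refine ⟨?_, ?_, hx, hinv⟩
  · rw [hlog]
    have : (y - x) * (1 / y) = 1 - (y / x)⁻¹ := by
      field_simp
    linarith
  · rw [hlog]
    have h8 : y / x - 1 = (y - x) * (1 / x) := by
      field_simp
    have h9 : (y - x) * (1 / x) = (y - x) * (1 / y) + (y - x) * (1 / x - 1 / y) := by ring
    have h10 : (y - x) * (1 / x - 1 / y) ≤ 1 * (1 / x - 1 / y) :=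
      mul_le_mul_of_nonneg_right h3 (by linarith)
    linarith

private lemma mer2_ind {C : ℝ} (hC : ∀ x : ℕ, 1 ≤ x → |mer2_A x - Real.log x| ≤ C) {a : ℕ}
    (ha : 2 ≤ a) : ∀ d : ℕ,
    mer2_S a (a + d) ≤ Real.log (Real.log ((a + d : ℕ) : ℝ)) - Real.log (Real.log a) +
      (mer2_A (a + d) - Real.log ((a + d : ℕ) : ℝ)) * (1 / Real.log ((a + d : ℕ) : ℝ)) -
      (mer2_A a - Real.log a) * (1 / Real.log a) +
      C * (1 / Real.log a - 1 / Real.log ((a + d : ℕ) : ℝ)) ∧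
    Real.log (Real.log ((a + d : ℕ) : ℝ)) - Real.log (Real.log a) +
      (mer2_A (a + d) - Real.log ((a + d : ℕ) : ℝ)) * (1 / Real.log ((a + d : ℕ) : ℝ)) -
      (mer2_A a - Real.log a) * (1 / Real.log a) -
      (C + 1) * (1 / Real.log a - 1 / Real.log ((a + d : ℕ) : ℝ)) ≤ mer2_S a (a + d) := by
  intro d
  induction d with
  | zero =>
    have h0 : mer2_S a a = 0 := by
      unfold mer2_S
      simp
    simp only [Nat.add_zero]
    rw [h0]
    constructor <;> apply le_of_eq <;> ring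
  | succ d ih =>
    obtain ⟨ih1, ih2⟩ := ih
    obtain ⟨l1, l2, l3, l4⟩ := mer2_log (b := a + d) (by omega)
    have hst := mer2_step (a := a) (b := a + d) (by omega) (by omega)
    have hE := abs_le.mp (hC (a + d) (by omega))
    rw [← Nat.add_assoc]
    set f := 1 / Real.log ((a + d : ℕ) : ℝ) with hf
    set g := 1 / Real.log ((a + d + 1 : ℕ) : ℝ) with hg
    have hfg : 0 ≤ f - g := by linarith
    have e1 : (mer2_A (a + d) - Real.log ((a + d : ℕ) : ℝ)) * (f - g) ≤ C * (f - g) :=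
      mul_le_mul_of_nonneg_right hE.2 hfg
    have e2 : (-C) * (f - g) ≤ (mer2_A (a + d) - Real.log ((a + d : ℕ) : ℝ)) * (f - g) :=
      mul_le_mul_of_nonneg_right hE.1 hfg
    constructor
    · linear_combination ih1 + l1 + e1 + hst
    · linear_combination ih2 + l2 + e2 - hst

theorem p_mer2 : S_mer2 := by
  rintro ⟨C, hC⟩
  have hC0 : 0 ≤ C := (abs_nonneg _).trans (hC 1 le_rfl)
  refine ⟨3 * C + 1, fun a b ha hab => ?_⟩
  obtain ⟨d, rfl⟩ := Nat.exists_eq_add_of_le hab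
  obtain ⟨h1, h2⟩ := mer2_ind (C := C) hC ha d
  have ha1 : (1 : ℝ) < (a : ℝ) := by
    have : 1 < a := by omega
    exact_mod_cast this
  have hx : 0 < Real.log a := Real.log_pos ha1
  have hxy : Real.log a ≤ Real.log ((a + d : ℕ) : ℝ) := by
    apply Real.log_le_log (by linarith)
    exact_mod_cast hab
  have hy : 0 < Real.log ((a + d : ℕ) : ℝ) := lt_of_lt_of_le hx hxy
  have hfg : 1 / Real.log ((a + d : ℕ) : ℝ) ≤ 1 / Real.log a := one_div_le_one_div_of_le hx hxy
  have hg0 : 0 ≤ 1 / Real.log ((a + d : ℕ) : ℝ) := by positivity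
  have hf0 : 0 ≤ 1 / Real.log (a : ℝ) := by positivity
  rw [Real.log_div hy.ne' hx.ne']
  change |mer2_S a (a + d) - _| ≤ _
  have hEa := abs_le.mp (hC a (by omega))
  have hEb := abs_le.mp (hC (a + d) (by omega))
  change -C ≤ mer2_A a - Real.log a ∧ mer2_A a - Real.log a ≤ C at hEa
  change -C ≤ mer2_A (a + d) - Real.log ((a + d : ℕ) : ℝ) ∧
    mer2_A (a + d) - Real.log ((a + d : ℕ) : ℝ) ≤ C at hEb
  set f := 1 / Real.log (a : ℝ) with hf
  set g := 1 / Real.log ((a + d : ℕ) : ℝ) with hg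
  have a1 : (mer2_A a - Real.log a) * f ≤ C * f := mul_le_mul_of_nonneg_right hEa.2 hf0
  have a2 : (-C) * f ≤ (mer2_A a - Real.log a) * f := mul_le_mul_of_nonneg_right hEa.1 hf0
  have b1 : (mer2_A (a + d) - Real.log ((a + d : ℕ) : ℝ)) * g ≤ C * g :=
    mul_le_mul_of_nonneg_right hEb.2 hg0
  have b2 : (-C) * g ≤ (mer2_A (a + d) - Real.log ((a + d : ℕ) : ℝ)) * g :=
    mul_le_mul_of_nonneg_right hEb.1 hg0
  have hdiv : (3 * C + 1) / Real.log (a : ℝ) = (3 * C + 1) * f := by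
    rw [hf]
    ring
  rw [hdiv, abs_le]
  constructor
  · nlinarith [mul_nonneg hC0 hg0, mul_nonneg hC0 hf0]
  · nlinarith [mul_nonneg hC0 hg0, mul_nonneg hC0 hf0]

end Pool.Agent.CH.P
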