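import Pool.Agent.Lib.MP_d610d0_nt.CH.P.Stm

set_option autoImplicit false

/-!
Piece psi.
-/

namespace Pool.Agent.CH.P

open Finset Filter MeasureTheory
open scoped FourierTransform
open ArithmeticFunction (vonMangoldt)
open Pool.Agent.MP89da58 (tri cX)
open Pool.Agent.MP89da58.S
open Pool.Agent.BVall (OmL psiG aZ psiG_eq)
open Pool.Agent.CH.V (pz I_V)

/-- The comparison of the powers. -/
private theorem psi_pow (A : ℕ) {L : ℝ} (hL : 1 ≤ L) :
    L * (L ^ (99 / 100 : ℝ)) ^ (100 * (A + 3) + 1) ≤ L ^ (99 * A + 300) := by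
  have hL0 : 0 < L := by linarith
  rw [← Real.rpow_natCast (L ^ (99 / 100 : ℝ)), ← Real.rpow_mul hL0.le]
  have e1 : L * L ^ ((99 / 100 : ℝ) * ((100 * (A + 3) + 1 : ℕ) : ℝ)) =
      L ^ ((1 : ℝ) + (99 / 100 : ℝ) * ((100 * (A + 3) + 1 : ℕ) : ℝ)) := by
    rw [Real.rpow_add hL0, Real.rpow_one]
  rw [e1, ← Real.rpow_natCast L (99 * A + 300)]
  apply Real.rpow_le_rpow_of_exponent_le hL
  push_cast
  have : (0 : ℝ) ≤ A := Nat.cast_nonneg A
  linarith

/-- The trivial bound far away. -/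
private theorem psi_far (k E : ℕ) {L lam w : ℝ} (hL : 1 ≤ L) (hlam : 1 ≤ lam) (hlE : lam ≤ L ^ E)
    (hw : L ^ (2 * (k + 2) + E) < |2 * Real.pi * (lam * w)|) :
    L ^ (k + 2) ≤ 3 * (1 + w ^ 2) ^ (1 / 4 : ℝ) := by
  have hL0 : 0 < L := by linarith
  have hw1 : (0 : ℝ) < 1 + w ^ 2 := by positivity
  have h5 : (L ^ (k + 2)) ^ 4 ≤ (3 * (1 + w ^ 2) ^ (1 / 4 : ℝ)) ^ 4 := by
    have e2 : (3 * (1 + w ^ 2) ^ (1 / 4 : ℝ)) ^ 4 = 81 * (1 + w ^ 2) := by
      rw [mul_pow, ← Real.rpow_natCast ((1 + w ^ 2) ^ (1 / 4 : ℝ)), ← Real.rpow_mul hw1.le]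
      rw [show (1 / 4 : ℝ) * ((4 : ℕ) : ℝ) = 1 by norm_num, Real.rpow_one]
      ring
    rw [e2]
    have h6 : (L ^ (2 * (k + 2) + E)) ^ 2 ≤ |2 * Real.pi * (lam * w)| ^ 2 :=
      pow_le_pow_left₀ (by positivity) hw.le _
    rw [sq_abs] at h6
    have h7 : Real.pi < 4 := Real.pi_lt_four
    have h8 : 0 < Real.pi := Real.pi_pos
    have hw2 : 0 ≤ w ^ 2 := sq_nonneg w
    have h9 : (2 * Real.pi * (lam * w)) ^ 2 ≤ 64 * (L ^ E) ^ 2 * w ^ 2 := by
      have h10 : (2 * Real.pi) ^ 2 ≤ 64 :=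
        (pow_le_pow_left₀ (by linarith only [h8] : 0 ≤ 2 * Real.pi)
          (by linarith only [h7] : 2 * Real.pi ≤ 8) 2).trans (by norm_num)
      have h11 : lam ^ 2 ≤ (L ^ E) ^ 2 := pow_le_pow_left₀ (by linarith) hlE 2
      calc (2 * Real.pi * (lam * w)) ^ 2 = (2 * Real.pi) ^ 2 * lam ^ 2 * w ^ 2 := by ring
        _ ≤ 64 * (L ^ E) ^ 2 * w ^ 2 := by gcongr
    have h12 : (L ^ (2 * (k + 2) + E)) ^ 2 = (L ^ (k + 2)) ^ 4 * (L ^ E) ^ 2 := by ring
    rw [h12] at h6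
    have hE0 : 0 < (L ^ E) ^ 2 := by positivity
    have h13 : (L ^ (k + 2)) ^ 4 * (L ^ E) ^ 2 ≤ (64 * w ^ 2) * (L ^ E) ^ 2 := by
      linarith only [h6, h9]
    have h14 := le_of_mul_le_mul_right h13 hE0
    linarith only [h14, hw2]
  exact le_of_pow_le_pow_left₀ (by norm_num) (by positivity) h5

private lemma psi_powk (A : ℕ) (L : ℝ) : L ^ (100 * (A + 3)) = L ^ A * L ^ (99 * A + 300) := by
  have e : 100 * (A + 3) = A + (99 * A + 300) := by ring
  rw [e, pow_add]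

theorem p_psi : S_psi := by
  intro A E
  obtain ⟨k, hk⟩ : ∃ k : ℕ, k = 100 * (A + 3) := ⟨_, rfl⟩
  rw [← hk]
  obtain ⟨C, hC1, hC⟩ := Lj_trivial (k + 1)
  refine ⟨2 * (k + 2) + E, ?_⟩
  obtain ⟨J, hJ⟩ : ∃ J : ℝ, J = ∫ w : ℝ, (1 + w ^ 2) ^ (-(3 / 4) : ℝ) := ⟨_, rfl⟩
  have hJ0 : 0 ≤ J := by rw [hJ]; exact integral_nonneg (fun w => by positivity)
  have hMB := MB_pos k
  filter_upwards [eventually_ge_atTop 2,
    eventually_ge_atTop (Real.exp 1 * (2 * MB k) * (2 * Real.pi + 3 * C * J))] with L hL2 hev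
  intro lam hlam hlE a ha hbound
  have hL0 : 0 < L := by linarith
  have hLL : 2 ≤ lam * L := by nlinarith only [hlam, hL2]
  have hC0 : 0 ≤ C := by linarith only [hC1]
  rw [psiG_eq ha k hlam hL2, norm_mul, Complex.norm_real, Real.norm_of_nonneg (by positivity)]
  obtain ⟨M1, hM1⟩ : ∃ M1 : ℝ, M1 = 2 * (L ^ (99 / 100 : ℝ)) ^ (k + 1) := ⟨_, rfl⟩
  have hM10 : 0 ≤ M1 := by rw [hM1]; positivity
  rw [← hM1] at hbound
  have hpt : ∀ w : ℝ, ‖Complex.exp (((2 * Real.pi * (w * (-(lam * L))) : ℝ) : ℂ) * Complex.I) *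
      𝓕 (gk (lam * L) k) w *
      Lj a (k + 1) ((((1 + 1 / L : ℝ)) : ℂ) -
        ((2 * Real.pi * (lam * w) : ℝ) : ℂ) * Complex.I)‖ ≤
      2 * MB k * (M1 * (1 + w ^ 2)⁻¹ + 3 * C * (1 + w ^ 2) ^ (-(3 / 4) : ℝ)) := by
    intro w
    rw [norm_mul, norm_mul, Complex.norm_exp_ofReal_mul_I, one_mul]
    have hw1 : (0 : ℝ) < 1 + w ^ 2 := by positivity
    have hFk : ‖Lj a (k + 1) ((((1 + 1 / L : ℝ)) : ℂ) -
        ((2 * Real.pi * (lam * w) : ℝ) : ℂ) * Complex.I)‖ ≤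
        M1 + 3 * C * (1 + w ^ 2) ^ (1 / 4 : ℝ) := by
      rcases le_or_gt |2 * Real.pi * (lam * w)| (L ^ (2 * (k + 2) + E)) with hw | hw
      · have h3 := hbound (-(2 * Real.pi * (lam * w))) (by rwa [abs_neg])
        have e : (((1 + 1 / L : ℝ)) : ℂ) - ((2 * Real.pi * (lam * w) : ℝ) : ℂ) * Complex.I =
            sp L (-(2 * Real.pi * (lam * w))) := by
          unfold sp
          push_cast
          ring
        rw [e]
        refine h3.trans ?_
        have : 0 ≤ 3 * C * (1 + w ^ 2) ^ (1 / 4 : ℝ) := by positivity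
        linarith only [this]
      · have hre : ((((1 + 1 / L : ℝ)) : ℂ) -
            ((2 * Real.pi * (lam * w) : ℝ) : ℂ) * Complex.I).re = 1 + 1 / L := by
          rw [Complex.sub_re, Complex.ofReal_re, Complex.re_ofReal_mul, Complex.I_re]
          ring
        have hiL : 0 < 1 / L := by positivity
        have hiL1 : 1 / L ≤ 1 := by
          rw [div_le_one hL0]; linarith
        have h3 := hC a ha
          ((((1 + 1 / L : ℝ)) : ℂ) - ((2 * Real.pi * (lam * w) : ℝ) : ℂ) * Complex.I)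
          (by rw [hre]; linarith) (by rw [hre]; linarith)
        rw [hre] at h3
        have e1 : C / (1 + 1 / L - 1) ^ (k + 1 + 1) = C * L ^ (k + 2) := by
          rw [add_sub_cancel_left, one_div, inv_pow, div_inv_eq_mul]
        rw [e1] at h3
        have h4 := psi_far k E (by linarith) hlam hlE hw
        calc ‖Lj a (k + 1) ((((1 + 1 / L : ℝ)) : ℂ) -
              ((2 * Real.pi * (lam * w) : ℝ) : ℂ) * Complex.I)‖ ≤ C * L ^ (k + 2) := h3
          _ ≤ C * (3 * (1 + w ^ 2) ^ (1 / 4 : ℝ)) := by gcongr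
          _ = 3 * C * (1 + w ^ 2) ^ (1 / 4 : ℝ) := by ring
          _ ≤ _ := by linarith only [hM10]
    calc ‖𝓕 (gk (lam * L) k) w‖ * ‖Lj a (k + 1) ((((1 + 1 / L : ℝ)) : ℂ) -
          ((2 * Real.pi * (lam * w) : ℝ) : ℂ) * Complex.I)‖ ≤
          (2 * MB k * (1 + w ^ 2)⁻¹) * (M1 + 3 * C * (1 + w ^ 2) ^ (1 / 4 : ℝ)) :=
          mul_le_mul (norm_fourier_gk_le k hLL w) hFk (norm_nonneg _) (by positivity)
      _ = _ := by
          have e4 : (1 + w ^ 2)⁻¹ * (1 + w ^ 2) ^ (1 / 4 : ℝ) = (1 + w ^ 2) ^ (-(3 / 4) : ℝ) := by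
            rw [← Real.rpow_neg_one, ← Real.rpow_add hw1]
            norm_num
          rw [← e4]
          ring
  have hint : Integrable (fun w : ℝ => 2 * MB k * (M1 * (1 + w ^ 2)⁻¹ +
      3 * C * (1 + w ^ 2) ^ (-(3 / 4) : ℝ))) :=
    ((integrable_inv_one_add_sq.const_mul _).add (integrable_J.const_mul _)).const_mul _
  have hI := norm_integral_le_of_norm_le hint (Eventually.of_forall hpt)
  have hval : ∫ w : ℝ, 2 * MB k * (M1 * (1 + w ^ 2)⁻¹ +
      3 * C * (1 + w ^ 2) ^ (-(3 / 4) : ℝ)) =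
      2 * MB k * (M1 * Real.pi + 3 * C * J) := by
    rw [integral_const_mul, integral_add (integrable_inv_one_add_sq.const_mul _)
      (integrable_J.const_mul _), integral_const_mul, integral_const_mul,
      integral_univ_inv_one_add_sq, ← hJ]
  rw [hval] at hI
  have hXc : (Real.exp L) ^ (1 + 1 / L) = Real.exp L * Real.exp 1 := by
    rw [← Real.exp_mul, ← Real.exp_add]
    congr 1
    field_simp
  rw [hXc]
  have hLk : L ^ k = L ^ A * L ^ (99 * A + 300) := by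
    rw [hk]
    exact psi_powk A L
  have hfin : Real.exp 1 * (2 * MB k * (M1 * Real.pi + 3 * C * J)) ≤ L ^ (99 * A + 300) := by
    obtain ⟨Y, hY⟩ : ∃ Y : ℝ, Y = (L ^ (99 / 100 : ℝ)) ^ (k + 1) := ⟨_, rfl⟩
    have hY1 : 1 ≤ Y := by
      rw [hY]
      exact one_le_pow₀ (Real.one_le_rpow (by linarith) (by norm_num))
    have h5 : M1 * Real.pi + 3 * C * J ≤ (2 * Real.pi + 3 * C * J) * Y := by
      have h6 : 3 * C * J ≤ 3 * C * J * Y :=
        le_mul_of_one_le_right (by positivity) hY1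
      calc M1 * Real.pi + 3 * C * J ≤ 2 * Y * Real.pi + 3 * C * J * Y := by
            rw [hM1, hY] at *; linarith only [h6]
        _ = _ := by ring
    calc Real.exp 1 * (2 * MB k * (M1 * Real.pi + 3 * C * J)) ≤
          Real.exp 1 * (2 * MB k * ((2 * Real.pi + 3 * C * J) * Y)) := by gcongr
      _ = (Real.exp 1 * (2 * MB k) * (2 * Real.pi + 3 * C * J)) * Y := by ring
      _ ≤ L * Y := mul_le_mul_of_nonneg_right hev (by linarith)
      _ ≤ L ^ (99 * A + 300) := by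
          rw [hY, hk]
          exact psi_pow A (by linarith)
  have hLA : 0 < L ^ A := by positivity
  have hLA2 : 0 < L ^ (99 * A + 300) := by positivity
  calc Real.exp L * Real.exp 1 / L ^ k * ‖∫ w : ℝ, _‖ ≤
        Real.exp L * Real.exp 1 / L ^ k * (2 * MB k * (M1 * Real.pi + 3 * C * J)) := by
        apply mul_le_mul_of_nonneg_left hI (by positivity)
    _ = Real.exp L / L ^ A * ((Real.exp 1 * (2 * MB k * (M1 * Real.pi + 3 * C * J))) /
          L ^ (99 * A + 300)) := by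
        rw [hLk]
        field_simp
    _ ≤ Real.exp L / L ^ A * 1 := by
        apply mul_le_mul_of_nonneg_left _ (by positivity)
        rw [div_le_one hLA2]
        exact hfin
    _ = _ := mul_one _

end Pool.Agent.CH.P
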