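import Pool.Agent.Lib.MP_d610d0_nt.CH.P.Stm

set_option autoImplicit false

/-!
Piece rank.
-/

namespace Pool.Agent.CH.P

open Finset Filter
open ArithmeticFunction (vonMangoldt)
open Pool.Agent.MP89da58 (tri)
open Pool.Agent.MP89da58.S (Lj aL Fk)
open Pool.Agent.BVall (OmL psiG aZ)
open Pool.Agent.CH.V (pz I_V)

/-- The arithmetic function `n ↦ n^a`. -/
private noncomputable def rank_f (a : ℝ) : ArithmeticFunction ℝ :=
  ⟨fun n => if n = 0 then 0 else (n : ℝ) ^ a, by simp⟩

private theorem rank_f_mult (a : ℝ) : (rank_f a).IsMultiplicative := by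
  refine ⟨by simp [rank_f], ?_⟩
  intro m n _
  by_cases hm : m = 0
  · simp [rank_f, hm]
  by_cases hn : n = 0
  · simp [rank_f, hn]
  · simp only [rank_f, ArithmeticFunction.coe_mk, hm, hn, mul_eq_zero, or_self, if_false]
    push_cast
    exact Real.mul_rpow (Nat.cast_nonneg _) (Nat.cast_nonneg _)

private theorem rank_prod (a : ℝ) (N : ℕ) :
    ∑ d ∈ (primorial N).divisors, (d : ℝ) ^ a = ∏ p ∈ Nat.primesLE N, (1 + (p : ℝ) ^ a) := by
  have h := (rank_f_mult a).prodPrimeFactors_one_add_of_squarefree (squarefree_primorial N)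
  rw [primeFactors_primorial] at h
  have h1 : ∏ p ∈ Nat.primesLE N, (1 + rank_f a p) = ∏ p ∈ Nat.primesLE N, (1 + (p : ℝ) ^ a) := by
    refine Finset.prod_congr rfl fun p hp => ?_
    have : p ≠ 0 := by
      have := (Nat.mem_primesLE.1 hp).2.ne_zero
      exact this
    simp [rank_f, this]
  have h2 : ∑ d ∈ (primorial N).divisors, rank_f a d = ∑ d ∈ (primorial N).divisors, (d : ℝ) ^ a := by
    refine Finset.sum_congr rfl fun p hp => ?_
    have : p ≠ 0 := (Nat.pos_of_mem_divisors hp).ne'
    simp [rank_f, this]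
  rw [← h1, ← h2, h]

theorem p_rank : S_rank := by
  rintro ⟨C0, hC0⟩
  have hl2 : (0 : ℝ) < Real.log 2 := Real.log_pos one_lt_two
  set C1 : ℝ := 1 / 2 + (-Real.log (Real.log 2)) + |C0| / Real.log 2 with hC1
  refine ⟨Real.exp (Real.exp 1 * C1), ?_⟩
  filter_upwards [eventually_ge_atTop (1 : ℝ)] with l hl D hD
  have hl0 : (0 : ℝ) < l := by linarith
  set M : ℝ := l ^ (9 / 10 : ℝ) with hM
  have hM1 : 1 ≤ M := Real.one_le_rpow hl (by norm_num)
  have hM0 : 0 < M := by linarith
  set N : ℕ := ⌊Real.exp M⌋₊ with hN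
  have hD0 : 0 < D := by linarith
  -- step 1: Rankin
  have step1 : ∑ d ∈ (PP l).divisors.filter (fun d : ℕ => D < (d : ℝ)), (1 : ℝ) / d
      ≤ Real.exp (-(Real.log D / M)) * ∑ d ∈ (PP l).divisors, (d : ℝ) ^ (1 / M - 1) := by
    rw [Finset.mul_sum]
    calc ∑ d ∈ (PP l).divisors.filter (fun d : ℕ => D < (d : ℝ)), (1 : ℝ) / d
        ≤ ∑ d ∈ (PP l).divisors.filter (fun d : ℕ => D < (d : ℝ)),
            Real.exp (-(Real.log D / M)) * (d : ℝ) ^ (1 / M - 1) := by
          refine Finset.sum_le_sum fun d hd => ?_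
          rw [Finset.mem_filter] at hd
          have hd0 : (0 : ℝ) < d := by linarith [hd.2]
          have e1 : (d : ℝ) ^ (1 / M - 1) = Real.exp (Real.log d / M) * (1 / d) := by
            rw [Real.rpow_sub hd0, Real.rpow_one, Real.rpow_def_of_pos hd0]
            rw [mul_one_div, div_eq_mul_one_div]
          rw [e1, ← mul_assoc, ← Real.exp_add]
          have hlog : Real.log D ≤ Real.log d := Real.log_le_log hD0 hd.2.le
          have h1 : 0 ≤ -(Real.log D / M) + Real.log d / M := by
            have : Real.log D / M ≤ Real.log d / M := by gcongr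
            linarith
          have h2 : 1 ≤ Real.exp (-(Real.log D / M) + Real.log d / M) := Real.one_le_exp h1
          have h3 : (0 : ℝ) ≤ 1 / d := by positivity
          nlinarith
      _ ≤ ∑ d ∈ (PP l).divisors, Real.exp (-(Real.log D / M)) * (d : ℝ) ^ (1 / M - 1) := by
          refine Finset.sum_le_sum_of_subset_of_nonneg (Finset.filter_subset _ _) ?_
          intro i _ _
          positivity
  -- step 2: the product
  have step2 : ∑ d ∈ (PP l).divisors, (d : ℝ) ^ (1 / M - 1)
      ≤ Real.exp (Real.exp 1 * ∑ p ∈ Nat.primesLE N, (1 : ℝ) / p) := by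
    have e0 : PP l = primorial N := rfl
    rw [e0, rank_prod, Finset.mul_sum, Real.exp_sum]
    refine Finset.prod_le_prod (fun p _ => by positivity) fun p hp => ?_
    have hp' := Nat.mem_primesLE.1 hp
    have hp0 : (0 : ℝ) < p := by exact_mod_cast hp'.2.pos
    have hpN : (p : ℝ) ≤ Real.exp M := by
      have h1 : (p : ℝ) ≤ N := by exact_mod_cast hp'.1
      exact h1.trans (Nat.floor_le (Real.exp_pos _).le)
    have e1 : (p : ℝ) ^ (1 / M - 1) = Real.exp (Real.log p / M) * (1 / p) := by
      rw [Real.rpow_sub hp0, Real.rpow_one, Real.rpow_def_of_pos hp0]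
      rw [mul_one_div, div_eq_mul_one_div]
    have h2 : Real.log p / M ≤ 1 := by
      rw [div_le_one hM0]
      exact (Real.log_le_iff_le_exp hp0).2 hpN
    have h3 : Real.exp (Real.log p / M) ≤ Real.exp 1 := Real.exp_le_exp.2 h2
    have h4 : (0 : ℝ) ≤ 1 / p := by positivity
    calc 1 + (p : ℝ) ^ (1 / M - 1) ≤ 1 + Real.exp 1 * (1 / p) := by
          rw [e1]; gcongr
      _ ≤ Real.exp (Real.exp 1 * (1 / p)) := by
          have := Real.add_one_le_exp (Real.exp 1 * (1 / p))
          linarith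
  -- step 3: Mertens
  have hN2 : 2 ≤ N := by
    rw [hN]
    apply Nat.le_floor
    have : (2 : ℝ) ≤ Real.exp 1 := by
      have := Real.exp_one_gt_d9
      linarith
    calc ((2 : ℕ) : ℝ) = 2 := by norm_num
      _ ≤ Real.exp 1 := this
      _ ≤ Real.exp M := Real.exp_le_exp.2 hM1
  have step3 : ∑ p ∈ Nat.primesLE N, (1 : ℝ) / p ≤ Real.log M + C1 := by
    have hsplit : Nat.primesLE N = insert 2 ((Ioc 2 N).filter Nat.Prime) := by
      ext p
      simp only [Nat.mem_primesLE, Finset.mem_insert, Finset.mem_filter, Finset.mem_Ioc]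
      constructor
      · rintro ⟨h1, h2⟩
        rcases h2.two_le.eq_or_lt with h | h
        · exact Or.inl h.symm
        · exact Or.inr ⟨⟨h, h1⟩, h2⟩
      · rintro (h | ⟨⟨_, h1⟩, h2⟩)
        · subst h; exact ⟨hN2, Nat.prime_two⟩
        · exact ⟨h1, h2⟩
    rw [hsplit, Finset.sum_insert (by simp)]
    have h1 := hC0 2 N le_rfl hN2
    have h2 : ∑ p ∈ (Ioc 2 N).filter Nat.Prime, (1 : ℝ) / p
        ≤ Real.log (Real.log N / Real.log 2) + C0 / Real.log 2 := by
      have := (abs_le.1 h1).2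
      push_cast at this
      linarith
    have hNpos : (0 : ℝ) < N := by
      have : (2 : ℝ) ≤ N := by exact_mod_cast hN2
      linarith
    have hlogN : Real.log N ≤ M := by
      rw [Real.log_le_iff_le_exp hNpos]
      exact Nat.floor_le (Real.exp_pos _).le
    have hlogN0 : 0 < Real.log N := Real.log_pos (by
      have : (2 : ℝ) ≤ N := by exact_mod_cast hN2
      linarith)
    have h3 : Real.log (Real.log N / Real.log 2) ≤ Real.log M - Real.log (Real.log 2) := by
      rw [Real.log_div hlogN0.ne' hl2.ne']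
      have := Real.log_le_log hlogN0 hlogN
      linarith
    have h4 : C0 / Real.log 2 ≤ |C0| / Real.log 2 := by
      gcongr
      exact le_abs_self _
    rw [hC1]
    push_cast
    linarith
  -- step 4: assemble
  have step4 : Real.exp (Real.exp 1 * ∑ p ∈ Nat.primesLE N, (1 : ℝ) / p)
      ≤ Real.exp (Real.exp 1 * C1) * l ^ 3 := by
    have e3 : (l : ℝ) ^ 3 = Real.exp (3 * Real.log l) := by
      rw [mul_comm, Real.exp_mul, Real.exp_log hl0]
      norm_cast
    rw [e3, ← Real.exp_add]
    apply Real.exp_le_exp.2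
    have h1 : Real.exp 1 * ∑ p ∈ Nat.primesLE N, (1 : ℝ) / p ≤ Real.exp 1 * (Real.log M + C1) := by
      gcongr
    have h2 : Real.log M = 9 / 10 * Real.log l := by
      rw [hM, Real.log_rpow hl0]
    have h3 : 0 ≤ Real.log l := Real.log_nonneg hl
    have h4 : Real.exp 1 ≤ 3 := by
      have := Real.exp_one_lt_d9
      linarith
    have h5 : Real.exp 1 * Real.log M ≤ 3 * Real.log l := by
      rw [h2]
      nlinarith
    nlinarith
  calc ∑ d ∈ (PP l).divisors.filter (fun d : ℕ => D < (d : ℝ)), (1 : ℝ) / d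
      ≤ Real.exp (-(Real.log D / M)) * ∑ d ∈ (PP l).divisors, (d : ℝ) ^ (1 / M - 1) := step1
    _ ≤ Real.exp (-(Real.log D / M)) * (Real.exp (Real.exp 1 * C1) * l ^ 3) := by
        gcongr
        exact step2.trans step4
    _ = Real.exp (Real.exp 1 * C1) * l ^ 3 * Real.exp (-(Real.log D / M)) := by ring

end Pool.Agent.CH.P
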