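import Pool.Agent.Lib.MP_d610d0_nt.CH.P.Stm

set_option autoImplicit false

/-!
Piece rgh.
-/

namespace Pool.Agent.CH.P

open Finset Filter
open ArithmeticFunction (vonMangoldt)
open Pool.Agent.MP89da58 (tri)
open Pool.Agent.MP89da58.S (Lj aL Fk)
open Pool.Agent.BVall (OmL psiG aZ)
open Pool.Agent.CH.V (pz I_V)

theorem rgh_pz_norm (t x : ℝ) : ‖pz t x‖ = 1 := by
  unfold pz
  rw [Complex.norm_exp]
  simp

theorem rgh_pz_mul (t x y : ℝ) (hx : 0 < x) (hy : 0 < y) : pz t (x * y) = pz t x * pz t y := by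
  unfold pz
  rw [← Complex.exp_add, Real.log_mul hx.ne' hy.ne']
  congr 1
  push_cast
  ring

theorem rgh_chy {r : ℕ} (χ : DirichletCharacter ℂ r) (P n : ℕ) :
    chy χ P (n : ZMod (r * P)) = if n.Coprime P then χ (n : ZMod r) else 0 := by
  by_cases h : n.Coprime (r * P)
  · have h1 : n.Coprime P := Nat.Coprime.coprime_mul_left_right h
    rw [if_pos h1]
    have := DirichletCharacter.changeLevel_eq_cast_of_dvd' χ (dvd_mul_right r P) (a := (n : ℤ))
      (Nat.isCoprime_iff_coprime.2 h)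
    simpa [chy] using this
  · have h0 : ¬ IsUnit ((n : ℕ) : ZMod (r * P)) := by rwa [ZMod.isUnit_iff_coprime]
    rw [chy, MulChar.map_nonunit _ h0]
    split_ifs with h1
    · have h2 : ¬ n.Coprime r := fun h2 => h (Nat.Coprime.mul_right h2 h1)
      rw [MulChar.map_nonunit]
      rwa [ZMod.isUnit_iff_coprime]
    · rfl

theorem rgh_moeb (P n : ℕ) (hP : P ≠ 0) :
    ∑ d ∈ P.divisors.filter (fun d => d ∣ n), ((ArithmeticFunction.moebius d : ℤ) : ℂ) =
      if n.Coprime P then 1 else 0 := by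
  have e : P.divisors.filter (fun d => d ∣ n) = (n.gcd P).divisors := by
    ext d
    rw [mem_filter, Nat.mem_divisors, Nat.mem_divisors, Nat.dvd_gcd_iff]
    constructor
    · rintro ⟨⟨h1, h2⟩, h3⟩
      exact ⟨⟨h3, h1⟩, Nat.gcd_ne_zero_right hP⟩
    · rintro ⟨⟨h1, h2⟩, h3⟩
      exact ⟨⟨h2, hP⟩, h1⟩
  rw [e]
  have h := congrArg (fun f : ArithmeticFunction ℤ => f (n.gcd P))
    ArithmeticFunction.moebius_mul_coe_zeta
  simp only [ArithmeticFunction.coe_mul_zeta_apply, ArithmeticFunction.one_apply] at h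
  rw [← Int.cast_sum, h]
  unfold Nat.Coprime
  split_ifs <;> simp

theorem rgh_fil (N d : ℕ) (hd : 0 < d) :
    (Icc 1 N).filter (fun n => d ∣ n) = (Icc 1 (N / d)).image (fun m => d * m) := by
  ext n
  rw [mem_filter, mem_image, mem_Icc]
  constructor
  · rintro ⟨⟨h1, h2⟩, m, rfl⟩
    refine ⟨m, mem_Icc.2 ⟨?_, ?_⟩, rfl⟩
    · rcases Nat.eq_zero_or_pos m with h | h
      · subst h; omega
      · exact h
    · exact (Nat.le_div_iff_mul_le hd).2 (by rwa [mul_comm])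
  · rintro ⟨m, hm, rfl⟩
    rw [mem_Icc] at hm
    refine ⟨⟨Nat.mul_pos hd hm.1, ?_⟩, dvd_mul_right d m⟩
    rw [mul_comm]
    exact (Nat.le_div_iff_mul_le hd).1 hm.2

theorem rgh_id {r : ℕ} (χ : DirichletCharacter ℂ r) (P N : ℕ) (hP : P ≠ 0) (t : ℝ) :
    ∑ n ∈ Icc 1 N, chy χ P (n : ZMod (r * P)) * pz t n =
      ∑ d ∈ P.divisors, ((ArithmeticFunction.moebius d : ℤ) : ℂ) * (χ (d : ZMod r) * pz t d) *
        ∑ m ∈ Icc 1 (N / d), χ (m : ZMod r) * pz t m := by
  have h1 : ∀ n ∈ Icc 1 N, chy χ P (n : ZMod (r * P)) * pz t n =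
      ∑ d ∈ P.divisors, if d ∣ n then
        ((ArithmeticFunction.moebius d : ℤ) : ℂ) * (χ (n : ZMod r) * pz t n) else 0 := by
    intro n _
    rw [rgh_chy, ← sum_filter, ← sum_mul, rgh_moeb P n hP]
    split_ifs <;> simp
  rw [sum_congr rfl h1, sum_comm]
  refine sum_congr rfl fun d hd => ?_
  have hd0 : 0 < d := Nat.pos_of_mem_divisors hd
  rw [← sum_filter, rgh_fil N d hd0, sum_image (fun a _ b _ h => Nat.eq_of_mul_eq_mul_left hd0 h),
    mul_sum]
  refine sum_congr rfl fun m hm => ?_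
  have hm0 : 0 < m := (mem_Icc.1 hm).1
  rw [Nat.cast_mul, map_mul, Nat.cast_mul, rgh_pz_mul t d m (by exact_mod_cast hd0)
    (by exact_mod_cast hm0)]
  ring

theorem rgh_triv {r : ℕ} (χ : DirichletCharacter ℂ r) (K : ℕ) (t : ℝ) :
    ‖∑ m ∈ Icc 1 K, χ (m : ZMod r) * pz t m‖ ≤ K := by
  refine (norm_sum_le _ _).trans ?_
  have : ∀ m ∈ Icc 1 K, ‖χ (m : ZMod r) * pz t m‖ ≤ 1 := by
    intro m _
    rw [norm_mul, rgh_pz_norm, mul_one]
    exact DirichletCharacter.norm_le_one χ _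
  refine (sum_le_sum this).trans ?_
  simp

theorem rgh_norm {r : ℕ} (χ : DirichletCharacter ℂ r) (P N : ℕ) (hP : P ≠ 0) (t : ℝ) :
    ‖∑ n ∈ Icc 1 N, chy χ P (n : ZMod (r * P)) * pz t n‖ ≤
      ∑ d ∈ P.divisors, ‖∑ m ∈ Icc 1 (N / d), χ (m : ZMod r) * pz t m‖ := by
  rw [rgh_id χ P N hP t]
  refine (norm_sum_le _ _).trans (sum_le_sum fun d _ => ?_)
  rw [norm_mul, norm_mul, norm_mul, rgh_pz_norm, mul_one]
  have h1 : ‖((ArithmeticFunction.moebius d : ℤ) : ℂ)‖ ≤ 1 := by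
    rw [Complex.norm_intCast]
    exact_mod_cast ArithmeticFunction.abs_moebius_le_one
  have h2 : ‖χ (d : ZMod r)‖ ≤ 1 := DirichletCharacter.norm_le_one χ _
  have h3 : ‖((ArithmeticFunction.moebius d : ℤ) : ℂ)‖ * ‖χ (d : ZMod r)‖ ≤ 1 :=
    mul_le_one₀ h1 (norm_nonneg _) h2
  exact mul_le_of_le_one_left (norm_nonneg _) h3

theorem rgh_harm (s : Finset ℕ) (N : ℕ) (hs : ∀ d ∈ s, 1 ≤ d ∧ d ≤ N) :
    ∑ d ∈ s, (1 : ℝ) / d ≤ 1 + Real.log N := by
  have h1 : ∑ d ∈ s, (1 : ℝ) / d ≤ ∑ d ∈ Icc 1 N, (1 : ℝ) / d :=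
    sum_le_sum_of_subset_of_nonneg (fun d hd => mem_Icc.2 (hs d hd)) fun _ _ _ => by positivity
  refine h1.trans ?_
  have h2 := harmonic_le_one_add_log N
  rw [harmonic_eq_sum_Icc] at h2
  simpa using h2

theorem rgh_ev1 : ∀ᶠ l : ℝ in atTop, l ^ (451 / 500 : ℝ) ≤ l ^ (905 / 1000 : ℝ) / 2 - 1 := by
  have h1 : ∀ᶠ l : ℝ in atTop, 4 ≤ l ^ (3 / 1000 : ℝ) :=
    (tendsto_rpow_atTop (by norm_num)).eventually_ge_atTop 4
  filter_upwards [h1, eventually_ge_atTop 1] with l h1 h2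
  have h3 : (1 : ℝ) ≤ l ^ (451 / 500 : ℝ) := Real.one_le_rpow h2 (by norm_num)
  have h4 : l ^ (905 / 1000 : ℝ) = l ^ (451 / 500 : ℝ) * l ^ (3 / 1000 : ℝ) := by
    rw [← Real.rpow_add (by linarith)]; norm_num
  rw [h4]
  nlinarith

theorem rgh_ev2 : ∀ᶠ l : ℝ in atTop, 4 * l ^ (11 / 10 : ℝ) ≤ l ^ 2 := by
  have h1 : ∀ᶠ l : ℝ in atTop, 4 ≤ l ^ (9 / 10 : ℝ) :=
    (tendsto_rpow_atTop (by norm_num)).eventually_ge_atTop 4
  filter_upwards [h1, eventually_ge_atTop 1] with l h1 h2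
  have h3 : (0 : ℝ) ≤ l ^ (11 / 10 : ℝ) := by positivity
  have h4 : l ^ 2 = l ^ (11 / 10 : ℝ) * l ^ (9 / 10 : ℝ) := by
    rw [← Real.rpow_add (by linarith), ← Real.rpow_natCast]; norm_num
  rw [h4]
  nlinarith

theorem rgh_ev3 (C : ℝ) (A : ℕ) : ∀ᶠ l : ℝ in atTop,
    C * l ^ 3 * Real.exp (-(l ^ (1 / 200 : ℝ) / 2)) ≤ 1 / (2 * l ^ A) := by
  have h0 : Tendsto (fun l : ℝ => l ^ (1 / 200 : ℝ) / 2) atTop atTop :=
    (tendsto_rpow_atTop (by norm_num)).atTop_div_const (by norm_num)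
  have h1 := (Real.tendsto_pow_mul_exp_neg_atTop_nhds_zero (200 * (A + 3))).comp h0
  have h2 : Tendsto (fun l : ℝ => (2 * C * 2 ^ (200 * (A + 3))) *
      ((l ^ (1 / 200 : ℝ) / 2) ^ (200 * (A + 3)) * Real.exp (-(l ^ (1 / 200 : ℝ) / 2)))) atTop
      (nhds ((2 * C * 2 ^ (200 * (A + 3))) * 0)) := h1.const_mul _
  rw [mul_zero] at h2
  have h3 := h2.eventually (eventually_le_nhds (show (0 : ℝ) < 1 by norm_num))
  filter_upwards [h3, eventually_gt_atTop 0] with l h3 hl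
  have h4 : (l ^ (1 / 200 : ℝ) / 2) ^ (200 * (A + 3)) = l ^ (A + 3) / 2 ^ (200 * (A + 3)) := by
    rw [div_pow, ← Real.rpow_natCast, ← Real.rpow_mul hl.le]
    congr 1
    rw [← Real.rpow_natCast]
    congr 1
    push_cast
    ring
  rw [h4] at h3
  have h5 : 2 * C * 2 ^ (200 * (A + 3)) * (l ^ (A + 3) / 2 ^ (200 * (A + 3)) *
      Real.exp (-(l ^ (1 / 200 : ℝ) / 2))) =
      (C * l ^ 3 * Real.exp (-(l ^ (1 / 200 : ℝ) / 2))) * (2 * l ^ A) := by
    field_simp
    ring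
  rw [h5] at h3
  exact (le_div_iff₀ (by positivity)).2 h3

theorem p_rgh : S_rgh := by
  rintro hcls ⟨C, hrank⟩ A B κ hκ
  filter_upwards [hcls (A + 2) B κ hκ, hrank, rgh_ev1, rgh_ev2, rgh_ev3 |C| A,
    eventually_ge_atTop 1] with l hc hr e1 e2 e3 hl r χ hr1 hrB t N ht1 ht2 hN1 hN2
  have hl0 : 0 < l := by linarith
  have hP : PP l ≠ 0 := by
    unfold PP
    exact (primorial_pos _).ne'
  have hNlog : 1 ≤ Real.log N := le_trans (Real.one_le_rpow hl (by norm_num)) hN1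
  have hN0 : (1 : ℝ) ≤ N := by
    rcases Nat.eq_zero_or_pos N with h | h
    · subst h
      simp at hNlog
      linarith
    · exact_mod_cast h
  have hNpos : (0 : ℝ) < N := by linarith
  refine (rgh_norm χ (PP l) N hP t).trans ?_
  rw [← sum_filter_add_sum_filter_not (PP l).divisors (fun d : ℕ => Real.sqrt N < (d : ℝ))]
  have hs1 : 1 ≤ Real.sqrt N := Real.one_le_sqrt.2 hN0
  -- large divisors
  have b1 : ∑ d ∈ (PP l).divisors.filter (fun d : ℕ => Real.sqrt N < (d : ℝ)),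
      ‖∑ m ∈ Icc 1 (N / d), χ (m : ZMod r) * pz t m‖ ≤ N * (1 / (2 * l ^ A)) := by
    have h1 : ∑ d ∈ (PP l).divisors.filter (fun d : ℕ => Real.sqrt N < (d : ℝ)),
        ‖∑ m ∈ Icc 1 (N / d), χ (m : ZMod r) * pz t m‖ ≤
        ∑ d ∈ (PP l).divisors.filter (fun d : ℕ => Real.sqrt N < (d : ℝ)), (N : ℝ) * (1 / d) := by
      refine sum_le_sum fun d _ => (rgh_triv χ _ t).trans ?_
      rw [mul_one_div]
      exact Nat.cast_div_le
    refine h1.trans ?_
    rw [← mul_sum]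
    refine mul_le_mul_of_nonneg_left ?_ hNpos.le
    refine (hr (Real.sqrt N) hs1).trans (le_trans ?_ e3)
    have h2 : Real.log (Real.sqrt N) = Real.log N / 2 := Real.log_sqrt hNpos.le
    have h3 : l ^ (1 / 200 : ℝ) / 2 ≤ Real.log (Real.sqrt N) / l ^ (9 / 10 : ℝ) := by
      rw [h2, le_div_iff₀ (by positivity)]
      have : l ^ (905 / 1000 : ℝ) = l ^ (1 / 200 : ℝ) * l ^ (9 / 10 : ℝ) := by
        rw [← Real.rpow_add hl0]; norm_num
      rw [this] at hN1
      linarith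
    have h4 : Real.exp (-(Real.log (Real.sqrt N) / l ^ (9 / 10 : ℝ))) ≤
        Real.exp (-(l ^ (1 / 200 : ℝ) / 2)) := Real.exp_le_exp.2 (neg_le_neg h3)
    have h5 : C * l ^ 3 ≤ |C| * l ^ 3 := mul_le_mul_of_nonneg_right (le_abs_self C) (by positivity)
    exact mul_le_mul h5 h4 (Real.exp_pos _).le (by positivity)
  -- small divisors
  have b2 : ∑ d ∈ (PP l).divisors.filter (fun d : ℕ => ¬ Real.sqrt N < (d : ℝ)),
      ‖∑ m ∈ Icc 1 (N / d), χ (m : ZMod r) * pz t m‖ ≤ N * (1 / (2 * l ^ A)) := by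
    have h1 : ∀ d ∈ (PP l).divisors.filter (fun d : ℕ => ¬ Real.sqrt N < (d : ℝ)),
        ‖∑ m ∈ Icc 1 (N / d), χ (m : ZMod r) * pz t m‖ ≤ (N / l ^ (A + 2)) * (1 / d) := by
      intro d hd
      rw [mem_filter, not_lt] at hd
      obtain ⟨hd1, hd2⟩ := hd
      have hd0 : 0 < d := Nat.pos_of_mem_divisors hd1
      have hd0' : (0 : ℝ) < d := by exact_mod_cast hd0
      have g1 : Real.sqrt N ≤ N / d := by
        rw [le_div_iff₀ hd0']
        calc Real.sqrt N * d ≤ Real.sqrt N * Real.sqrt N :=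
              mul_le_mul_of_nonneg_left hd2 (by positivity)
          _ = N := Real.mul_self_sqrt hNpos.le
      have g2 : (N : ℝ) / d < ((N / d : ℕ) : ℝ) + 1 := by
        rw [div_lt_iff₀ hd0']
        have h5 := Nat.div_add_mod N d
        have h6 := Nat.mod_lt N hd0
        have h7 : N < (N / d + 1) * d := by
          rw [add_mul, one_mul, mul_comm]
          omega
        exact_mod_cast h7
      have g3 : l ^ (451 / 500 : ℝ) ≤ Real.log ((N / d : ℕ) : ℝ) := by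
        have h5 : (1 : ℝ) ≤ l ^ (451 / 500 : ℝ) := Real.one_le_rpow hl (by norm_num)
        have h6 : 2 ≤ Real.log N / 2 := by linarith
        have h7 : Real.sqrt N = Real.exp (Real.log N / 2) := by
          rw [← Real.log_sqrt hNpos.le, Real.exp_log (by linarith)]
        have h8 : 2 ≤ Real.sqrt N := by
          rw [h7]
          have := Real.add_one_le_exp (Real.log N / 2)
          linarith
        have h9 : Real.sqrt N / 2 ≤ ((N / d : ℕ) : ℝ) := by linarith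
        have h10 : Real.log (Real.sqrt N / 2) = Real.log N / 2 - Real.log 2 := by
          rw [Real.log_div (by linarith) (by norm_num), Real.log_sqrt hNpos.le]
        have h11 : Real.log 2 ≤ 1 := by
          have := Real.log_le_sub_one_of_pos (show (0 : ℝ) < 2 by norm_num)
          linarith
        have h12 := Real.log_le_log (by linarith) h9
        linarith
      have g4 := hc r χ hr1 hrB t (N / d) (by simpa [add_assoc] using ht1) ht2 g3
      refine g4.trans ?_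
      rw [mul_one_div, div_right_comm]
      exact div_le_div_of_nonneg_right Nat.cast_div_le (by positivity)
    refine (sum_le_sum h1).trans ?_
    rw [← mul_sum]
    have h2 : ∑ d ∈ (PP l).divisors.filter (fun d : ℕ => ¬ Real.sqrt N < (d : ℝ)), (1 : ℝ) / d ≤
        1 + Real.log N := by
      refine rgh_harm _ N fun d hd => ?_
      rw [mem_filter, not_lt] at hd
      refine ⟨Nat.pos_of_mem_divisors hd.1, ?_⟩
      have : (d : ℝ) ≤ N := hd.2.trans (by
        rw [Real.sqrt_le_left hNpos.le]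
        nlinarith)
      exact_mod_cast this
    have h3 : 1 + Real.log N ≤ 2 * l ^ (11 / 10 : ℝ) := by linarith
    have h4 : (N : ℝ) / l ^ (A + 2) * (2 * l ^ (11 / 10 : ℝ)) ≤ N * (1 / (2 * l ^ A)) := by
      rw [div_mul_eq_mul_div, mul_one_div, div_le_div_iff₀ (by positivity) (by positivity), pow_add]
      have : (0 : ℝ) ≤ N * l ^ A := by positivity
      nlinarith
    refine le_trans ?_ h4
    exact mul_le_mul_of_nonneg_left (h2.trans h3) (by positivity)
  have : (N : ℝ) / l ^ A = N * (1 / (2 * l ^ A)) + N * (1 / (2 * l ^ A)) := by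
    field_simp
    ring
  rw [this]
  exact add_le_add b1 b2

end Pool.Agent.CH.P
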