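import Pool.Agent.Lib.MP_d610d0_nt.CH.P.Stm

set_option autoImplicit false

/-!
Piece shp.
-/

namespace Pool.Agent.CH.P

open Finset Filter
open ArithmeticFunction (vonMangoldt)
open Pool.Agent.MP89da58 (tri)
open Pool.Agent.MP89da58.S (Lj aL Fk)
open Pool.Agent.BVall (OmL psiG aZ)
open Pool.Agent.CH.V (pz I_V)

private theorem shp_tri_zero {u : ℝ} (h : 1 ≤ |u|) : tri u = 0 :=
  max_eq_left (by linarith)

private theorem shp_tri_ne {u : ℝ} (h : tri u ≠ 0) : |u| < 1 := by
  by_contra h1
  exact h (shp_tri_zero (not_lt.mp h1))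

private theorem shp_tri_floor {x : ℝ} (hx : 0 ≤ x) :
    tri (x - (⌊x⌋₊ : ℕ)) + tri (x - ((⌊x⌋₊ + 1 : ℕ) : ℝ)) = 1 := by
  have h1 := Nat.floor_le hx
  have h2 := Nat.lt_floor_add_one x
  push_cast
  unfold tri
  rw [abs_of_nonneg (by linarith), abs_of_nonpos (by linarith), max_eq_right (by linarith),
    max_eq_right (by linarith)]
  ring

private theorem shp_tri_far {x : ℝ} (hx : 0 ≤ x) {i : ℕ} (h1 : i ≠ ⌊x⌋₊) (h2 : i ≠ ⌊x⌋₊ + 1) :
    tri (x - i) = 0 := by
  apply shp_tri_zero
  rcases lt_or_gt_of_ne h1 with h | h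
  · have h3 : (i : ℝ) + 1 ≤ (⌊x⌋₊ : ℝ) := by exact_mod_cast h
    have h4 := Nat.floor_le hx
    rw [abs_of_nonneg (by linarith)]
    linarith
  · have h3 : (⌊x⌋₊ : ℝ) + 2 ≤ i := by
      have : ⌊x⌋₊ + 2 ≤ i := by omega
      exact_mod_cast this
    have h4 := Nat.lt_floor_add_one x
    rw [abs_of_nonpos (by linarith)]
    linarith

private theorem shp_two {x : ℝ} (hx : 0 ≤ x) (I : Finset ℕ) (h1 : ⌊x⌋₊ ∈ I)
    (h2 : ⌊x⌋₊ + 1 ∈ I) : ∑ i ∈ I, tri (x - i) = 1 := by
  rw [← shp_tri_floor hx]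
  have h3 : ({⌊x⌋₊, ⌊x⌋₊ + 1} : Finset ℕ) ⊆ I := by
    intro i hi
    simp only [Finset.mem_insert, Finset.mem_singleton] at hi
    rcases hi with rfl | rfl <;> assumption
  rw [← Finset.sum_subset h3, Finset.sum_pair (by omega)]
  intro i _ hi
  simp only [Finset.mem_insert, Finset.mem_singleton, not_or] at hi
  exact shp_tri_far hx hi.1 hi.2

private theorem shp_le_one {x : ℝ} (hx : 0 ≤ x) (I : Finset ℕ) : ∑ i ∈ I, tri (x - i) ≤ 1 := by
  rw [← shp_two hx (I ∪ {⌊x⌋₊, ⌊x⌋₊ + 1}) (by simp) (by simp)]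
  exact Finset.sum_le_sum_of_subset_of_nonneg Finset.subset_union_left
    (fun _ _ _ => Pool.Agent.MP89da58.tri_nonneg _)

/-- geometric sum -/
private theorem shp_geom {lam : ℝ} (hlam : 0 < lam) (N : ℕ) :
    ∑ i ∈ Finset.range N, Real.exp (i / lam) ≤ lam * Real.exp (N / lam) := by
  induction N with
  | zero => simp; positivity
  | succ N ih =>
    rw [Finset.sum_range_succ]
    have h1 : 1 / lam + 1 ≤ Real.exp (1 / lam) := Real.add_one_le_exp _
    have h2 : Real.exp (((N + 1 : ℕ) : ℝ) / lam) = Real.exp (N / lam) * Real.exp (1 / lam) := by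
      rw [← Real.exp_add]
      congr 1
      push_cast
      ring
    rw [h2]
    have h3 : 0 < Real.exp ((N : ℝ) / lam) := Real.exp_pos _
    have h4 : lam * (Real.exp (N / lam) * (1 / lam + 1)) ≤
        lam * (Real.exp (N / lam) * Real.exp (1 / lam)) := by gcongr
    have h5 : lam * (Real.exp (N / lam) * (1 / lam + 1)) =
        Real.exp (N / lam) + lam * Real.exp (N / lam) := by
      field_simp
    linarith

/-- the difference between the tent and the weight -/
private theorem shp_om {lam : ℝ} (hlam : 2 ≤ lam) (n : ℕ) (hn : 1 ≤ n) (i : ℕ)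
    (hi : lam ≤ i) : |tri (lam * Real.log n - i) - OmL lam (Real.exp (i / lam)) n| ≤
      tri (lam * Real.log n - i) * (4 / lam) := by
  have hlam0 : 0 < lam := by linarith
  have hn0 : (0 : ℝ) < n := by exact_mod_cast hn
  have e1 : lam * Real.log (n / Real.exp (i / lam)) = lam * Real.log n - i := by
    rw [Real.log_div hn0.ne' (Real.exp_pos _).ne', Real.log_exp]
    field_simp
  unfold OmL
  rw [e1]
  by_cases h0 : tri (lam * Real.log n - i) = 0
  · rw [h0]; simp
  have h1 := shp_tri_ne h0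
  set T := tri (lam * Real.log n - i) with hT
  have hT0 : 0 ≤ T := Pool.Agent.MP89da58.tri_nonneg _
  have hX0 : 0 < Real.exp ((i : ℝ) / lam) := Real.exp_pos _
  have e2 : T - (Real.exp (i / lam) / n) ^ Pool.Agent.MP89da58.cX (Real.exp (i / lam)) * T =
      -(((Real.exp (i / lam) / n) ^ Pool.Agent.MP89da58.cX (Real.exp (i / lam)) - 1) * T) := by
    ring
  rw [e2, abs_neg, abs_mul, abs_of_nonneg hT0, mul_comm T]
  apply mul_le_mul_of_nonneg_right _ hT0
  rw [Real.rpow_def_of_pos (by positivity)]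
  set c := Pool.Agent.MP89da58.cX (Real.exp (i / lam)) with hc
  have hc1 : 0 ≤ c ∧ c ≤ 2 := by
    rw [hc]
    unfold Pool.Agent.MP89da58.cX
    rw [Real.log_exp]
    have h2 : 1 ≤ (i : ℝ) / lam := by rwa [le_div_iff₀ hlam0, one_mul]
    constructor
    · positivity
    · have : 1 / ((i : ℝ) / lam) ≤ 1 := by
        rw [div_le_one (by linarith)]
        exact h2
      linarith
  have h3 : |Real.log (Real.exp (i / lam) / n)| ≤ 1 / lam := by
    rw [Real.log_div hX0.ne' hn0.ne', Real.log_exp]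
    have e3 : (i : ℝ) / lam - Real.log n = -((lam * Real.log n - i) / lam) := by
      field_simp
      ring
    rw [e3, abs_neg, abs_div, abs_of_pos hlam0]
    exact div_le_div_of_nonneg_right h1.le hlam0.le
  have h4 : |Real.log (Real.exp (i / lam) / n) * c| ≤ 2 / lam := by
    rw [abs_mul, abs_of_nonneg hc1.1]
    calc |Real.log (Real.exp (i / lam) / n)| * c ≤ (1 / lam) * 2 :=
          mul_le_mul h3 hc1.2 hc1.1 (by positivity)
      _ = 2 / lam := by ring
  have h5 : (2 : ℝ) / lam ≤ 1 := by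
    rw [div_le_one hlam0]
    exact hlam
  refine (Real.abs_exp_sub_one_le (h4.trans h5)).trans ?_
  calc 2 * |Real.log (Real.exp (i / lam) / n) * c| ≤ 2 * (2 / lam) := by gcongr
    _ = 4 / lam := by ring

/-- the set of integers where the sum of the tents may differ from `1` -/
private theorem shp_card {M lam Y : ℝ} (M1 M2 : ℕ) (hM0 : 0 < M) (hlam : 343 ≤ lam)
    (hM2 : (M2 : ℝ) ≤ M) (h12 : M1 < M2) (hY : Y = max (M1 : ℝ) (M / lam)) :
    ((Ioc M1 ⌊Y * Real.exp (2 / lam)⌋₊ ∪ Ioc ⌊(M2 : ℝ) * Real.exp (-(2 / lam))⌋₊ M2).card : ℝ) ≤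
      6 * (M / lam) + 1 := by
  have hlam0 : 0 < lam := by linarith
  have hu : 2 / lam ≤ 1 / 2 := by
    rw [div_le_div_iff₀ hlam0 (by norm_num)]
    linarith
  have hu0 : 0 < 2 / lam := by positivity
  have hM1 : (M1 : ℝ) ≤ M := by
    have : (M1 : ℝ) ≤ M2 := by exact_mod_cast h12.le
    linarith
  have hq : 0 < M / lam := by positivity
  have hexp : Real.exp (2 / lam) - 1 ≤ 2 * (2 / lam) := by
    have h := Real.abs_exp_sub_one_le (x := 2 / lam) (by rw [abs_of_pos hu0]; linarith)
    rw [abs_of_pos hu0] at h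
    exact (le_abs_self _).trans h
  have hexp2 : 1 - 2 / lam ≤ Real.exp (-(2 / lam)) := by
    have := Real.add_one_le_exp (-(2 / lam))
    linarith
  have hmul : ∀ x : ℝ, x * (2 / lam) = 2 * (x / lam) := fun x => by ring
  -- first part
  have h1 : ((⌊Y * Real.exp (2 / lam)⌋₊ - M1 : ℕ) : ℝ) ≤ 4 * (M / lam) := by
    rcases Nat.lt_or_ge ⌊Y * Real.exp (2 / lam)⌋₊ M1 with h | h
    · rw [Nat.sub_eq_zero_of_le h.le, Nat.cast_zero]
      positivity
    · rw [Nat.cast_sub h]
      have hY0 : 0 < Y := by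
        rw [hY]
        exact lt_of_lt_of_le hq (le_max_right _ _)
      have h2 : (⌊Y * Real.exp (2 / lam)⌋₊ : ℝ) ≤ Y * Real.exp (2 / lam) :=
        Nat.floor_le (by positivity)
      have h3 : Y * Real.exp (2 / lam) - M1 ≤ 4 * (M / lam) := by
        rcases max_choice (M1 : ℝ) (M / lam) with h4 | h4
        · rw [h4] at hY
          rw [hY]
          have h5 : (M1 : ℝ) * (Real.exp (2 / lam) - 1) ≤ M1 * (2 * (2 / lam)) :=
            mul_le_mul_of_nonneg_left hexp (Nat.cast_nonneg _)
          have h6 : (M1 : ℝ) / lam ≤ M / lam := div_le_div_of_nonneg_right hM1 hlam0.le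
          have h7 : (M1 : ℝ) * (2 * (2 / lam)) = 4 * (M1 / lam) := by ring
          linarith
        · rw [h4] at hY
          rw [hY]
          have h5 : M / lam * (Real.exp (2 / lam) - 1) ≤ M / lam * (2 * (2 / lam)) :=
            mul_le_mul_of_nonneg_left hexp hq.le
          have h6 : M / lam * (2 * (2 / lam)) ≤ M / lam * 1 :=
            mul_le_mul_of_nonneg_left (by linarith) hq.le
          have h7 : (0 : ℝ) ≤ M1 := Nat.cast_nonneg _
          linarith
      linarith
  -- second part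
  have h2 : ((M2 - ⌊(M2 : ℝ) * Real.exp (-(2 / lam))⌋₊ : ℕ) : ℝ) ≤ 2 * (M / lam) + 1 := by
    have hle : ⌊(M2 : ℝ) * Real.exp (-(2 / lam))⌋₊ ≤ M2 := by
      apply Nat.floor_le_of_le
      have : Real.exp (-(2 / lam)) ≤ 1 := Real.exp_le_one_iff.2 (by linarith)
      have h3 : (0 : ℝ) ≤ M2 := Nat.cast_nonneg _
      nlinarith
    rw [Nat.cast_sub hle]
    have h3 := Nat.lt_floor_add_one ((M2 : ℝ) * Real.exp (-(2 / lam)))
    have h4 : (M2 : ℝ) * (1 - 2 / lam) ≤ M2 * Real.exp (-(2 / lam)) :=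
      mul_le_mul_of_nonneg_left hexp2 (Nat.cast_nonneg _)
    have h5 : (M2 : ℝ) / lam ≤ M / lam := div_le_div_of_nonneg_right hM2 hlam0.le
    have h6 := hmul M2
    linarith
  calc ((Ioc M1 ⌊Y * Real.exp (2 / lam)⌋₊ ∪
        Ioc ⌊(M2 : ℝ) * Real.exp (-(2 / lam))⌋₊ M2).card : ℝ)
      ≤ ((Ioc M1 ⌊Y * Real.exp (2 / lam)⌋₊).card +
          (Ioc ⌊(M2 : ℝ) * Real.exp (-(2 / lam))⌋₊ M2).card : ℕ) := by
        exact_mod_cast Finset.card_union_le _ _
    _ = ((⌊Y * Real.exp (2 / lam)⌋₊ - M1 : ℕ) : ℝ) +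
          ((M2 - ⌊(M2 : ℝ) * Real.exp (-(2 / lam))⌋₊ : ℕ) : ℝ) := by
        rw [Nat.card_Ioc, Nat.card_Ioc, Nat.cast_add]
    _ ≤ _ := by linarith

/-- the final numerical estimate -/
private theorem shp_num {M L : ℝ} (A : ℕ) (hM0 : 0 < M) (hL : 7 < L) (h : L ^ (A + 4) ≤ M) :
    (L + 1) * (6 * (M / L ^ (A + 3)) + 1) + 4 * ((L + 1) * (M / L ^ (A + 3))) +
      M / L ^ (A + 3) ≤ M / L ^ A := by
  have hL0 : 0 < L := by linarith
  have hA : 0 < L ^ A := by positivity
  set q := M / L ^ A with hq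
  have e1 : M / L ^ (A + 3) = q / L ^ 3 := by
    rw [hq, pow_add]
    field_simp
  have h1 : L ^ 4 ≤ q := by
    rw [hq, le_div_iff₀ hA, ← pow_add, add_comm 4 A]
    exact h
  have h2 : 49 * L ≤ L ^ 3 := by nlinarith [mul_pos hL0 hL0]
  have hL3 : 0 < L ^ 3 := by positivity
  have h3 : 7 * L ^ 3 ≤ L ^ 4 := by nlinarith
  rw [e1]
  set w := q / L ^ 3 with hw
  have h4 : w * L ^ 3 = q := by rw [hw]; field_simp
  have hw0 : 0 < w := by
    rw [hw]
    have : 0 < q := by linarith [pow_pos hL0 4]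
    positivity
  have h5 : w * (49 * L) ≤ q := by
    rw [← h4]
    exact mul_le_mul_of_nonneg_left h2 hw0.le
  have h6 : w * 7 ≤ w * L := mul_le_mul_of_nonneg_left hL.le hw0.le
  have h7 : 343 * L ≤ q := by linarith
  nlinarith

theorem p_shp : S_shp := by
  intro A
  have hlittle := (Real.isLittleO_pow_log_id_atTop (n := A + 4)).bound (show (0 : ℝ) < 1 by norm_num)
  filter_upwards [hlittle, eventually_gt_atTop (Real.exp 7)] with M hM1 hMe b hb hyp M1 M2 hM2
  have hM0 : 0 < M := lt_trans (Real.exp_pos 7) hMe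
  have hL7 : 7 < Real.log M := (Real.lt_log_iff_exp_lt hM0).2 hMe
  set L := Real.log M with hL
  have hL0 : 0 < L := by linarith
  have hML : L ^ (A + 4) ≤ M := by
    rw [one_mul, id, Real.norm_of_nonneg (by positivity), Real.norm_of_nonneg hM0.le] at hM1
    exact hM1
  set lam := L ^ (A + 3) with hlam
  have hlam343 : 343 ≤ lam := by
    have h1 : (1 : ℝ) ≤ L ^ A := one_le_pow₀ (by linarith)
    have h2 : (343 : ℝ) ≤ L ^ 3 := by
      have : (7 : ℝ) ^ 3 ≤ L ^ 3 := pow_le_pow_left₀ (by norm_num) hL7.le 3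
      linarith
    rw [hlam, pow_add]
    nlinarith
  have hlam0 : 0 < lam := by linarith
  have hlamM : L * lam ≤ M := by
    have : L * lam = L ^ (A + 4) := by rw [hlam]; ring
    rw [this]
    exact hML
  rcases le_or_gt M2 M1 with h | hMM
  · rw [Finset.Ioc_eq_empty (by omega)]
    simp only [Finset.sum_empty, norm_zero]
    positivity
  have hM2pos : (1 : ℝ) ≤ M2 := by
    have : 1 ≤ M2 := by omega
    exact_mod_cast this
  obtain ⟨Y, hY⟩ : ∃ Y : ℝ, Y = max (M1 : ℝ) (M / lam) := ⟨_, rfl⟩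
  have hYM1 : (M1 : ℝ) ≤ Y := by rw [hY]; exact le_max_left _ _
  have hYq : M / lam ≤ Y := by rw [hY]; exact le_max_right _ _
  have hYL : L ≤ Y := ((le_div_iff₀ hlam0).2 hlamM).trans hYq
  have hY0 : 0 < Y := by linarith
  have hlogY : 1 ≤ Real.log Y := by
    rw [Real.le_log_iff_exp_le hY0]
    have := Real.exp_one_lt_d9
    linarith
  have hlogM2 : 0 ≤ Real.log M2 := Real.log_nonneg hM2pos
  obtain ⟨i0, hi0⟩ : ∃ i0 : ℕ, i0 = ⌈lam * Real.log Y⌉₊ + 1 := ⟨_, rfl⟩
  obtain ⟨i1, hi1⟩ : ∃ i1 : ℕ, i1 = ⌊lam * Real.log M2⌋₊ := ⟨_, rfl⟩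
  have hI : ∀ i ∈ Finset.Ico i0 i1, lam * Real.log Y + 1 ≤ i ∧ (i : ℝ) + 1 ≤ lam * Real.log M2 := by
    intro i hi
    obtain ⟨h1, h2⟩ := Finset.mem_Ico.1 hi
    constructor
    · have h3 := Nat.le_ceil (lam * Real.log Y)
      have h4 : ((⌈lam * Real.log Y⌉₊ : ℕ) : ℝ) + 1 ≤ i := by
        rw [hi0] at h1
        exact_mod_cast h1
      linarith
    · have h3 : (i : ℝ) + 1 ≤ i1 := by exact_mod_cast h2
      have h4 : (i1 : ℝ) ≤ lam * Real.log M2 := by
        rw [hi1]
        exact Nat.floor_le (by positivity)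
      linarith
  -- the support
  have hsupp : ∀ i ∈ Finset.Ico i0 i1, ∀ n : ℕ, 1 ≤ n → tri (lam * Real.log n - i) ≠ 0 →
      n ∈ Ioc M1 M2 ∧ n ∈ Icc 1 ⌊3 * Real.exp (i / lam)⌋₊ := by
    intro i hi n hn ht
    obtain ⟨h1, h2⟩ := hI i hi
    have hn0 : (0 : ℝ) < n := by exact_mod_cast hn
    have h3 := abs_lt.1 (shp_tri_ne ht)
    have h4 : Real.log Y < Real.log n := lt_of_mul_lt_mul_left (by linarith) hlam0.le
    have h5 : Real.log n < Real.log M2 := lt_of_mul_lt_mul_left (by linarith) hlam0.le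
    have h6 : Y < n := (Real.log_lt_log_iff hY0 hn0).1 h4
    have h7 : (n : ℝ) < M2 := (Real.log_lt_log_iff hn0 (by linarith)).1 h5
    refine ⟨Finset.mem_Ioc.2 ⟨?_, ?_⟩, Finset.mem_Icc.2 ⟨hn, ?_⟩⟩
    · have : (M1 : ℝ) < n := by linarith
      exact_mod_cast this
    · exact_mod_cast h7.le
    · apply Nat.le_floor
      have h8 : Real.log n < i / lam + 1 := by
        have : lam * Real.log n < i + 1 := by linarith
        have h9 : Real.log n < (i + 1) / lam := by
          rw [lt_div_iff₀ hlam0]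
          linarith
        have h10 : ((i : ℝ) + 1) / lam = i / lam + 1 / lam := by ring
        have h11 : 1 / lam ≤ 1 := by
          rw [div_le_one hlam0]
          linarith
        linarith
      have h9 : (n : ℝ) < Real.exp (i / lam + 1) := (Real.log_lt_iff_lt_exp hn0).1 h8
      rw [Real.exp_add] at h9
      have h10 := Real.exp_one_lt_d9
      have h11 : 0 < Real.exp ((i : ℝ) / lam) := Real.exp_pos _
      nlinarith
  have hOm0 : ∀ (i n : ℕ), 1 ≤ n → tri (lam * Real.log n - i) = 0 →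
      OmL lam (Real.exp (i / lam)) n = 0 := by
    intro i n hn ht
    have hn0 : (0 : ℝ) < n := by exact_mod_cast hn
    have e1 : lam * Real.log (n / Real.exp (i / lam)) = lam * Real.log n - i := by
      rw [Real.log_div hn0.ne' (Real.exp_pos _).ne', Real.log_exp]
      field_simp
    unfold OmL
    rw [e1, ht, mul_zero]
  -- the main terms
  have hmain : ∀ i ∈ Finset.Ico i0 i1,
      ‖∑ n ∈ Ioc M1 M2, b n * (OmL lam (Real.exp (i / lam)) n : ℂ)‖ ≤
        Real.exp (i / lam) / L ^ (2 * A + 6) := by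
    intro i hi
    obtain ⟨h1, h2⟩ := hI i hi
    have h3 : ∑ n ∈ Ioc M1 M2, b n * (OmL lam (Real.exp (i / lam)) n : ℂ) =
        ∑ n ∈ Icc 1 ⌊3 * Real.exp (i / lam)⌋₊, b n * (OmL lam (Real.exp (i / lam)) n : ℂ) := by
      have h4 : ∑ n ∈ Ioc M1 M2, b n * (OmL lam (Real.exp (i / lam)) n : ℂ) =
          ∑ n ∈ Ioc M1 M2 ∪ Icc 1 ⌊3 * Real.exp (i / lam)⌋₊,
            b n * (OmL lam (Real.exp (i / lam)) n : ℂ) := by
        apply Finset.sum_subset Finset.subset_union_left
        intro n hn hn'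
        have hn1 : 1 ≤ n := by
          rcases Finset.mem_union.1 hn with h | h
          · have := (Finset.mem_Ioc.1 h).1
            omega
          · exact (Finset.mem_Icc.1 h).1
        have : tri (lam * Real.log n - i) = 0 := by
          by_contra h
          exact hn' (hsupp i hi n hn1 h).1
        rw [hOm0 i n hn1 this]
        simp
      have h5 : ∑ n ∈ Icc 1 ⌊3 * Real.exp (i / lam)⌋₊,
            b n * (OmL lam (Real.exp (i / lam)) n : ℂ) =
          ∑ n ∈ Ioc M1 M2 ∪ Icc 1 ⌊3 * Real.exp (i / lam)⌋₊,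
            b n * (OmL lam (Real.exp (i / lam)) n : ℂ) := by
        apply Finset.sum_subset Finset.subset_union_right
        intro n hn hn'
        have hn1 : 1 ≤ n := by
          rcases Finset.mem_union.1 hn with h | h
          · have := (Finset.mem_Ioc.1 h).1
            omega
          · exact (Finset.mem_Icc.1 h).1
        have : tri (lam * Real.log n - i) = 0 := by
          by_contra h
          exact hn' (hsupp i hi n hn1 h).2
        rw [hOm0 i n hn1 this]
        simp
      rw [h4, h5]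
    rw [h3]
    apply hyp
    · refine hYq.trans ?_
      rw [← Real.exp_log hY0]
      apply Real.exp_le_exp.2
      rw [le_div_iff₀ hlam0]
      linarith
    · refine le_trans ?_ hM2
      have hM20 : (0 : ℝ) < M2 := by linarith
      rw [← Real.exp_log hM20]
      apply Real.exp_le_exp.2
      rw [div_le_iff₀ hlam0]
      linarith
  -- size of b
  have hbL : ∀ n ∈ Ioc M1 M2, ‖b n‖ ≤ L + 1 := by
    intro n hn
    obtain ⟨h1, h2⟩ := Finset.mem_Ioc.1 hn
    have hn0 : (0 : ℝ) < n := by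
      have : 0 < n := by omega
      exact_mod_cast this
    refine (hb n (by omega)).trans ?_
    have h3 : (n : ℝ) ≤ M := le_trans (by exact_mod_cast h2) hM2
    have := Real.log_le_log hn0 h3
    linarith
  have hn1 : ∀ n ∈ Ioc M1 M2, 1 ≤ n := fun n hn => by
    have := (Finset.mem_Ioc.1 hn).1
    omega
  have hx0 : ∀ n ∈ Ioc M1 M2, 0 ≤ lam * Real.log n := fun n hn => by
    have h1 : (1 : ℝ) ≤ n := by exact_mod_cast hn1 n hn
    have := Real.log_nonneg h1
    positivity
  obtain ⟨om, hom⟩ : ∃ om : ℕ → ℝ, om = fun n : ℕ => ∑ i ∈ Finset.Ico i0 i1,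
    tri (lam * Real.log (n : ℝ) - i) := ⟨_, rfl⟩
  have hom0 : ∀ n, 0 ≤ om n := fun n => by
    rw [hom]
    exact Finset.sum_nonneg fun _ _ => Pool.Agent.MP89da58.tri_nonneg _
  have hom1 : ∀ n ∈ Ioc M1 M2, om n ≤ 1 := fun n hn => by
    rw [hom]
    exact shp_le_one (hx0 n hn) _
  -- decomposition
  have hdec : ∑ n ∈ Ioc M1 M2, b n = ∑ n ∈ Ioc M1 M2, b n * ((1 - om n : ℝ) : ℂ) +
      ∑ n ∈ Ioc M1 M2, ∑ i ∈ Finset.Ico i0 i1, b n *
        ((tri (lam * Real.log n - i) - OmL lam (Real.exp (i / lam)) n : ℝ) : ℂ) +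
      ∑ i ∈ Finset.Ico i0 i1, ∑ n ∈ Ioc M1 M2, b n *
        (OmL lam (Real.exp (i / lam)) n : ℂ) := by
    rw [Finset.sum_comm (s := Finset.Ico i0 i1), ← Finset.sum_add_distrib,
      ← Finset.sum_add_distrib]
    apply Finset.sum_congr rfl
    intro n _
    rw [← Finset.mul_sum, ← Finset.mul_sum, ← mul_add, ← mul_add]
    have : ((1 - om n : ℝ) : ℂ) + ∑ i ∈ Finset.Ico i0 i1,
        ((tri (lam * Real.log n - i) - OmL lam (Real.exp (i / lam)) n : ℝ) : ℂ) +
        ∑ i ∈ Finset.Ico i0 i1, (OmL lam (Real.exp (i / lam)) n : ℂ) = 1 := by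
      rw [add_assoc, ← Finset.sum_add_distrib, hom]
      push_cast
      simp
    rw [this, mul_one]
  rw [hdec]
  refine (norm_add₃_le).trans ?_
  -- first bound
  have hB1 : ‖∑ n ∈ Ioc M1 M2, b n * ((1 - om n : ℝ) : ℂ)‖ ≤
      (L + 1) * (6 * (M / lam) + 1) := by
    have hcard := shp_card M1 M2 hM0 hlam343 hM2 hMM hY
    set Bad := Ioc M1 ⌊Y * Real.exp (2 / lam)⌋₊ ∪ Ioc ⌊(M2 : ℝ) * Real.exp (-(2 / lam))⌋₊ M2
      with hBad
    have h1 : ∀ n ∈ Ioc M1 M2, n ∉ Bad → om n = 1 := by
      intro n hn hnB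
      obtain ⟨h2, h3⟩ := Finset.mem_Ioc.1 hn
      rw [hBad, Finset.mem_union, not_or] at hnB
      have hn0 : (0 : ℝ) < n := by exact_mod_cast hn1 n hn
      have h4 : Y * Real.exp (2 / lam) < n := by
        have h5 : ¬ n ≤ ⌊Y * Real.exp (2 / lam)⌋₊ := fun h => hnB.1 (Finset.mem_Ioc.2 ⟨h2, h⟩)
        exact (Nat.floor_lt (by positivity)).1 (not_le.1 h5)
      have h5 : (n : ℝ) ≤ M2 * Real.exp (-(2 / lam)) := by
        have h6 : ¬ ⌊(M2 : ℝ) * Real.exp (-(2 / lam))⌋₊ < n := fun h =>
          hnB.2 (Finset.mem_Ioc.2 ⟨h, h3⟩)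
        exact (Nat.le_floor_iff (by positivity)).1 (not_lt.1 h6)
      have h6 : Real.log Y + 2 / lam < Real.log n := by
        rw [← Real.log_exp (2 / lam), ← Real.log_mul hY0.ne' (Real.exp_pos _).ne']
        exact Real.log_lt_log (by positivity) h4
      have hM20 : (0 : ℝ) < M2 := by linarith
      have h7 : Real.log n ≤ Real.log M2 - 2 / lam := by
        have := Real.log_le_log hn0 h5
        rw [Real.log_mul hM20.ne' (Real.exp_pos _).ne', Real.log_exp] at this
        linarith
      have e2 : lam * (2 / lam) = 2 := by field_simp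
      have h8 : lam * Real.log Y + 2 < lam * Real.log n := by
        have := mul_lt_mul_of_pos_left h6 hlam0
        rw [mul_add, e2] at this
        exact this
      have h9 : lam * Real.log n ≤ lam * Real.log M2 - 2 := by
        have := mul_le_mul_of_nonneg_left h7 hlam0.le
        rw [mul_sub, e2] at this
        exact this
      rw [hom]
      apply shp_two (hx0 n hn)
      · rw [Finset.mem_Ico]
        constructor
        · apply Nat.le_floor
          have h10 := Nat.ceil_lt_add_one (show 0 ≤ lam * Real.log Y by positivity)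
          rw [hi0]
          push_cast
          linarith
        · have h10 := Nat.floor_le (hx0 n hn)
          have h11 := Nat.lt_floor_add_one (lam * Real.log M2)
          rw [← hi1] at h11
          have h12 : ((⌊lam * Real.log n⌋₊ : ℕ) : ℝ) < i1 := by linarith
          exact_mod_cast h12
      · rw [Finset.mem_Ico]
        constructor
        · have h13 : i0 ≤ ⌊lam * Real.log n⌋₊ := by
            apply Nat.le_floor
            have h10 := Nat.ceil_lt_add_one (show 0 ≤ lam * Real.log Y by positivity)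
            rw [hi0]
            push_cast
            linarith
          omega
        · have h10 := Nat.floor_le (hx0 n hn)
          have h11 := Nat.lt_floor_add_one (lam * Real.log M2)
          rw [← hi1] at h11
          have h12 : ((⌊lam * Real.log n⌋₊ + 1 : ℕ) : ℝ) < i1 := by
            push_cast
            linarith
          exact_mod_cast h12
    calc ‖∑ n ∈ Ioc M1 M2, b n * ((1 - om n : ℝ) : ℂ)‖
        ≤ ∑ n ∈ Ioc M1 M2, ‖b n * ((1 - om n : ℝ) : ℂ)‖ := norm_sum_le _ _
      _ ≤ ∑ n ∈ Ioc M1 M2, (if n ∈ Bad then (L + 1) else 0) := by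
          apply Finset.sum_le_sum
          intro n hn
          rw [norm_mul, Complex.norm_real, Real.norm_eq_abs]
          split_ifs with hB
          · have h2 : |1 - om n| ≤ 1 := by
              rw [abs_le]
              constructor
              · linarith [hom1 n hn]
              · linarith [hom0 n]
            calc ‖b n‖ * |1 - om n| ≤ (L + 1) * 1 :=
                  mul_le_mul (hbL n hn) h2 (abs_nonneg _) (by linarith)
              _ = L + 1 := mul_one _
          · rw [h1 n hn hB]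
            simp
      _ ≤ (Bad.card : ℝ) * (L + 1) := by
          rw [← Finset.sum_filter, Finset.sum_const, nsmul_eq_mul]
          apply mul_le_mul_of_nonneg_right _ (by linarith)
          have : ((Ioc M1 M2).filter (fun n => n ∈ Bad)).card ≤ Bad.card := by
            apply Finset.card_le_card
            intro n hn
            exact (Finset.mem_filter.1 hn).2
          exact_mod_cast this
      _ ≤ (L + 1) * (6 * (M / lam) + 1) := by
          rw [mul_comm]
          exact mul_le_mul_of_nonneg_left hcard (by linarith)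
  -- second bound
  have hB2 : ‖∑ n ∈ Ioc M1 M2, ∑ i ∈ Finset.Ico i0 i1, b n *
        ((tri (lam * Real.log n - i) - OmL lam (Real.exp (i / lam)) n : ℝ) : ℂ)‖ ≤
      4 * ((L + 1) * (M / lam)) := by
    calc _ ≤ ∑ n ∈ Ioc M1 M2, ‖∑ i ∈ Finset.Ico i0 i1, b n *
          ((tri (lam * Real.log n - i) - OmL lam (Real.exp (i / lam)) n : ℝ) : ℂ)‖ :=
          norm_sum_le _ _
      _ ≤ ∑ n ∈ Ioc M1 M2, (L + 1) * (4 / lam) := by
          apply Finset.sum_le_sum
          intro n hn
          calc _ ≤ ∑ i ∈ Finset.Ico i0 i1, ‖b n *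
                ((tri (lam * Real.log n - i) - OmL lam (Real.exp (i / lam)) n : ℝ) : ℂ)‖ :=
                norm_sum_le _ _
            _ ≤ ∑ i ∈ Finset.Ico i0 i1, (L + 1) * (4 / lam) * tri (lam * Real.log n - i) := by
                apply Finset.sum_le_sum
                intro i hi
                rw [norm_mul, Complex.norm_real, Real.norm_eq_abs]
                obtain ⟨h1, h2⟩ := hI i hi
                have h3 := shp_om (lam := lam) (by linarith) n (hn1 n hn) i (by nlinarith)
                calc ‖b n‖ * _ ≤ (L + 1) * (tri (lam * Real.log n - i) * (4 / lam)) :=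
                      mul_le_mul (hbL n hn) h3 (abs_nonneg _) (by linarith)
                  _ = _ := by ring
            _ = (L + 1) * (4 / lam) * om n := by rw [← Finset.mul_sum, hom]
            _ ≤ (L + 1) * (4 / lam) * 1 :=
                mul_le_mul_of_nonneg_left (hom1 n hn) (by positivity)
            _ = _ := mul_one _
      _ = ((M2 - M1 : ℕ) : ℝ) * ((L + 1) * (4 / lam)) := by
          rw [Finset.sum_const, nsmul_eq_mul, Nat.card_Ioc]
      _ ≤ M * ((L + 1) * (4 / lam)) := by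
          apply mul_le_mul_of_nonneg_right _ (by positivity)
          have : ((M2 - M1 : ℕ) : ℝ) ≤ M2 := by exact_mod_cast Nat.sub_le _ _
          linarith
      _ = _ := by ring
  -- third bound
  have hB3 : ‖∑ i ∈ Finset.Ico i0 i1, ∑ n ∈ Ioc M1 M2, b n *
        (OmL lam (Real.exp (i / lam)) n : ℂ)‖ ≤ M / lam := by
    calc _ ≤ ∑ i ∈ Finset.Ico i0 i1, ‖∑ n ∈ Ioc M1 M2, b n *
          (OmL lam (Real.exp (i / lam)) n : ℂ)‖ := norm_sum_le _ _
      _ ≤ ∑ i ∈ Finset.Ico i0 i1, Real.exp (i / lam) / L ^ (2 * A + 6) :=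
          Finset.sum_le_sum hmain
      _ ≤ ∑ i ∈ Finset.range i1, Real.exp (i / lam) / L ^ (2 * A + 6) := by
          apply Finset.sum_le_sum_of_subset_of_nonneg
          · intro i hi
            exact Finset.mem_range.2 (Finset.mem_Ico.1 hi).2
          · intro i _ _
            positivity
      _ = (∑ i ∈ Finset.range i1, Real.exp (i / lam)) / L ^ (2 * A + 6) := by
          rw [Finset.sum_div]
      _ ≤ (lam * M) / L ^ (2 * A + 6) := by
          apply div_le_div_of_nonneg_right _ (by positivity)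
          refine (shp_geom hlam0 i1).trans ?_
          apply mul_le_mul_of_nonneg_left _ hlam0.le
          refine le_trans ?_ hM2
          have hM20 : (0 : ℝ) < M2 := by linarith
          rw [← Real.exp_log hM20]
          apply Real.exp_le_exp.2
          rw [div_le_iff₀ hlam0, hi1, mul_comm (Real.log (M2 : ℝ))]
          exact Nat.floor_le (by positivity)
      _ = M / lam := by
          have : L ^ (2 * A + 6) = lam * lam := by rw [hlam]; ring
          rw [this]
          field_simp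
  have := shp_num A hM0 hL7 hML
  rw [← hlam] at this
  linarith

end Pool.Agent.CH.P
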