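import Pool.Agent.Lib.MP_d610d0_nt.CH.P.Stm

set_option autoImplicit false

/-!
Piece sp.
-/

namespace Pool.Agent.CH.P

open Finset Filter
open ArithmeticFunction (vonMangoldt)
open Pool.Agent.MP89da58 (tri)
open Pool.Agent.MP89da58.S (Lj aL Fk)
open Pool.Agent.BVall (OmL psiG aZ)
open Pool.Agent.CH.V (pz I_V)

/-- the constant `∑ a^k 2^(-a)` -/
private noncomputable def sp_D (k : ℕ) : ℝ := ∑' a : ℕ, (a : ℝ) ^ k * (1 / 2 : ℝ) ^ a

private lemma sp_summable (k : ℕ) : Summable fun a : ℕ => (a : ℝ) ^ k * (1 / 2 : ℝ) ^ a :=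
  summable_pow_mul_geometric_of_norm_lt_one k (by rw [Real.norm_of_nonneg] <;> norm_num)

private lemma sp_D_nonneg (k : ℕ) : 0 ≤ sp_D k := tsum_nonneg fun a => by positivity

/-- the sum over the powers of one prime -/
private lemma sp_pow (k j : ℕ) (hj : j ≤ k) (N p : ℕ) (hp : 2 ≤ p) :
    ∑ a ∈ Icc 1 N, (a : ℝ) ^ j / (p : ℝ) ^ a ≤ 2 * sp_D k / p := by
  have hp0 : (0 : ℝ) < p := by exact_mod_cast (by omega : 0 < p)
  have hp2 : (2 : ℝ) ≤ p := by exact_mod_cast hp
  have h1 : ∀ a ∈ Icc 1 N, (a : ℝ) ^ j / (p : ℝ) ^ a ≤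
      2 / p * ((a : ℝ) ^ k * (1 / 2 : ℝ) ^ a) := by
    intro a ha
    rw [Finset.mem_Icc] at ha
    obtain ⟨b, rfl⟩ : ∃ b, a = b + 1 := ⟨a - 1, by omega⟩
    have h2 : ((b + 1 : ℕ) : ℝ) ^ j ≤ ((b + 1 : ℕ) : ℝ) ^ k :=
      pow_le_pow_right₀ (by push_cast; linarith [Nat.cast_nonneg (α := ℝ) b]) hj
    have h3 : 1 / (p : ℝ) ^ (b + 1) ≤ 2 / p * (1 / 2 : ℝ) ^ (b + 1) := by
      have h4 : (2 : ℝ) ^ b ≤ (p : ℝ) ^ b := pow_le_pow_left₀ (by norm_num) hp2 b
      have h5 : 1 / (p : ℝ) ^ b ≤ 1 / (2 : ℝ) ^ b := one_div_le_one_div_of_le (by positivity) h4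
      calc 1 / (p : ℝ) ^ (b + 1) = 1 / (p : ℝ) ^ b * (1 / p) := by rw [pow_succ]; field_simp
        _ ≤ 1 / (2 : ℝ) ^ b * (1 / p) := by gcongr
        _ = 2 / p * (1 / 2 : ℝ) ^ (b + 1) := by rw [pow_succ, one_div_pow]; field_simp
    calc ((b + 1 : ℕ) : ℝ) ^ j / (p : ℝ) ^ (b + 1)
        = ((b + 1 : ℕ) : ℝ) ^ j * (1 / (p : ℝ) ^ (b + 1)) := by rw [mul_one_div]
      _ ≤ ((b + 1 : ℕ) : ℝ) ^ k * (2 / p * (1 / 2 : ℝ) ^ (b + 1)) := by gcongr
      _ = _ := by ring
  calc _ ≤ ∑ a ∈ Icc 1 N, 2 / p * ((a : ℝ) ^ k * (1 / 2 : ℝ) ^ a) := Finset.sum_le_sum h1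
    _ = 2 / p * ∑ a ∈ Icc 1 N, (a : ℝ) ^ k * (1 / 2 : ℝ) ^ a := by rw [Finset.mul_sum]
    _ ≤ 2 / p * sp_D k := by
        apply mul_le_mul_of_nonneg_left _ (by positivity)
        exact (sp_summable k).sum_le_tsum _ (fun a _ => by positivity)
    _ = _ := by ring

/-- the terms with small primes -/
private noncomputable def sp_g (Y j n : ℕ) : ℝ :=
  open Classical in
  if IsPrimePow n ∧ n.minFac ≤ Y then vonMangoldt n * Real.log n ^ j / n else 0

private lemma sp_g_nonneg (Y j n : ℕ) : 0 ≤ sp_g Y j n := by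
  unfold sp_g
  split_ifs
  · have := ArithmeticFunction.vonMangoldt_nonneg (n := n)
    have := Real.log_natCast_nonneg n
    positivity
  · exact le_rfl

private lemma sp_fin (k j : ℕ) (hj : j ≤ k) (Y N : ℕ) :
    ∑ n ∈ range N, sp_g Y j n ≤
      Real.log Y ^ j * (2 * sp_D k) * ∑ p ∈ (Icc 1 Y).filter Nat.Prime, Real.log p / p := by
  classical
  set S : Finset ℕ := (range N).filter (fun n => IsPrimePow n ∧ n.minFac ≤ Y) with hS
  set T : Finset (ℕ × ℕ) := ((Icc 1 Y).filter Nat.Prime) ×ˢ Icc 1 N with hT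
  let e : ℕ → ℕ × ℕ := fun n => (n.minFac, n.factorization n.minFac)
  let h : ℕ × ℕ → ℝ := fun x => Real.log x.1 * (x.2 * Real.log x.1) ^ j / (x.1 : ℝ) ^ x.2
  have hpw : ∀ n ∈ S, n.minFac ^ n.factorization n.minFac = n := by
    intro n hn
    rw [hS, Finset.mem_filter] at hn
    exact hn.2.1.minFac_pow_factorization_eq
  have h1 : ∑ n ∈ range N, sp_g Y j n = ∑ n ∈ S, h (e n) := by
    rw [hS, Finset.sum_filter]
    apply Finset.sum_congr rfl
    intro n hn
    unfold sp_g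
    by_cases hc : IsPrimePow n ∧ n.minFac ≤ Y
    · rw [if_pos hc, if_pos hc]
      have h2 := hc.1.minFac_pow_factorization_eq
      show _ = Real.log n.minFac * (n.factorization n.minFac * Real.log n.minFac) ^ j /
        (n.minFac : ℝ) ^ n.factorization n.minFac
      rw [ArithmeticFunction.vonMangoldt_apply, if_pos hc.1]
      have h3 : ((n : ℕ) : ℝ) = (n.minFac : ℝ) ^ n.factorization n.minFac := by
        exact_mod_cast h2.symm
      have h4 : Real.log n = n.factorization n.minFac * Real.log n.minFac := by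
        conv_lhs => rw [h3]
        rw [Real.log_pow]
      rw [h4, ← h3]
    · rw [if_neg hc, if_neg hc]
  have hinj : Set.InjOn e S := by
    intro a ha b hb hab
    have h2 := hpw a ha
    have h3 := hpw b hb
    have h4 := congrArg Prod.fst hab
    have h5 := congrArg Prod.snd hab
    simp only [e] at h4 h5
    rw [← h2, ← h3, h5, h4]
  have hmem : ∀ n ∈ S, e n ∈ T := by
    intro n hn
    have h2 := hpw n hn
    rw [hS, Finset.mem_filter, Finset.mem_range] at hn
    obtain ⟨hnN, hpp, hY⟩ := hn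
    have hn1 : n ≠ 1 := hpp.ne_one
    have hpr : n.minFac.Prime := Nat.minFac_prime hn1
    rw [hT, Finset.mem_product, Finset.mem_filter, Finset.mem_Icc, Finset.mem_Icc]
    refine ⟨⟨⟨hpr.one_lt.le, hY⟩, hpr⟩, ?_, ?_⟩
    · rw [Nat.one_le_iff_ne_zero]
      intro h3
      simp only [e] at h3
      rw [h3, pow_zero] at h2
      exact hn1 h2.symm
    · have h3 : n.factorization n.minFac < n.minFac ^ n.factorization n.minFac :=
        Nat.lt_pow_self hpr.one_lt
      rw [h2] at h3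
      exact (h3.trans hnN).le
  have hnn : ∀ x ∈ T, 0 ≤ h x := by
    intro x _
    have := Real.log_natCast_nonneg x.1
    show 0 ≤ Real.log x.1 * (x.2 * Real.log x.1) ^ j / (x.1 : ℝ) ^ x.2
    positivity
  calc ∑ n ∈ range N, sp_g Y j n = ∑ n ∈ S, h (e n) := h1
    _ = ∑ x ∈ S.image e, h x := (Finset.sum_image hinj).symm
    _ ≤ ∑ x ∈ T, h x := by
        apply Finset.sum_le_sum_of_subset_of_nonneg
        · intro x hx
          obtain ⟨n, hn, rfl⟩ := Finset.mem_image.1 hx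
          exact hmem n hn
        · intro x hx _
          exact hnn x hx
    _ = ∑ p ∈ (Icc 1 Y).filter Nat.Prime, ∑ a ∈ Icc 1 N,
          Real.log p * (a * Real.log p) ^ j / (p : ℝ) ^ a := by
        rw [hT, Finset.sum_product]
    _ ≤ ∑ p ∈ (Icc 1 Y).filter Nat.Prime,
          Real.log Y ^ j * (2 * sp_D k) * (Real.log p / p) := by
        apply Finset.sum_le_sum
        intro p hp
        rw [Finset.mem_filter, Finset.mem_Icc] at hp
        have hl : 0 ≤ Real.log p := Real.log_natCast_nonneg p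
        have hp0 : (0 : ℝ) < p := by exact_mod_cast hp.2.pos
        have hlY : Real.log p ≤ Real.log Y := Real.log_le_log hp0 (by exact_mod_cast hp.1.2)
        calc ∑ a ∈ Icc 1 N, Real.log p * (a * Real.log p) ^ j / (p : ℝ) ^ a
            = Real.log p * Real.log p ^ j * ∑ a ∈ Icc 1 N, (a : ℝ) ^ j / (p : ℝ) ^ a := by
              rw [Finset.mul_sum]
              apply Finset.sum_congr rfl
              intro a _
              rw [mul_pow]
              ring
          _ ≤ Real.log p * Real.log Y ^ j * (2 * sp_D k / p) := by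
              apply mul_le_mul _ (sp_pow k j hj N p hp.2.two_le)
                (Finset.sum_nonneg fun a _ => by positivity)
                (mul_nonneg hl (pow_nonneg (hl.trans hlY) j))
              apply mul_le_mul_of_nonneg_left _ hl
              exact pow_le_pow_left₀ hl hlY j
          _ = _ := by ring
    _ = _ := by rw [Finset.mul_sum]

private lemma sp_chy_eq {r : ℕ} (χ : DirichletCharacter ℂ r) (P n : ℕ) (h : n.Coprime P) :
    chy χ P n = χ n := by
  by_cases hr : n.Coprime r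
  · have h1 : n.Coprime (r * P) := Nat.Coprime.mul_right hr h
    have h2 := DirichletCharacter.changeLevel_eq_cast_of_dvd χ (dvd_mul_right r P)
      (ZMod.unitOfCoprime n h1)
    rw [ZMod.coe_unitOfCoprime] at h2
    unfold chy
    rw [h2, ZMod.cast_natCast (dvd_mul_right r P)]
  · have h1 : ¬ IsUnit ((n : ℕ) : ZMod r) := fun h2 => hr ((ZMod.isUnit_iff_coprime n r).1 h2)
    have h3 : ¬ IsUnit ((n : ℕ) : ZMod (r * P)) := fun h2 =>
      hr (Nat.Coprime.coprime_mul_right_right ((ZMod.isUnit_iff_coprime n (r * P)).1 h2))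
    rw [MulChar.map_nonunit _ h1, MulChar.map_nonunit _ h3]

private lemma sp_chy_zero {r : ℕ} (χ : DirichletCharacter ℂ r) (P n : ℕ) (h : ¬ n.Coprime P) :
    chy χ P n = 0 := by
  have h3 : ¬ IsUnit ((n : ℕ) : ZMod (r * P)) := fun h2 =>
    h (Nat.Coprime.coprime_mul_left_right ((ZMod.isUnit_iff_coprime n (r * P)).1 h2))
  rw [MulChar.map_nonunit _ h3]

/-- the difference of the coefficients -/
private lemma sp_coef {r : ℕ} (χ : DirichletCharacter ℂ r) (Y j n : ℕ) (s : ℂ) (hs : 1 < s.re) :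
    ‖LSeries.term (fun n => ((Real.log n : ℝ) : ℂ) ^ (j + 1) * aL χ n) s n -
      LSeries.term (fun n => ((Real.log n : ℝ) : ℂ) ^ (j + 1) * aL (chy χ (primorial Y)) n) s n‖ ≤
      sp_g Y j n := by
  rcases eq_or_ne n 0 with rfl | hn
  · rw [LSeries.term_zero, LSeries.term_zero, sub_zero, norm_zero]
    exact sp_g_nonneg Y j 0
  rw [LSeries.term_of_ne_zero hn, LSeries.term_of_ne_zero hn, Pool.Agent.MP89da58.S.aL_mul,
    Pool.Agent.MP89da58.S.aL_mul, ← sub_div, ← mul_sub, ← sub_mul, norm_div, norm_mul, norm_mul,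
    norm_pow, Complex.norm_real, Complex.norm_real,
    Complex.norm_natCast_cpow_of_pos (Nat.pos_of_ne_zero hn)]
  have hn1 : (1 : ℝ) ≤ n := by exact_mod_cast Nat.pos_of_ne_zero hn
  have hL := Real.log_natCast_nonneg n
  have hV := ArithmeticFunction.vonMangoldt_nonneg (n := n)
  rw [Real.norm_of_nonneg hL, Real.norm_of_nonneg hV]
  unfold sp_g
  by_cases hpp : IsPrimePow n
  · have hprime : n.minFac.Prime := Nat.minFac_prime hpp.ne_one
    by_cases hY : n.minFac ≤ Y
    · rw [if_pos ⟨hpp, hY⟩]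
      have h1 : ¬ n.Coprime (primorial Y) := by
        intro h2
        have h3 : n.minFac ∣ primorial Y := (Nat.Prime.dvd_primorial_iff hprime).2 hY
        have h4 := Nat.eq_one_of_dvd_coprimes h2 (Nat.minFac_dvd n) h3
        exact hprime.one_lt.ne' h4
      rw [sp_chy_zero χ _ n h1, sub_zero]
      have h2 : (n : ℝ) ≤ (n : ℝ) ^ s.re := by
        conv_lhs => rw [← Real.rpow_one (n : ℝ)]
        exact Real.rpow_le_rpow_of_exponent_le hn1 hs.le
      have h3 : ‖χ (n : ZMod r)‖ ≤ 1 := χ.norm_le_one _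
      calc Real.log n ^ j * (‖χ (n : ZMod r)‖ * vonMangoldt n) / (n : ℝ) ^ s.re
          ≤ Real.log n ^ j * (1 * vonMangoldt n) / (n : ℝ) := by gcongr
        _ = _ := by ring
    · rw [if_neg (fun h => hY h.2)]
      have h1 : n.Coprime (primorial Y) := by
        rw [← hpp.minFac_pow_factorization_eq]
        apply Nat.Coprime.pow_left
        rw [hprime.coprime_iff_not_dvd]
        intro h2
        exact hY ((Nat.Prime.dvd_primorial_iff hprime).1 h2)
      rw [sp_chy_eq χ _ n h1, sub_self, norm_zero, zero_mul, mul_zero, zero_div]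
  · rw [if_neg (fun h => hpp h.1), ArithmeticFunction.vonMangoldt_apply, if_neg hpp, mul_zero,
      mul_zero, zero_div]

theorem p_sp : S_sp := by
  rintro ⟨C1, hC1⟩ k
  have hC10 : 0 ≤ C1 := (abs_nonneg _).trans (hC1 1 le_rfl)
  refine ⟨2 * sp_D k * (1 + C1), ?_⟩
  filter_upwards [eventually_ge_atTop 1] with l hl
  intro r χ t hr j hj
  set Y : ℕ := ⌊Real.exp (l ^ (9 / 10 : ℝ))⌋₊ with hYd
  set L : ℝ := l ^ (9 / 10 : ℝ) with hLd
  have hL1 : 1 ≤ L := Real.one_le_rpow hl (by norm_num)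
  have hY1 : 1 ≤ Y := by
    rw [hYd]
    apply Nat.le_floor
    rw [Nat.cast_one]
    exact Real.one_le_exp (by linarith)
  have hYL : Real.log Y ≤ L := by
    have h1 : (Y : ℝ) ≤ Real.exp L := Nat.floor_le (Real.exp_pos L).le
    have h2 : (0 : ℝ) < Y := by exact_mod_cast hY1
    have h3 := Real.log_le_log h2 h1
    rwa [Real.log_exp] at h3
  have hs : 1 < (sp l t).re := by
    unfold sp
    rw [Complex.add_re, Complex.ofReal_re, Complex.mul_re, Complex.I_re, Complex.I_im,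
      Complex.ofReal_re, Complex.ofReal_im]
    have : 0 < 1 / l := by positivity
    linarith
  have hs1 := Pool.Agent.MP89da58.S.summable_Lj (Pool.Agent.MP89da58.S.norm_aL_le χ) (j + 1) hs
  have hs2 := Pool.Agent.MP89da58.S.summable_Lj
    (Pool.Agent.MP89da58.S.norm_aL_le (chy χ (primorial Y))) (j + 1) hs
  have hb : ∀ N, ∑ n ∈ range N, sp_g Y j n ≤ 2 * sp_D k * (1 + C1) * L ^ (j + 1) := by
    intro N
    refine (sp_fin k j hj Y N).trans ?_
    have h1 := (abs_le.1 (hC1 Y hY1)).2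
    have h2 : ∑ p ∈ (Icc 1 Y).filter Nat.Prime, Real.log p / p ≤ (1 + C1) * L := by
      have h3 : C1 ≤ C1 * L := le_mul_of_one_le_right hC10 hL1
      linarith
    have h3 : 0 ≤ ∑ p ∈ (Icc 1 Y).filter Nat.Prime, Real.log p / (p : ℝ) :=
      Finset.sum_nonneg fun p _ => div_nonneg (Real.log_natCast_nonneg p) (Nat.cast_nonneg p)
    have h4 := sp_D_nonneg k
    have h5 : Real.log Y ^ j ≤ L ^ j := pow_le_pow_left₀ (Real.log_natCast_nonneg Y) hYL j
    calc _ ≤ L ^ j * (2 * sp_D k) * ((1 + C1) * L) := by gcongr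
      _ = _ := by ring
  have hsum : Summable (sp_g Y j) := summable_of_sum_range_le (sp_g_nonneg Y j) hb
  have htot : ∑' n, sp_g Y j n ≤ 2 * sp_D k * (1 + C1) * L ^ (j + 1) :=
    Real.tsum_le_of_sum_range_le (sp_g_nonneg Y j) hb
  have hFk : Fk χ j (sp l t) - Fk (chy χ (PP l)) j (sp l t) =
      ∑' n, (LSeries.term (fun n => ((Real.log n : ℝ) : ℂ) ^ (j + 1) * aL χ n) (sp l t) n -
      LSeries.term (fun n => ((Real.log n : ℝ) : ℂ) ^ (j + 1) * aL (chy χ (primorial Y)) n)
        (sp l t) n) := (hs1.tsum_sub hs2).symm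
  rw [hFk]
  refine (tsum_of_norm_bounded hsum.hasSum (fun n => sp_coef χ Y j n _ hs)).trans htot

end Pool.Agent.CH.P
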