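import Pool.Agent.Lib.MP_d610d0_nt.CH.P.Stm

set_option autoImplicit false

/-!
Piece win.
-/

namespace Pool.Agent.CH.P

open Finset Filter
open ArithmeticFunction (vonMangoldt)
open Pool.Agent.MP89da58 (tri)
open Pool.Agent.MP89da58.S (Lj aL Fk)
open Pool.Agent.BVall (OmL psiG aZ)
open Pool.Agent.CH.V (pz I_V)

theorem win_norm_pz (t x : ℝ) : ‖pz t x‖ = 1 := by
  unfold pz
  rw [Complex.norm_exp]
  have h : (-(Complex.I * ((t * Real.log x : ℝ) : ℂ))).re = 0 := by
    rw [Complex.neg_re, Complex.mul_re, Complex.I_re, Complex.I_im, Complex.ofReal_re,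
      Complex.ofReal_im]
    ring
  rw [h, Real.exp_zero]

theorem win_shift {r : ℕ} (χ : DirichletCharacter ℂ r) (j : ℕ) (L t τ : ℝ) :
    Lj (fun n => aL χ n * pz (-τ) n) j (sp L t) = Lj (aL χ) j (sp L (t - τ)) := by
  unfold Lj LSeries
  apply tsum_congr
  intro n
  rcases eq_or_ne n 0 with rfl | hn
  · rw [LSeries.term_zero, LSeries.term_zero]
  · rw [LSeries.term_of_ne_zero hn, LSeries.term_of_ne_zero hn]
    have hn0 : (n : ℂ) ≠ 0 := by exact_mod_cast hn
    have h1 : sp L t = sp L (t - τ) + Complex.I * (τ : ℂ) := by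
      unfold sp
      rw [Complex.ofReal_sub]
      ring
    have h2 : (n : ℂ) ^ (Complex.I * (τ : ℂ)) = pz (-τ) n := by
      rw [Complex.cpow_def_of_ne_zero hn0]
      unfold pz
      congr 1
      rw [← Complex.natCast_log]
      push_cast
      ring
    have h3 : pz (-τ) n ≠ 0 := by
      unfold pz
      exact Complex.exp_ne_zero _
    rw [h1, Complex.cpow_add _ _ hn0, h2, ← mul_assoc, mul_div_mul_right _ _ h3]

theorem win_ev (D : ℕ) : ∀ᶠ L : ℝ in atTop, L ^ D + 1 ≤ Real.exp L := by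
  filter_upwards [Pool.Agent.BVall.ev_poly 2 D (show (0 : ℝ) < 1 by norm_num),
    eventually_ge_atTop (1 : ℝ)] with L h h'
  rw [one_mul] at h
  have h1 : 1 ≤ L ^ D := one_le_pow₀ h'
  linarith

theorem p_win : S_win := by
  intro hFb hpsi A B E κ hκ
  obtain ⟨k, hk⟩ : ∃ k, k = 100 * (A + 3) := ⟨_, rfl⟩
  obtain ⟨D, hD⟩ := hpsi A E
  obtain ⟨C1, hC1⟩ := hFb B k (κ + 1) (by linarith)
  obtain ⟨C2, hC2⟩ : ∃ C2, C2 = max C1 D := ⟨_, rfl⟩
  refine ⟨C2 + 1, ?_⟩
  have hbd := Real.tendsto_log_atTop.eventually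
    (Pool.Agent.BVall.Fk_bound' B (C2 + 1) k)
  have hall := ((hD.and hC1).and (hbd.and (win_ev D))).and (eventually_ge_atTop (3 : ℝ))
  have hall2 := Real.tendsto_log_atTop.eventually hall
  filter_upwards [hall2, eventually_gt_atTop (0 : ℝ)] with X hX hX0
  obtain ⟨L, hL⟩ : ∃ L, L = Real.log X := ⟨_, rfl⟩
  rw [← hL] at hX
  rw [← hL]
  obtain ⟨⟨⟨hp, hf⟩, hb, he⟩, hL3⟩ := hX
  have hLX : Real.exp L = X := by rw [hL, Real.exp_log hX0]
  have hL0 : 0 < L := by linarith
  have hL1 : 1 ≤ L := by linarith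
  intro lam hlam1 hlamE r χ hr hrB hprim τ hτ hcase
  have hsum : ∑ n ∈ Icc 1 ⌊3 * X⌋₊,
      (vonMangoldt n : ℂ) * χ (n : ZMod r) * pz (-τ) n * (OmL lam X n : ℂ) =
      psiG lam X (fun n => aL χ n * pz (-τ) n) := by
    unfold psiG
    apply Finset.sum_congr rfl
    intro n _
    have h := Pool.Agent.MP89da58.S.aL_mul χ 0 n
    rw [zero_add, pow_one, pow_zero, one_mul] at h
    linear_combination -(pz (-τ) n * (OmL lam X n : ℂ)) * h
  rw [hsum]
  have h1 := hp lam hlam1 hlamE (fun n => aL χ n * pz (-τ) n) (fun n => by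
    rw [norm_mul, win_norm_pz, mul_one]
    exact Pool.Agent.MP89da58.S.norm_aL_le χ n)
  rw [hLX] at h1
  apply h1
  intro t ht
  rw [win_shift, ← hk]
  have hfk : Lj (aL χ) (k + 1) (sp L (t - τ)) = Fk χ k (sp L (t - τ)) := rfl
  rw [hfk]
  have hLD : L ^ D ≤ L ^ C2 := pow_le_pow_right₀ hL1 (by rw [hC2]; exact le_max_right _ _)
  have hLC : L ^ C1 ≤ L ^ C2 := pow_le_pow_right₀ hL1 (by rw [hC2]; exact le_max_left _ _)
  have hLC2 : 0 < L ^ C2 := by positivity
  by_cases hτ2 : 2 * L ^ C2 ≤ |τ|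
  · apply hf r χ hr hrB (t - τ) ?_ ?_ k le_rfl
    · have h2 : |τ| - |t| ≤ |t - τ| := by
        rw [abs_sub_comm]
        exact abs_sub_abs_le_abs_sub τ t
      linarith
    · have h2 : |t - τ| ≤ |t| + |τ| := abs_sub t τ
      have h3 : X ^ κ = Real.exp (κ * L) := by
        rw [← hLX, ← Real.exp_mul, mul_comm]
      rw [h3] at hτ
      have h4 : Real.exp ((κ + 1) * L) = Real.exp (κ * L) * Real.exp L := by
        rw [← Real.exp_add]
        congr 1
        ring
      have h5 : 1 ≤ Real.exp (κ * L) := by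
        apply Real.one_le_exp
        positivity
      rw [h4]
      have h6 : 0 < L ^ D := by positivity
      nlinarith
  · have hτ3 := not_le.mp hτ2
    have hr2 : 2 ≤ r := by
      rcases hcase with h | h
      · exact h
      · exfalso
        rw [pow_succ] at h
        nlinarith
    have h2 : |t - τ| ≤ |t| + |τ| := abs_sub t τ
    have h3 := hb r χ (by omega) (by
      rw [Real.exp_nat_mul, Real.exp_log hL0]
      exact hrB) hprim (t - τ) (by
      rw [Real.exp_nat_mul, Real.exp_log hL0, pow_succ]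
      nlinarith) (Or.inl hr2) k le_rfl
    have e1 : Real.exp (-Real.log L) = 1 / L := by
      rw [Real.exp_neg, Real.exp_log hL0, one_div]
    rw [e1] at h3
    have e2 : Real.exp (Real.log L / 5) ≤ L ^ (99 / 100 : ℝ) := by
      rw [Real.rpow_def_of_pos hL0]
      apply Real.exp_le_exp.2
      have := Real.log_nonneg hL1
      linarith
    have e3 : (Real.exp (Real.log L / 5)) ^ (k + 1) ≤ (L ^ (99 / 100 : ℝ)) ^ (k + 1) :=
      pow_le_pow_left₀ (Real.exp_pos _).le e2 _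
    have e4 : 0 ≤ (L ^ (99 / 100 : ℝ)) ^ (k + 1) := by positivity
    have h4 : ‖Fk χ k (sp L (t - τ))‖ ≤ (Real.exp (Real.log L / 5)) ^ (k + 1) := h3
    linarith

end Pool.Agent.CH.P
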