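import Pool.Agent.Lib.MP_d610d0_nt.CH.P.Stm

set_option autoImplicit false

/-!
Piece wz.
-/

namespace Pool.Agent.CH.P

open Finset Filter
open ArithmeticFunction (vonMangoldt)
open Pool.Agent.MP89da58 (tri)
open Pool.Agent.MP89da58.S (Lj aL Fk)
open Pool.Agent.BVall (OmL psiG aZ)
open Pool.Agent.CH.V (pz I_V)

private theorem wz_one {lam X : ℝ} (hlam : 1 ≤ lam) (hlX1 : 1 < Real.log X) :
    OmL lam X 1 = 0 := by
  unfold OmL
  have : Real.log (((1 : ℕ) : ℝ) / X) = - Real.log X := by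
    rw [Nat.cast_one, one_div, Real.log_inv]
  rw [this, tri, max_eq_left, mul_zero]
  have h0 : 0 ≤ lam * Real.log X := by positivity
  rw [mul_neg, abs_neg, abs_of_nonneg h0]
  nlinarith

private theorem wz_sum {lam X : ℝ} (hlam : 1 ≤ lam) (hlX1 : 1 < Real.log X) :
    psiG lam X (fun n => aZ n / 3) =
      (∑ n ∈ Icc 1 ⌊3 * X⌋₊, ((vonMangoldt n - 1 : ℝ) : ℂ) * (OmL lam X n : ℂ)) / 3 := by
  unfold psiG
  rw [Finset.sum_div]
  apply Finset.sum_congr rfl
  intro n hn
  have hn1 := (Finset.mem_Icc.1 hn).1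
  rcases Nat.lt_or_ge 1 n with h | h
  · have hlog : ((Real.log n : ℝ) : ℂ) ≠ 0 := by
      exact_mod_cast (Real.log_pos (by exact_mod_cast h)).ne'
    have e3 : ((Real.log n : ℝ) : ℂ) * aZ n = ((vonMangoldt n - 1 : ℝ) : ℂ) := by
      unfold aZ
      rw [Complex.ofReal_div]
      field_simp
    linear_combination (OmL lam X n : ℂ) / 3 * e3
  · have hn' : n = 1 := by omega
    subst hn'
    rw [wz_one hlam hlX1]
    simp

theorem p_wz : S_wz := by
  intro hpsi A E
  obtain ⟨D, hD⟩ := hpsi (A + 1) E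
  have hk : 1 ≤ 100 * (A + 1 + 3) := by omega
  have h1 := Real.tendsto_log_atTop.eventually hD
  have h2 := (Real.tendsto_log_atTop.comp Real.tendsto_log_atTop).eventually
    (Pool.Agent.BVall.aZ_bound D hk)
  filter_upwards [h1, h2, eventually_gt_atTop (Real.exp 3)] with X hX1 hX2 hXe lam hlam hlamE
  simp only [Function.comp_apply] at hX2
  have hX0 : 0 < X := lt_trans (Real.exp_pos 3) hXe
  have hlX3 : 3 < Real.log X := (Real.lt_log_iff_exp_lt hX0).2 hXe
  have hlX : 0 < Real.log X := by linarith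
  have h3 := hX1 lam hlam hlamE (fun n => aZ n / 3) (fun n => by
    rw [norm_div]
    have := Pool.Agent.BVall.norm_aZ_le n
    rw [div_le_one (by norm_num)]
    simpa using this)
  have h4 : ‖psiG lam (Real.exp (Real.log X)) (fun n => aZ n / 3)‖ ≤
      Real.exp (Real.log X) / Real.log X ^ (A + 1) := by
    apply h3
    intro t ht
    have e1 : Real.exp (D * Real.log (Real.log X)) = Real.log X ^ D := by
      rw [Real.exp_nat_mul, Real.exp_log hlX]
    have h5 := hX2 t (by rw [e1]; exact ht)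
    have e2 : (((1 + Real.exp (-Real.log (Real.log X)) : ℝ) : ℂ) + Complex.I * t) =
        sp (Real.log X) t := by
      unfold sp
      rw [Real.exp_neg, Real.exp_log hlX, one_div]
    rw [e2] at h5
    have e4 : ∀ s : ℂ, Lj (fun n => aZ n / 3) (100 * (A + 1 + 3) + 1) s =
        (1 / 3 : ℂ) * Lj aZ (100 * (A + 1 + 3) + 1) s := by
      intro s
      unfold Lj
      rw [← smul_eq_mul, ← LSeries_smul]
      congr 1
      funext n
      simp only [Pi.smul_apply, smul_eq_mul]
      ring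
    rw [e4, norm_mul]
    have h8 : ‖(1 / 3 : ℂ)‖ ≤ 1 := by norm_num
    have h9 : Real.exp (Real.log (Real.log X) / 5) ≤ Real.log X ^ (99 / 100 : ℝ) := by
      rw [Real.rpow_def_of_pos hlX]
      apply Real.exp_le_exp.2
      have : 0 ≤ Real.log (Real.log X) := Real.log_nonneg (by linarith)
      linarith
    calc ‖(1 / 3 : ℂ)‖ * ‖Lj aZ (100 * (A + 1 + 3) + 1) (sp (Real.log X) t)‖
        ≤ 1 * (2 * (Real.exp (Real.log (Real.log X) / 5)) ^ (100 * (A + 1 + 3) + 1)) :=
          mul_le_mul h8 h5 (norm_nonneg _) zero_le_one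
      _ ≤ 2 * (Real.log X ^ (99 / 100 : ℝ)) ^ (100 * (A + 1 + 3) + 1) := by
          rw [one_mul]
          apply mul_le_mul_of_nonneg_left _ (by norm_num)
          exact pow_le_pow_left₀ (Real.exp_pos _).le h9 _
  rw [Real.exp_log hX0, wz_sum hlam (by linarith), norm_div] at h4
  have h5 : ‖(3 : ℂ)‖ = 3 := by norm_num
  rw [h5, div_le_iff₀ (by norm_num)] at h4
  refine h4.trans ?_
  rw [pow_succ, div_mul_eq_mul_div, div_le_div_iff₀ (by positivity) (by positivity)]
  have h6 : 0 < Real.log X ^ A := by positivity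
  nlinarith [mul_pos hX0 h6]

end Pool.Agent.CH.P
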