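import Pool.Agent.Lib.MP_d610d0_nt.CH.P.Stm

set_option autoImplicit false

/-!
Piece zs.
-/

namespace Pool.Agent.CH.P

open Finset Filter
open ArithmeticFunction (vonMangoldt)
open Pool.Agent.MP89da58 (tri)
open Pool.Agent.MP89da58.S (Lj aL Fk)
open Pool.Agent.BVall (OmL psiG aZ)
open Pool.Agent.CH.V (pz I_V)

lemma zs_L {N : ℕ} [NeZero N] {s : ℂ} (hs : 1 < s.re) :
    LSeries (fun n => (1 : DirichletCharacter ℂ N) n) s =
      (∏ p ∈ N.primeFactors, (1 - (p : ℂ) ^ (-s))) * riemannZeta s := by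
  rw [← DirichletCharacter.LFunction_eq_LSeries 1 hs]
  exact DirichletCharacter.LFunctionTrivChar_eq_mul_riemannZeta (by rintro rfl; simp at hs)

lemma zs_fac {p : ℕ} (hp : p.Prime) {σ : ℝ} (hσ : 0 < σ) :
    ‖1 - (p : ℂ) ^ (-(σ : ℂ))‖ ≤ Real.exp (-((p : ℝ) ^ (-σ))) := by
  have hp1 : (1 : ℝ) < p := by exact_mod_cast hp.one_lt
  have e1 : (p : ℂ) ^ (-(σ : ℂ)) = (((p : ℝ) ^ (-σ) : ℝ) : ℂ) := by
    rw [Complex.ofReal_cpow (by linarith)]
    push_cast
    rfl
  have h2 : (p : ℝ) ^ (-σ) ≤ 1 := Real.rpow_le_one_of_one_le_of_nonpos hp1.le (by linarith)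
  rw [e1, ← Complex.ofReal_one, ← Complex.ofReal_sub, Complex.norm_real,
    Real.norm_of_nonneg (by linarith)]
  have := Real.add_one_le_exp (-((p : ℝ) ^ (-σ)))
  linarith

lemma zs_prod {N : ℕ} {S : Finset ℕ} (hS : S ⊆ N.primeFactors) {σ : ℝ} (hσ : 0 < σ) :
    ‖∏ p ∈ N.primeFactors, (1 - (p : ℂ) ^ (-(σ : ℂ)))‖ ≤
      Real.exp (-∑ p ∈ S, (p : ℝ) ^ (-σ)) := by
  rw [norm_prod]
  calc ∏ p ∈ N.primeFactors, ‖1 - (p : ℂ) ^ (-(σ : ℂ))‖
      ≤ ∏ p ∈ N.primeFactors, Real.exp (-((p : ℝ) ^ (-σ))) := by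
        apply Finset.prod_le_prod
        · intro p _
          exact norm_nonneg _
        · intro p hp
          exact zs_fac (Nat.prime_of_mem_primeFactors hp) hσ
    _ = Real.exp (-∑ p ∈ N.primeFactors, (p : ℝ) ^ (-σ)) := by
        rw [← Real.exp_sum, Finset.sum_neg_distrib]
    _ ≤ _ := by
        apply Real.exp_le_exp.2
        rw [neg_le_neg_iff]
        apply Finset.sum_le_sum_of_subset_of_nonneg hS
        intro p _ _
        exact Real.rpow_nonneg (Nat.cast_nonneg p) _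

lemma zs_floor {x : ℝ} (hx : 2 ≤ x) : x / 2 ≤ Real.log ⌊Real.exp x⌋₊ ∧
    Real.log ⌊Real.exp x⌋₊ ≤ x ∧ 2 ≤ ⌊Real.exp x⌋₊ := by
  have h1 : 2 ≤ Real.exp x := by
    have := Real.add_one_le_exp x
    linarith
  have h2 : 2 ≤ ⌊Real.exp x⌋₊ := Nat.le_floor (by exact_mod_cast h1)
  have h3 : (⌊Real.exp x⌋₊ : ℝ) ≤ Real.exp x := Nat.floor_le (Real.exp_pos x).le
  have h4 : Real.exp x < ⌊Real.exp x⌋₊ + 1 := Nat.lt_floor_add_one _
  have h5 : (2 : ℝ) ≤ (⌊Real.exp x⌋₊ : ℝ) := by exact_mod_cast h2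
  refine ⟨?_, ?_, h2⟩
  · have h6 : Real.exp (x / 2) ≤ (⌊Real.exp x⌋₊ : ℝ) := by
      have h7 : Real.exp x = Real.exp (x / 2) * Real.exp (x / 2) := by
        rw [← Real.exp_add]; congr 1; ring
      have h8 : 2 ≤ Real.exp (x / 2) := by
        have := Real.add_one_le_exp (x / 2)
        linarith
      nlinarith
    calc x / 2 = Real.log (Real.exp (x / 2)) := (Real.log_exp _).symm
      _ ≤ _ := Real.log_le_log (Real.exp_pos _) h6
  · calc Real.log ⌊Real.exp x⌋₊ ≤ Real.log (Real.exp x) := Real.log_le_log (by linarith) h3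
      _ = x := Real.log_exp x

theorem p_zs : S_zs := by
  rintro ⟨C, hC⟩
  obtain ⟨C1, hC11, hC1⟩ := Pool.Agent.MP89da58.S.Lj_trivial 0
  have hlog2 : 0 < Real.log 2 := Real.log_pos (by norm_num)
  have hlog2' : Real.log 2 ≤ 1 := by
    have := Real.log_two_lt_d9
    linarith
  filter_upwards [eventually_ge_atTop 1,
    (tendsto_rpow_atTop (show (0 : ℝ) < 9 / 10 by norm_num)).eventually_ge_atTop 2,
    (tendsto_rpow_atTop (show (0 : ℝ) < 1 / 10 by norm_num)).eventually_ge_atTop 10000,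
    (tendsto_rpow_atTop (show (0 : ℝ) < 5 / 10000 by norm_num)).eventually_ge_atTop C1,
    Real.tendsto_log_atTop.eventually_ge_atTop (10000 * (Real.log 2 + C / Real.log 2))]
    with l hl1 hl2 hl3 hl4 hl5
  intro r hr
  have hl0 : 0 < l := by linarith
  set x : ℝ := l ^ (9 / 10 : ℝ) with hx
  obtain ⟨hY1, hY2, hY3⟩ := zs_floor hl2
  set Y : ℕ := ⌊Real.exp x⌋₊ with hY
  have hPP : PP l = primorial Y := rfl
  have hN0 : r * PP l ≠ 0 := by
    rw [hPP]
    exact Nat.mul_ne_zero (by omega) (primorial_ne_zero Y)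
  haveI : NeZero (r * PP l) := ⟨hN0⟩
  set σ : ℝ := 1 + 1 / l with hσ
  have hinv : 0 < 1 / l := by positivity
  have hinv1 : 1 / l ≤ 1 := by rw [div_le_one hl0]; exact hl1
  have hσ0 : 0 < σ := by rw [hσ]; linarith
  have hσre : ((σ : ℝ) : ℂ).re = σ := Complex.ofReal_re σ
  have hσ1 : 1 < ((σ : ℝ) : ℂ).re := by rw [hσre, hσ]; linarith
  rw [zs_L hσ1, norm_mul]
  -- zeta
  have hz : ‖riemannZeta ((σ : ℝ) : ℂ)‖ ≤ C1 * l := by
    have h1 := hC1 (fun _ => 1) (fun _ => by simp) ((σ : ℝ) : ℂ) hσ1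
      (by rw [hσre, hσ]; linarith)
    rw [Pool.Agent.MP89da58.S.Lj_zero_eq] at h1
    have h2 : LSeries (fun _ => (1 : ℂ)) ((σ : ℝ) : ℂ) = riemannZeta ((σ : ℝ) : ℂ) :=
      LSeries_one_eq_riemannZeta hσ1
    rw [h2, hσre] at h1
    have h3 : C1 / (σ - 1) ^ (0 + 1) = C1 * l := by
      rw [hσ, zero_add, pow_one, add_sub_cancel_left, div_div_eq_mul_div, div_one]
    rw [h3] at h1
    exact h1
  -- the product
  set S : Finset ℕ := (Ioc 2 Y).filter Nat.Prime with hS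
  have hSsub : S ⊆ (r * PP l).primeFactors := by
    intro p hp
    rw [hS, Finset.mem_filter, Finset.mem_Ioc] at hp
    rw [Nat.mem_primeFactors]
    refine ⟨hp.2, ?_, hN0⟩
    rw [hPP]
    exact (hp.2.dvd_primorial_iff.2 hp.1.2).mul_left r
  have hprod := zs_prod hSsub hσ0
  -- the sum
  have hsum1 : (1 - x / l) * ∑ p ∈ S, (1 : ℝ) / p ≤ ∑ p ∈ S, (p : ℝ) ^ (-σ) := by
    rw [Finset.mul_sum]
    apply Finset.sum_le_sum
    intro p hp
    rw [hS, Finset.mem_filter, Finset.mem_Ioc] at hp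
    have hp0 : (0 : ℝ) < p := by exact_mod_cast hp.2.pos
    have e1 : (p : ℝ) ^ (-σ) = (p : ℝ) ^ (-(1 / l)) * (1 / p) := by
      rw [hσ, neg_add, add_comm, Real.rpow_add hp0, Real.rpow_neg_one, one_div (p : ℝ)]
    rw [e1]
    apply mul_le_mul_of_nonneg_right _ (by positivity)
    rw [Real.rpow_def_of_pos hp0]
    have h1 := Real.add_one_le_exp (Real.log p * -(1 / l))
    have h2 : Real.log p ≤ x := by
      refine le_trans ?_ hY2
      apply Real.log_le_log hp0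
      exact_mod_cast hp.1.2
    have h3 : Real.log p * (1 / l) ≤ x / l := by
      rw [mul_one_div]
      exact div_le_div_of_nonneg_right h2 hl0.le
    linarith
  have hmer := (abs_le.1 (hC 2 Y le_rfl hY3)).1
  have hlogY : Real.log x - Real.log 2 ≤ Real.log (Real.log Y / Real.log ((2 : ℕ) : ℝ)) := by
    have h1 : x / 2 ≤ Real.log Y / Real.log ((2 : ℕ) : ℝ) := by
      rw [Nat.cast_ofNat, le_div_iff₀ hlog2]
      nlinarith
    rw [← Real.log_div (by positivity) (by norm_num)]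
    exact Real.log_le_log (by positivity) h1
  have hlogx : Real.log x = 9 / 10 * Real.log l := by
    rw [hx, Real.log_rpow hl0]
  have hδ : x / l ≤ 1 / 10000 := by
    have e1 : l = x * l ^ (1 / 10 : ℝ) := by
      rw [hx, ← Real.rpow_add hl0]
      norm_num
    rw [div_le_iff₀ hl0]
    have hx0 : 0 < x := by rw [hx]; positivity
    nlinarith
  have hδ0 : 0 ≤ x / l := by positivity
  have hSig : (8999 / 10000) * Real.log l ≤ ∑ p ∈ S, (1 : ℝ) / p := by
    rw [Nat.cast_ofNat] at hmer hlogY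
    rw [hlogx] at hlogY
    have h1 : Real.log 2 + C / Real.log 2 ≤ 1 / 10000 * Real.log l := by linarith
    linarith
  have hlogl : 0 ≤ Real.log l := Real.log_nonneg hl1
  have hfin : (8995 / 10000) * Real.log l ≤ ∑ p ∈ S, (p : ℝ) ^ (-σ) := by
    refine le_trans ?_ hsum1
    have h1 : (1 - 1 / 10000) * ((8999 / 10000) * Real.log l) ≤
        (1 - x / l) * ∑ p ∈ S, (1 : ℝ) / p := by
      apply mul_le_mul (by linarith) hSig (by positivity) (by linarith)
    nlinarith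
  calc ‖∏ p ∈ (r * PP l).primeFactors, (1 - (p : ℂ) ^ (-((σ : ℝ) : ℂ)))‖ *
        ‖riemannZeta ((σ : ℝ) : ℂ)‖
      ≤ Real.exp (-((8995 / 10000) * Real.log l)) * (C1 * l) := by
        apply mul_le_mul _ hz (norm_nonneg _) (Real.exp_pos _).le
        refine hprod.trans (Real.exp_le_exp.2 (by linarith))
    _ = C1 * l ^ (1005 / 10000 : ℝ) := by
        have e1 : Real.exp (-((8995 / 10000) * Real.log l)) = l ^ (-(8995 / 10000) : ℝ) := by
          rw [Real.rpow_def_of_pos hl0]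
          congr 1
          ring
        have e2 : l ^ (1005 / 10000 : ℝ) = l ^ (-(8995 / 10000) : ℝ) * l := by
          nth_rewrite 3 [← Real.rpow_one l]
          rw [← Real.rpow_add hl0]
          norm_num
        rw [e1, e2]
        ring
    _ ≤ l ^ (5 / 10000 : ℝ) * l ^ (1005 / 10000 : ℝ) :=
        mul_le_mul_of_nonneg_right hl4 (by positivity)
    _ = l ^ (101 / 1000 : ℝ) := by
        rw [← Real.rpow_add hl0]
        norm_num

end Pool.Agent.CH.P
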