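import Pool.Agent.Lib.MP_d610d0_nt.CH.V.Main
import Pool.Agent.Lib.MP_d610d0_nt.CH.P.p_mer1
import Pool.Agent.Lib.MP_d610d0_nt.CH.P.p_mer2
import Pool.Agent.Lib.MP_d610d0_nt.CH.P.p_cls
import Pool.Agent.Lib.MP_d610d0_nt.CH.P.p_rank
import Pool.Agent.Lib.MP_d610d0_nt.CH.P.p_rgh
import Pool.Agent.Lib.MP_d610d0_nt.CH.P.p_Lb
import Pool.Agent.Lib.MP_d610d0_nt.CH.P.p_zs
import Pool.Agent.Lib.MP_d610d0_nt.CH.P.p_low
import Pool.Agent.Lib.MP_d610d0_nt.CH.P.p_rc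
import Pool.Agent.Lib.MP_d610d0_nt.CH.P.p_sp
import Pool.Agent.Lib.MP_d610d0_nt.CH.P.p_Fb
import Pool.Agent.Lib.MP_d610d0_nt.CH.P.p_psi
import Pool.Agent.Lib.MP_d610d0_nt.CH.P.p_win
import Pool.Agent.Lib.MP_d610d0_nt.CH.P.p_wz
import Pool.Agent.Lib.MP_d610d0_nt.CH.P.p_shp
import Pool.Agent.Lib.MP_d610d0_nt.CH.P.p_PW
import Pool.Agent.Lib.MP_d610d0_nt.CH.P.p_PNT

set_option autoImplicit false

/-!
Assembly of section P (prime sums twisted by `χ(n) n^(iτ)`).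
-/

namespace Pool.Agent.CH.P

theorem h_mer1 : R_mer1 := p_mer1

theorem h_mer2 : R_mer2 := p_mer2 h_mer1

theorem h_psi : R_psi := p_psi

theorem h_Fb : R_Fb :=
  have hcls : R_cls := p_cls Pool.Agent.CH.V.main
  have hrank : R_rank := p_rank h_mer2
  have hrgh : R_rgh := p_rgh hcls hrank
  have hLb : R_Lb := p_Lb h_mer2 hrgh
  have hzs : R_zs := p_zs h_mer2
  have hlow : R_low := p_low hLb hzs
  p_Fb hLb hlow p_rc (p_sp h_mer1)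

theorem h_PW : R_PW := p_PW (p_win h_Fb h_psi) p_shp

theorem h_PNT : R_PNT := p_PNT (p_wz h_psi) p_shp

end Pool.Agent.CH.P
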