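import Pool.Agent.Lib.MP_d610d0_nt.CH.P.Stm

set_option autoImplicit false

/-!
Piece rc.
-/

namespace Pool.Agent.CH.P

open Finset Filter
open ArithmeticFunction (vonMangoldt)
open Pool.Agent.MP89da58 (tri)
open Pool.Agent.MP89da58.S (Lj aL Fk)
open Pool.Agent.BVall (OmL psiG aZ)
open Pool.Agent.CH.V (pz I_V)

theorem p_rc : S_rc := by
  intro r χ s k K U V W hs hK hU hV hUW hW hL h0 j
  induction j using Nat.strong_induction_on with
  | _ j ih =>
    intro hj
    have hW1 : 1 ≤ W := hU.trans hUW
    have hK0 : 0 ≤ K := by linarith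
    have hU0 : 0 ≤ U := by linarith
    have hW0 : 0 ≤ W := by linarith
    have hrec := Pool.Agent.MP89da58.S.leibniz χ j hs
    rw [Finset.sum_range_succ, Nat.choose_self, Nat.sub_self] at hrec
    have e1 : Fk χ j s * Lj (fun n => χ n) 0 s = Lj (fun n => χ n) (j + 1) s -
        ∑ i ∈ range j, (j.choose i : ℂ) * (Fk χ i s * Lj (fun n => χ n) (j - i) s) := by
      rw [← hrec]; push_cast; ring
    have h1 : ‖Fk χ j s * Lj (fun n => χ n) 0 s‖ ≤ K * U * (1 + 2 ^ k) * W ^ j := by
      rw [e1]
      calc _ ≤ ‖Lj (fun n => χ n) (j + 1) s‖ +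
            ‖∑ i ∈ range j, (j.choose i : ℂ) * (Fk χ i s * Lj (fun n => χ n) (j - i) s)‖ :=
            norm_sub_le _ _
        _ ≤ K * U * W ^ j + ∑ i ∈ range j, (j.choose i : ℝ) * (W ^ j * (K * U)) := by
            apply add_le_add
            · refine (hL (j + 1) (by omega)).trans ?_
              have e2 : K * U ^ (j + 1) = K * U * U ^ j := by ring
              rw [e2]
              apply mul_le_mul_of_nonneg_left _ (by positivity)
              exact pow_le_pow_left₀ hU0 hUW j
            · refine (norm_sum_le _ _).trans (Finset.sum_le_sum ?_)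
              intro i hi
              have hij := Finset.mem_range.1 hi
              rw [norm_mul, norm_mul, Complex.norm_natCast]
              apply mul_le_mul_of_nonneg_left _ (Nat.cast_nonneg _)
              calc ‖Fk χ i s‖ * ‖Lj (fun n => χ n) (j - i) s‖ ≤ W ^ (i + 1) * (K * U ^ (j - i)) := by
                    apply mul_le_mul (ih i hij (by omega)) (hL (j - i) (by omega)) (norm_nonneg _)
                      (by positivity)
                _ = W ^ (i + 1) * (U ^ (j - 1 - i) * (K * U)) := by
                    rw [show j - i = (j - 1 - i) + 1 by omega, pow_succ]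
                    ring
                _ ≤ W ^ (i + 1) * (W ^ (j - 1 - i) * (K * U)) := by
                    apply mul_le_mul_of_nonneg_left _ (by positivity)
                    apply mul_le_mul_of_nonneg_right _ (by positivity)
                    exact pow_le_pow_left₀ hU0 hUW _
                _ = W ^ j * (K * U) := by
                    rw [← mul_assoc, ← pow_add]; congr 2; omega
        _ = K * U * W ^ j + (∑ i ∈ range j, (j.choose i : ℝ)) * (W ^ j * (K * U)) := by
            rw [Finset.sum_mul]
        _ ≤ K * U * W ^ j + 2 ^ k * (W ^ j * (K * U)) := by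
            have h2 : ∑ i ∈ range (j + 1), (j.choose i : ℝ) = 2 ^ j := by
              exact_mod_cast Nat.sum_range_choose j
            have h3 : ∑ i ∈ range j, (j.choose i : ℝ) ≤ 2 ^ k := by
              calc ∑ i ∈ range j, (j.choose i : ℝ) ≤ ∑ i ∈ range (j + 1), (j.choose i : ℝ) := by
                    apply Finset.sum_le_sum_of_subset_of_nonneg
                    · intro i hi
                      rw [Finset.mem_range] at hi ⊢
                      omega
                    · intro i _ _
                      positivity
                _ = 2 ^ j := h2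
                _ ≤ 2 ^ k := pow_le_pow_right₀ (by norm_num) hj
            have h4 := mul_le_mul_of_nonneg_right h3
              (show 0 ≤ W ^ j * (K * U) by positivity)
            linarith
        _ = _ := by ring
    rw [norm_mul] at h1
    have hL0pos : 0 < ‖Lj (fun n => χ n) 0 s‖ := lt_of_lt_of_le (by positivity) h0
    have h5 : 1 ≤ V * ‖Lj (fun n => χ n) 0 s‖ := by
      have := (div_le_iff₀ hV).1 h0
      linarith
    calc ‖Fk χ j s‖ = ‖Fk χ j s‖ * 1 := by ring
      _ ≤ ‖Fk χ j s‖ * (V * ‖Lj (fun n => χ n) 0 s‖) :=
          mul_le_mul_of_nonneg_left h5 (norm_nonneg _)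
      _ = V * (‖Fk χ j s‖ * ‖Lj (fun n => χ n) 0 s‖) := by ring
      _ ≤ V * (K * U * (1 + 2 ^ k) * W ^ j) := mul_le_mul_of_nonneg_left h1 hV.le
      _ = (V * K * U * (1 + 2 ^ k)) * W ^ j := by ring
      _ ≤ W * W ^ j := mul_le_mul_of_nonneg_right hW (by positivity)
      _ = W ^ (j + 1) := by ring

end Pool.Agent.CH.P
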